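import Mathlib
import Pool.Agent.H705R2.ABC2.Fail

/-!
# abc, exponent 4 lam/7 for 9/10 ≤ lam ≤ 1: the bounds used in the certificate (generated)
-/

set_option linter.unusedSimpArgs false
set_option linter.unusedVariables false

namespace Pool.Agent.H705R2.ABC3

open Finset Pool.Agent.H785R2.ABC Pool.Agent.H705R2.ABC2

/-- the failing bounds, in coordinates -/
structure Facts (a0 a1 a2 a3 a4 b0 b1 b2 b3 b4 c0 c1 c2 c3 c4 ya yb yc t : ℝ) : Prop where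
  f0 :
    t < 1 / 2 * a0 + 1 / 2 * a1 + 1 / 2 * a2 + 1 / 2 * a3 + 1 / 2 * a4 + 1 / 2 * b0 + 1 / 2 *
    b1 + 1 / 2 * b2 + 1 / 2 * b3 + 1 / 2 * b4 + c0 + c1 + c2 + c4 ∨ t < 5 / 4 * a0 + 5 / 4 * a1
    + 5 / 4 * a2 + 5 / 4 * a3 + 5 / 4 * a4 + 1 / 2 * b0 + 1 / 2 * b1 + 1 / 2 * b2 + 1 / 2 * b3
    + 1 / 2 * b4 + 1 / 2 * c0 - 1 / 2 * c2 + c4 - 1 / 2 * yc ∨ t < 1 / 2 * a0 + 1 / 2 * a1 + 1
    / 2 * a2 + 1 / 2 * a3 + 1 / 2 * a4 + 5 / 4 * b0 + 5 / 4 * b1 + 5 / 4 * b2 + 5 / 4 * b3 + 5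
    / 4 * b4 + 1 / 2 * c0 - 1 / 2 * c2 + c4 - 1 / 2 * yc ∨ t < 5 / 4 * a0 + 5 / 4 * a1 + 5 / 4
    * a2 + 5 / 4 * a3 + 5 / 4 * a4 + 5 / 4 * b0 + 5 / 4 * b1 + 5 / 4 * b2 + 5 / 4 * b3 + 5 / 4
    * b4 - c1 - 2 * c2 + c4 - yc
  f1 :
    t < a0 + a1 + a2 + a3 + a4 + b1 + b2 + b3 + b4 + c0 + c1 + c3 + c4 ∨ t < a0 + a1 + a2 + a3
    + a4 - b1 - 2 * b2 - 3 * b3 + b4 + c0 + c1 + c2 + c3 + c4 - yb
  f2 :
    t < a0 + a1 + a2 + a3 + a4 + b0 + b2 + b3 + b4 + c1 + c2 + c3 + c4 ∨ t < a0 + a1 + a2 + a3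
    + a4 + b0 + b1 + b2 + b3 + b4 - c1 - 2 * c2 - 3 * c3 + c4 - yc
  f3 :
    t < a0 + a1 + a2 + a3 + a4 + b1 + b2 + b3 + b4 + c2 + c3 + c4 ∨ t < a0 + a1 + a2 + a3 + a4
    + b0 + b1 + b2 + b3 + b4 + c0 + 2 * c1 + c2 + c3 + c4 - 1
  f4 :
    t < a1 + a2 + a3 + a4 + b0 + b1 + b3 + b4 + c0 + c1 + c3 + c4 ∨ t < a0 + a1 + a2 + a3 + a4
    + b0 + b1 + b2 + b3 + b4 + c0 + c1 + c2 + c3 + c4 - 1
  f5 :
    t < a0 + a2 + a3 + a4 + b0 + b2 + b4 + c2 + c3 + c4 ∨ t < a0 + a1 + a2 + a3 + a4 + b0 + b1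
    + b2 + 2 * b3 + b4 - 2 * c2 - 3 * c3 + c4 - yc
  f6 :
    t < 1 / 2 * a0 + 1 / 2 * a1 + 1 / 2 * a2 + 1 / 2 * a3 + 1 / 2 * a4 + b2 + b3 + b4 + 1 / 2 *
    c0 + 1 / 2 * c1 + 1 / 2 * c2 + 1 / 2 * c3 + 1 / 2 * c4 ∨ t < 1 / 2 * a0 + 1 / 2 * a1 + 1 /
    2 * a2 + 1 / 2 * a3 + 1 / 2 * a4 - 1 / 2 * b2 - b3 + b4 + 5 / 4 * c0 + 5 / 4 * c1 + 5 / 4 *
    c2 + 5 / 4 * c3 + 5 / 4 * c4 - 1 / 2 * yb ∨ t < 5 / 4 * a0 + 5 / 4 * a1 + 5 / 4 * a2 + 5 /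
    4 * a3 + 5 / 4 * a4 - 1 / 2 * b2 - b3 + b4 + 1 / 2 * c0 + 1 / 2 * c1 + 1 / 2 * c2 + 1 / 2 *
    c3 + 1 / 2 * c4 - 1 / 2 * yb ∨ t < 5 / 4 * a0 + 5 / 4 * a1 + 5 / 4 * a2 + 5 / 4 * a3 + 5 /
    4 * a4 - 2 * b2 - 3 * b3 + b4 + 5 / 4 * c0 + 5 / 4 * c1 + 5 / 4 * c2 + 5 / 4 * c3 + 5 / 4 *
    c4 - yb
  f7 :
    t < a0 + a1 + a3 + a4 + b0 + b1 + b3 + b4 + c0 + c1 + c2 + c3 + c4 ∨ t < a0 + a1 + a2 + a3
    + a4 + b0 + b1 + b2 + b3 + b4 - c1 - 2 * c2 - 3 * c3 + c4 - yc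
  f8 :
    t < a0 + a1 + a2 + a3 + a4 + b0 + b1 + b3 + b4 + c0 + c2 + c3 + c4 ∨ t < a0 + a1 + a2 + a3
    + a4 + b0 + b1 + b2 + b3 + b4 - 2 * c2 - 3 * c3 + c4 - yc
  f9 :
    t < 1 / 2 * a0 + 1 / 2 * a1 + 1 / 2 * a2 + 1 / 2 * a3 + 1 / 2 * a4 + 1 / 2 * b0 + 1 / 2 *
    b1 + 1 / 2 * b2 + 1 / 2 * b3 + 1 / 2 * b4 + c2 + c3 + c4 ∨ t < 5 / 4 * a0 + 5 / 4 * a1 + 5
    / 4 * a2 + 5 / 4 * a3 + 5 / 4 * a4 + 1 / 2 * b0 + 1 / 2 * b1 + 1 / 2 * b2 + 1 / 2 * b3 + 1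
    / 2 * b4 - 1 / 2 * c2 - c3 + c4 - 1 / 2 * yc ∨ t < 1 / 2 * a0 + 1 / 2 * a1 + 1 / 2 * a2 + 1
    / 2 * a3 + 1 / 2 * a4 + 5 / 4 * b0 + 5 / 4 * b1 + 5 / 4 * b2 + 5 / 4 * b3 + 5 / 4 * b4 - 1
    / 2 * c2 - c3 + c4 - 1 / 2 * yc ∨ t < 5 / 4 * a0 + 5 / 4 * a1 + 5 / 4 * a2 + 5 / 4 * a3 + 5
    / 4 * a4 + 5 / 4 * b0 + 5 / 4 * b1 + 5 / 4 * b2 + 5 / 4 * b3 + 5 / 4 * b4 - 2 * c2 - 3 * c3
    + c4 - yc
  f10 :
    t < a0 + a1 + a3 + a4 + b0 + b1 + b3 + b4 + c0 + c1 + c3 + c4 ∨ t < a0 + a1 + a2 + a3 + a4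
    + b0 + b1 + b2 + b3 + b4 - c1 - 3 * c3 + c4 - yc
  f11 :
    t < a3 + a4 + b0 + b1 + b3 + b4 + c0 + c1 + c3 + c4 ∨ t < a0 + 2 * a1 + 3 * a2 + a3 + a4 +
    b0 + b1 + b2 + b3 + b4 + c0 + c1 + c2 + c3 + c4 - 1
  f12 :
    t < a1 + a2 + a3 + a4 + b0 + b1 + b2 + b4 + c0 + c1 + c2 + c3 + c4 ∨ t < a0 + a1 + a2 + a3
    + a4 + b0 + b1 + b2 + 2 * b3 + b4 + c0 + c1 + c2 + c3 + c4 - 1
  f13 :
    t < a0 + a1 + a2 + a4 + b0 + b1 + b2 + b4 + c1 + c3 + c4 ∨ t < a0 + a1 + a2 + a3 + a4 + b0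
    + b1 + b2 + b3 + b4 - c1 - 3 * c3 + c4 - yc
  f14 :
    t < b0 + b1 + b2 + b4 + c0 + c1 + c2 + c3 + c4 ∨ t < a0 + a1 + a2 + a3 + a4 + 1 / 2 * b0 +
    1 / 2 * b1 + 1 / 2 * b2 + 1 / 2 * b4 + 1 / 2 * c0 + 1 / 2 * c1 + 1 / 2 * c2 + 1 / 2 * c3 +
    1 / 2 * c4
  f15 :
    t < 1 / 2 * a0 + 1 / 2 * a1 + 1 / 2 * a2 + 1 / 2 * a3 + 1 / 2 * a4 + 1 / 2 * b0 + 1 / 2 *
    b1 + 1 / 2 * b2 + 1 / 2 * b3 + 1 / 2 * b4 + c1 + c2 + c4 ∨ t < 5 / 4 * a0 + 5 / 4 * a1 + 5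
    / 4 * a2 + 5 / 4 * a3 + 5 / 4 * a4 + 1 / 2 * b0 + 1 / 2 * b1 + 1 / 2 * b2 + 1 / 2 * b3 + 1
    / 2 * b4 - 1 / 2 * c2 + c4 - 1 / 2 * yc ∨ t < 1 / 2 * a0 + 1 / 2 * a1 + 1 / 2 * a2 + 1 / 2
    * a3 + 1 / 2 * a4 + 5 / 4 * b0 + 5 / 4 * b1 + 5 / 4 * b2 + 5 / 4 * b3 + 5 / 4 * b4 - 1 / 2
    * c2 + c4 - 1 / 2 * yc ∨ t < 5 / 4 * a0 + 5 / 4 * a1 + 5 / 4 * a2 + 5 / 4 * a3 + 5 / 4 * a4
    + 5 / 4 * b0 + 5 / 4 * b1 + 5 / 4 * b2 + 5 / 4 * b3 + 5 / 4 * b4 - c1 - 2 * c2 + c4 - yc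
  f16 :
    t < a0 + a1 + a2 + a4 + b1 + b3 + b4 + c0 + c1 + c2 + c4 ∨ t < a0 + a1 + a2 + a3 + a4 - b1
    - 3 * b3 + b4 + c0 + c1 + c2 + c3 + c4 - yb
  f17 :
    t < a0 + a1 + a2 + a3 + a4 + b0 + b1 + b3 + b4 ∨ t < 1 / 2 * a0 + 1 / 2 * a1 + 1 / 2 * a2 +
    1 / 2 * a3 + 1 / 2 * a4 + 1 / 2 * b0 + 1 / 2 * b1 + 1 / 2 * b3 + 1 / 2 * b4 + c0 + c1 + c2
    + c3 + c4
  f18 :
    t < 1 / 2 * a0 + 1 / 2 * a1 + 1 / 2 * a2 + 1 / 2 * a3 + 1 / 2 * a4 + 1 / 2 * b0 + 1 / 2 *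
    b1 + 1 / 2 * b2 + 1 / 2 * b3 + 1 / 2 * b4 + c0 + c2 + c4 ∨ t < 5 / 4 * a0 + 5 / 4 * a1 + 5
    / 4 * a2 + 5 / 4 * a3 + 5 / 4 * a4 + 1 / 2 * b0 + 1 / 2 * b1 + 1 / 2 * b2 + 1 / 2 * b3 + 1
    / 2 * b4 + 1 / 2 * c0 - 1 / 2 * c2 + c4 - 1 / 2 * yc ∨ t < 1 / 2 * a0 + 1 / 2 * a1 + 1 / 2
    * a2 + 1 / 2 * a3 + 1 / 2 * a4 + 5 / 4 * b0 + 5 / 4 * b1 + 5 / 4 * b2 + 5 / 4 * b3 + 5 / 4
    * b4 + 1 / 2 * c0 - 1 / 2 * c2 + c4 - 1 / 2 * yc ∨ t < 5 / 4 * a0 + 5 / 4 * a1 + 5 / 4 * a2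
    + 5 / 4 * a3 + 5 / 4 * a4 + 5 / 4 * b0 + 5 / 4 * b1 + 5 / 4 * b2 + 5 / 4 * b3 + 5 / 4 * b4
    - 2 * c2 + c4 - yc
  f19 :
    t < a1 + a2 + a3 + a4 + b1 + b3 + b4 + c1 + c3 + c4 ∨ t < a0 + a1 + a2 + a3 + a4 - b1 - 3 *
    b3 + b4 + c0 + c1 + 3 * c2 + c3 + c4 - yb
  f20 :
    t < 1 / 2 * a0 + 1 / 2 * a1 + 1 / 2 * a2 + 1 / 2 * a3 + 1 / 2 * a4 + b1 + b3 + b4 + 1 / 2 *
    c0 + 1 / 2 * c1 + 1 / 2 * c2 + 1 / 2 * c3 + 1 / 2 * c4 ∨ t < 1 / 2 * a0 + 1 / 2 * a1 + 1 /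
    2 * a2 + 1 / 2 * a3 + 1 / 2 * a4 - b3 + b4 + 5 / 4 * c0 + 5 / 4 * c1 + 5 / 4 * c2 + 5 / 4 *
    c3 + 5 / 4 * c4 - 1 / 2 * yb ∨ t < 5 / 4 * a0 + 5 / 4 * a1 + 5 / 4 * a2 + 5 / 4 * a3 + 5 /
    4 * a4 - b3 + b4 + 1 / 2 * c0 + 1 / 2 * c1 + 1 / 2 * c2 + 1 / 2 * c3 + 1 / 2 * c4 - 1 / 2 *
    yb ∨ t < 5 / 4 * a0 + 5 / 4 * a1 + 5 / 4 * a2 + 5 / 4 * a3 + 5 / 4 * a4 - b1 - 3 * b3 + b4
    + 5 / 4 * c0 + 5 / 4 * c1 + 5 / 4 * c2 + 5 / 4 * c3 + 5 / 4 * c4 - yb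
  f21 :
    t < 1 / 2 * a0 + 1 / 2 * a1 + 1 / 2 * a2 + 1 / 2 * a3 + 1 / 2 * a4 + b0 + b3 + b4 + 1 / 2 *
    c0 + 1 / 2 * c1 + 1 / 2 * c2 + 1 / 2 * c3 + 1 / 2 * c4 ∨ t < 1 / 2 * a0 + 1 / 2 * a1 + 1 /
    2 * a2 + 1 / 2 * a3 + 1 / 2 * a4 + 1 / 2 * b0 - b3 + b4 + 5 / 4 * c0 + 5 / 4 * c1 + 5 / 4 *
    c2 + 5 / 4 * c3 + 5 / 4 * c4 - 1 / 2 * yb ∨ t < 5 / 4 * a0 + 5 / 4 * a1 + 5 / 4 * a2 + 5 /
    4 * a3 + 5 / 4 * a4 + 1 / 2 * b0 - b3 + b4 + 1 / 2 * c0 + 1 / 2 * c1 + 1 / 2 * c2 + 1 / 2 *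
    c3 + 1 / 2 * c4 - 1 / 2 * yb ∨ t < 5 / 4 * a0 + 5 / 4 * a1 + 5 / 4 * a2 + 5 / 4 * a3 + 5 /
    4 * a4 - 3 * b3 + b4 + 5 / 4 * c0 + 5 / 4 * c1 + 5 / 4 * c2 + 5 / 4 * c3 + 5 / 4 * c4 - yb
  f22 :
    t < 1 / 2 * a0 + 1 / 2 * a1 + 1 / 2 * a2 + 1 / 2 * a3 + 1 / 2 * a4 + b3 + b4 + 1 / 2 * c0 +
    1 / 2 * c1 + 1 / 2 * c2 + 1 / 2 * c3 + 1 / 2 * c4 ∨ t < 1 / 2 * a0 + 1 / 2 * a1 + 1 / 2 *
    a2 + 1 / 2 * a3 + 1 / 2 * a4 - b3 + b4 + 5 / 4 * c0 + 5 / 4 * c1 + 5 / 4 * c2 + 5 / 4 * c3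
    + 5 / 4 * c4 - 1 / 2 * yb ∨ t < 5 / 4 * a0 + 5 / 4 * a1 + 5 / 4 * a2 + 5 / 4 * a3 + 5 / 4 *
    a4 - b3 + b4 + 1 / 2 * c0 + 1 / 2 * c1 + 1 / 2 * c2 + 1 / 2 * c3 + 1 / 2 * c4 - 1 / 2 * yb
    ∨ t < 5 / 4 * a0 + 5 / 4 * a1 + 5 / 4 * a2 + 5 / 4 * a3 + 5 / 4 * a4 - 3 * b3 + b4 + 5 / 4
    * c0 + 5 / 4 * c1 + 5 / 4 * c2 + 5 / 4 * c3 + 5 / 4 * c4 - yb
  f23 :
    t < a1 + a2 + a3 + a4 + b0 + b3 + b4 + c0 + c1 + c2 + c3 + c4 ∨ t < a0 + a1 + a2 + a3 + a4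
    - 3 * b3 + b4 + c0 + c1 + c2 + c3 + c4 - yb
  f24 :
    t < a0 + a1 + a2 + a3 + a4 + b0 + b1 + b3 + b4 + c3 + c4 ∨ t < a0 + a1 + a2 + a3 + a4 + b0
    + b1 + b2 + b3 + b4 - 3 * c3 + c4 - yc
  f25 :
    t < a0 + a1 + a2 + a3 + a4 + b0 + b1 + b3 + b4 + c0 + c3 + c4 ∨ t < a0 + a1 + a2 + a3 + a4
    + b0 + b1 + b2 + b3 + b4 - 3 * c3 + c4 - yc
  f26 :
    t < a0 + a1 + a2 + a3 + a4 + b0 + b1 + b3 + b4 + c1 + c3 + c4 ∨ t < a0 + a1 + a2 + a3 + a4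
    + b0 + b1 + b2 + b3 + b4 - c1 - 3 * c3 + c4 - yc
  f27 :
    t < a1 + a2 + a4 + b0 + b1 + b2 + b4 + c0 + c1 + c2 + c3 + c4 ∨ t < a0 + a1 + a2 + 4 * a3 +
    a4 + b0 + b1 + b2 + b3 + b4 + c0 + c1 + c2 + c3 + c4 - 1
  f28 :
    t < a1 + a2 + a3 + a4 + b1 + b3 + b4 + c1 + c4 ∨ t < a0 + a1 + a2 + a3 + a4 + b0 + b1 + 3 *
    b2 + b3 + b4 + c0 + c1 + 3 * c2 + 4 * c3 + c4 - 1
  f29 :
    t < 1 / 2 * a0 + 1 / 2 * a1 + 1 / 2 * a2 + 1 / 2 * a3 + 1 / 2 * a4 + 1 / 2 * b0 + 1 / 2 *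
    b1 + 1 / 2 * b2 + 1 / 2 * b3 + 1 / 2 * b4 + c1 + c3 + c4 ∨ t < 5 / 4 * a0 + 5 / 4 * a1 + 5
    / 4 * a2 + 5 / 4 * a3 + 5 / 4 * a4 + 1 / 2 * b0 + 1 / 2 * b1 + 1 / 2 * b2 + 1 / 2 * b3 + 1
    / 2 * b4 - c3 + c4 - 1 / 2 * yc ∨ t < 1 / 2 * a0 + 1 / 2 * a1 + 1 / 2 * a2 + 1 / 2 * a3 + 1
    / 2 * a4 + 5 / 4 * b0 + 5 / 4 * b1 + 5 / 4 * b2 + 5 / 4 * b3 + 5 / 4 * b4 - c3 + c4 - 1 / 2
    * yc ∨ t < 5 / 4 * a0 + 5 / 4 * a1 + 5 / 4 * a2 + 5 / 4 * a3 + 5 / 4 * a4 + 5 / 4 * b0 + 5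
    / 4 * b1 + 5 / 4 * b2 + 5 / 4 * b3 + 5 / 4 * b4 - c1 - 3 * c3 + c4 - yc
  f30 :
    t < a0 + a1 + a2 + a4 + b1 + b3 + b4 + c0 + c1 + c2 + c3 + c4 ∨ t < a0 + a1 + a2 + a3 + a4
    - b1 - 3 * b3 + b4 + c0 + c1 + c2 + c3 + c4 - yb
  f31 :
    t < a0 + a2 + a4 + b1 + b3 + b4 + c0 + c1 + c2 + c3 + c4 ∨ t < a0 + a1 + a2 + 2 * a3 + a4 -
    b1 - 3 * b3 + b4 + c0 + c1 + c2 + c3 + c4 - yb
  f32 :
    t < a2 + a4 + b0 + b1 + b2 + b4 + c0 + c1 + c2 + c3 + c4 ∨ t < a0 + 2 * a1 + a2 + 4 * a3 +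
    a4 + b0 + b1 + b2 + b3 + b4 + c0 + c1 + c2 + c3 + c4 - 1
  f33 :
    t < 1 / 2 * a0 + 1 / 2 * a1 + 1 / 2 * a2 + 1 / 2 * a3 + 1 / 2 * a4 + 1 / 2 * b0 + 1 / 2 *
    b1 + 1 / 2 * b2 + 1 / 2 * b3 + 1 / 2 * b4 + c3 + c4 ∨ t < 5 / 4 * a0 + 5 / 4 * a1 + 5 / 4 *
    a2 + 5 / 4 * a3 + 5 / 4 * a4 + 1 / 2 * b0 + 1 / 2 * b1 + 1 / 2 * b2 + 1 / 2 * b3 + 1 / 2 *
    b4 - c3 + c4 - 1 / 2 * yc ∨ t < 1 / 2 * a0 + 1 / 2 * a1 + 1 / 2 * a2 + 1 / 2 * a3 + 1 / 2 *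
    a4 + 5 / 4 * b0 + 5 / 4 * b1 + 5 / 4 * b2 + 5 / 4 * b3 + 5 / 4 * b4 - c3 + c4 - 1 / 2 * yc
    ∨ t < 5 / 4 * a0 + 5 / 4 * a1 + 5 / 4 * a2 + 5 / 4 * a3 + 5 / 4 * a4 + 5 / 4 * b0 + 5 / 4 *
    b1 + 5 / 4 * b2 + 5 / 4 * b3 + 5 / 4 * b4 - 3 * c3 + c4 - yc
  f34 :
    t < a1 + a3 + a4 + b0 + b1 + b2 + b4 + c0 + c1 + c2 + c3 + c4 ∨ t < a0 + a1 + 3 * a2 + a3 +
    a4 + b0 + b1 + b2 + b3 + b4 + c0 + c1 + c2 + c3 + c4 - 1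
  f35 :
    t < a1 + a2 + a3 + b0 + b1 + b2 + b4 + c0 + c1 + c2 + c3 + c4 ∨ t < a0 + a1 + a2 + a3 + b0
    + b1 + b2 + b3 + b4 + c0 + c1 + c2 + c3 + c4 + ya - 1
  f36 :
    t < a3 + a4 + b1 + b3 + b4 + c1 + c2 + c3 + c4 ∨ t < a0 + 2 * a1 + 3 * a2 + a3 + a4 + b0 +
    b1 + 3 * b2 + b3 + b4 + c0 + c1 + c2 + c3 + c4 - 1
  f37 :
    t < a1 + a2 + a3 + a4 + 1 / 2 * b0 + 1 / 2 * b1 + 1 / 2 * b2 + 1 / 2 * b3 + 1 / 2 * b4 + 1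
    / 2 * c0 + 1 / 2 * c1 + 1 / 2 * c2 + 1 / 2 * c3 + 1 / 2 * c4 ∨ t < -1 / 2 * a2 - a3 + a4 +
    5 / 4 * b0 + 5 / 4 * b1 + 5 / 4 * b2 + 5 / 4 * b3 + 5 / 4 * b4 + 1 / 2 * c0 + 1 / 2 * c1 +
    1 / 2 * c2 + 1 / 2 * c3 + 1 / 2 * c4 - 1 / 2 * ya ∨ t < -1 / 2 * a2 - a3 + a4 + 1 / 2 * b0
    + 1 / 2 * b1 + 1 / 2 * b2 + 1 / 2 * b3 + 1 / 2 * b4 + 5 / 4 * c0 + 5 / 4 * c1 + 5 / 4 * c2
    + 5 / 4 * c3 + 5 / 4 * c4 - 1 / 2 * ya ∨ t < -a1 - 2 * a2 - 3 * a3 + a4 + 5 / 4 * b0 + 5 /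
    4 * b1 + 5 / 4 * b2 + 5 / 4 * b3 + 5 / 4 * b4 + 5 / 4 * c0 + 5 / 4 * c1 + 5 / 4 * c2 + 5 /
    4 * c3 + 5 / 4 * c4 - ya
  f38 :
    t < a2 + a3 + a4 + 1 / 2 * b0 + 1 / 2 * b1 + 1 / 2 * b2 + 1 / 2 * b3 + 1 / 2 * b4 + 1 / 2 *
    c0 + 1 / 2 * c1 + 1 / 2 * c2 + 1 / 2 * c3 + 1 / 2 * c4 ∨ t < -1 / 2 * a2 - a3 + a4 + 5 / 4
    * b0 + 5 / 4 * b1 + 5 / 4 * b2 + 5 / 4 * b3 + 5 / 4 * b4 + 1 / 2 * c0 + 1 / 2 * c1 + 1 / 2
    * c2 + 1 / 2 * c3 + 1 / 2 * c4 - 1 / 2 * ya ∨ t < -1 / 2 * a2 - a3 + a4 + 1 / 2 * b0 + 1 /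
    2 * b1 + 1 / 2 * b2 + 1 / 2 * b3 + 1 / 2 * b4 + 5 / 4 * c0 + 5 / 4 * c1 + 5 / 4 * c2 + 5 /
    4 * c3 + 5 / 4 * c4 - 1 / 2 * ya ∨ t < -2 * a2 - 3 * a3 + a4 + 5 / 4 * b0 + 5 / 4 * b1 + 5
    / 4 * b2 + 5 / 4 * b3 + 5 / 4 * b4 + 5 / 4 * c0 + 5 / 4 * c1 + 5 / 4 * c2 + 5 / 4 * c3 + 5
    / 4 * c4 - ya
  f39 :
    t < a1 + a3 + a4 + 1 / 2 * b0 + 1 / 2 * b1 + 1 / 2 * b2 + 1 / 2 * b3 + 1 / 2 * b4 + 1 / 2 *
    c0 + 1 / 2 * c1 + 1 / 2 * c2 + 1 / 2 * c3 + 1 / 2 * c4 ∨ t < -a3 + a4 + 5 / 4 * b0 + 5 / 4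
    * b1 + 5 / 4 * b2 + 5 / 4 * b3 + 5 / 4 * b4 + 1 / 2 * c0 + 1 / 2 * c1 + 1 / 2 * c2 + 1 / 2
    * c3 + 1 / 2 * c4 - 1 / 2 * ya ∨ t < -a3 + a4 + 1 / 2 * b0 + 1 / 2 * b1 + 1 / 2 * b2 + 1 /
    2 * b3 + 1 / 2 * b4 + 5 / 4 * c0 + 5 / 4 * c1 + 5 / 4 * c2 + 5 / 4 * c3 + 5 / 4 * c4 - 1 /
    2 * ya ∨ t < -a1 - 3 * a3 + a4 + 5 / 4 * b0 + 5 / 4 * b1 + 5 / 4 * b2 + 5 / 4 * b3 + 5 / 4
    * b4 + 5 / 4 * c0 + 5 / 4 * c1 + 5 / 4 * c2 + 5 / 4 * c3 + 5 / 4 * c4 - ya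
  f40 :
    t < a0 + a2 + a4 + b0 + b2 + b4 + c1 + c2 + c3 + c4 ∨ t < a0 + a1 + a2 + 2 * a3 + a4 + b0 +
    b1 + b2 + 2 * b3 + b4 - c1 - 2 * c2 - 3 * c3 + c4 - yc
  f41 :
    t < a0 + a1 + a3 + a4 + b0 + b1 + b2 + b3 + b4 ∨ t < 1 / 2 * a0 + 1 / 2 * a1 + 1 / 2 * a3 +
    1 / 2 * a4 + 1 / 2 * b0 + 1 / 2 * b1 + 1 / 2 * b2 + 1 / 2 * b3 + 1 / 2 * b4 + c0 + c1 + c2
    + c3 + c4
  f42 :
    t < a2 + a4 + 1 / 2 * b0 + 1 / 2 * b1 + 1 / 2 * b2 + 1 / 2 * b3 + 1 / 2 * b4 + 1 / 2 * c0 +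
    1 / 2 * c1 + 1 / 2 * c2 + 1 / 2 * c3 + 1 / 2 * c4 ∨ t < -1 / 2 * a2 + a4 + 5 / 4 * b0 + 5 /
    4 * b1 + 5 / 4 * b2 + 5 / 4 * b3 + 5 / 4 * b4 + 1 / 2 * c0 + 1 / 2 * c1 + 1 / 2 * c2 + 1 /
    2 * c3 + 1 / 2 * c4 - 1 / 2 * ya ∨ t < -1 / 2 * a2 + a4 + 1 / 2 * b0 + 1 / 2 * b1 + 1 / 2 *
    b2 + 1 / 2 * b3 + 1 / 2 * b4 + 5 / 4 * c0 + 5 / 4 * c1 + 5 / 4 * c2 + 5 / 4 * c3 + 5 / 4 *
    c4 - 1 / 2 * ya ∨ t < -2 * a2 + a4 + 5 / 4 * b0 + 5 / 4 * b1 + 5 / 4 * b2 + 5 / 4 * b3 + 5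
    / 4 * b4 + 5 / 4 * c0 + 5 / 4 * c1 + 5 / 4 * c2 + 5 / 4 * c3 + 5 / 4 * c4 - ya
  f43 :
    t < b0 + b1 + b3 + b4 + c0 + c1 + c2 + c3 + c4 ∨ t < a0 + a1 + a2 + a3 + a4 + 1 / 2 * b0 +
    1 / 2 * b1 + 1 / 2 * b3 + 1 / 2 * b4 + 1 / 2 * c0 + 1 / 2 * c1 + 1 / 2 * c2 + 1 / 2 * c3 +
    1 / 2 * c4
  f44 :
    t < a1 + a3 + a4 + b1 + b3 + b4 + c2 + c3 + c4 ∨ t < a0 + a1 + 3 * a2 + a3 + a4 - b1 - 3 *
    b3 + b4 + c0 + 2 * c1 + c2 + c3 + c4 - yb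
  f45 :
    t < a0 + a1 + a2 + a4 + b0 + b1 + b2 + b3 + b4 ∨ t < 1 / 2 * a0 + 1 / 2 * a1 + 1 / 2 * a2 +
    1 / 2 * a4 + 1 / 2 * b0 + 1 / 2 * b1 + 1 / 2 * b2 + 1 / 2 * b3 + 1 / 2 * b4 + c0 + c1 + c2
    + c3 + c4
  f46 :
    t < a1 + a2 + a3 + a4 + b3 + b4 + c0 + c2 + c3 + c4 ∨ t < a0 + a1 + a2 + a3 + a4 + b0 + 2 *
    b1 + 3 * b2 + b3 + b4 - 2 * c2 - 3 * c3 + c4 - yc
  f47 :
    t < b0 + b1 + b2 + b3 + b4 + c0 + c1 + c3 + c4 ∨ t < a0 + a1 + a2 + a3 + a4 + 1 / 2 * b0 +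
    1 / 2 * b1 + 1 / 2 * b2 + 1 / 2 * b3 + 1 / 2 * b4 + 1 / 2 * c0 + 1 / 2 * c1 + 1 / 2 * c3 +
    1 / 2 * c4
  f48 :
    t < a0 + a1 + a2 + a3 + a4 + c0 + c1 + c3 + c4 ∨ t < 1 / 2 * a0 + 1 / 2 * a1 + 1 / 2 * a2 +
    1 / 2 * a3 + 1 / 2 * a4 + b0 + b1 + b2 + b3 + b4 + 1 / 2 * c0 + 1 / 2 * c1 + 1 / 2 * c3 + 1
    / 2 * c4
  f49 :
    t < a1 + a2 + a4 + b0 + b1 + b3 + b4 + c0 + c1 + c3 + c4 ∨ t < a0 + a1 + a2 + 4 * a3 + a4 +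
    b0 + b1 + b2 + b3 + b4 + c0 + c1 + c2 + c3 + c4 - 1
  f50 :
    t < a0 + a1 + a2 + a4 + c0 + c1 + c2 + c3 + c4 ∨ t < 1 / 2 * a0 + 1 / 2 * a1 + 1 / 2 * a2 +
    1 / 2 * a4 + b0 + b1 + b2 + b3 + b4 + 1 / 2 * c0 + 1 / 2 * c1 + 1 / 2 * c2 + 1 / 2 * c3 + 1
    / 2 * c4
  f51 :
    t < a0 + a1 + a2 + a4 + b0 + b1 + b2 + b4 + c0 + c3 + c4 ∨ t < a0 + a1 + a2 + a3 + a4 + b0
    + b1 + b2 + b3 + b4 - 3 * c3 + c4 - yc
  f52 :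
    t < a0 + a1 + a3 + a4 + c0 + c1 + c2 + c3 + c4 ∨ t < 1 / 2 * a0 + 1 / 2 * a1 + 1 / 2 * a3 +
    1 / 2 * a4 + b0 + b1 + b2 + b3 + b4 + 1 / 2 * c0 + 1 / 2 * c1 + 1 / 2 * c2 + 1 / 2 * c3 + 1
    / 2 * c4
  f53 :
    t < a0 + a2 + a3 + a4 + 1 / 2 * b0 + 1 / 2 * b1 + 1 / 2 * b2 + 1 / 2 * b3 + 1 / 2 * b4 + 1
    / 2 * c0 + 1 / 2 * c1 + 1 / 2 * c2 + 1 / 2 * c3 + 1 / 2 * c4 ∨ t < 1 / 2 * a0 - 1 / 2 * a2
    - a3 + a4 + 5 / 4 * b0 + 5 / 4 * b1 + 5 / 4 * b2 + 5 / 4 * b3 + 5 / 4 * b4 + 1 / 2 * c0 + 1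
    / 2 * c1 + 1 / 2 * c2 + 1 / 2 * c3 + 1 / 2 * c4 - 1 / 2 * ya ∨ t < 1 / 2 * a0 - 1 / 2 * a2
    - a3 + a4 + 1 / 2 * b0 + 1 / 2 * b1 + 1 / 2 * b2 + 1 / 2 * b3 + 1 / 2 * b4 + 5 / 4 * c0 + 5
    / 4 * c1 + 5 / 4 * c2 + 5 / 4 * c3 + 5 / 4 * c4 - 1 / 2 * ya ∨ t < -2 * a2 - 3 * a3 + a4 +
    5 / 4 * b0 + 5 / 4 * b1 + 5 / 4 * b2 + 5 / 4 * b3 + 5 / 4 * b4 + 5 / 4 * c0 + 5 / 4 * c1 +
    5 / 4 * c2 + 5 / 4 * c3 + 5 / 4 * c4 - ya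
  f54 :
    t < a0 + a1 + a3 + a4 + b1 + b3 + b4 + c0 + c1 + c2 + c3 + c4 ∨ t < a0 + a1 + a2 + a3 + a4
    - b1 - 3 * b3 + b4 + c0 + c1 + c2 + c3 + c4 - yb
  f55 :
    t < a2 + a3 + a4 + b0 + b1 + b2 + b4 + c0 + c1 + c2 + c3 + c4 ∨ t < a0 + 2 * a1 + a2 + a3 +
    a4 + b0 + b1 + b2 + b3 + b4 + c0 + c1 + c2 + c3 + c4 - 1
  f56 :
    t < a3 + a4 + b0 + b1 + b2 + b3 + b4 + c0 + c1 + c2 + c3 + c4 ∨ t < a0 + 2 * a1 + 3 * a2 +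
    a3 + a4 + b0 + b1 + b2 + b3 + b4 + c0 + c1 + c2 + c3 + c4 - 1
  f57 :
    t < a1 + a2 + a3 + a4 + b0 + b1 + b2 + b3 + b4 + c0 + c1 + c2 + c4 ∨ t < a0 + a1 + a2 + a3
    + a4 + b0 + b1 + b2 + b3 + b4 + c0 + c1 + c2 + 2 * c3 + c4 - 1
  f58 :
    t < a0 + a2 + a3 + a4 + b0 + b1 + b2 + b3 + b4 + c0 + c1 + c2 + c4 ∨ t < a0 + a1 + a2 + a3
    + a4 - b1 - 2 * b2 - 3 * b3 + b4 + c0 + c1 + c2 + 2 * c3 + c4 - yb
  f59 :
    t < b0 + b1 + b2 + b3 + b4 + c0 + c1 + c2 + c4 ∨ t < a0 + a1 + a2 + a3 + a4 + 1 / 2 * b0 +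
    1 / 2 * b1 + 1 / 2 * b2 + 1 / 2 * b3 + 1 / 2 * b4 + 1 / 2 * c0 + 1 / 2 * c1 + 1 / 2 * c2 +
    1 / 2 * c4
  f60 :
    t < a2 + a3 + a4 + b0 + b1 + b2 + b4 + c0 + c1 + c2 + c4 ∨ t < a0 + 2 * a1 + a2 + a3 + a4 +
    b0 + b1 + b2 + b3 + b4 + c0 + c1 + c2 + c3 + c4 - 1
  f61 :
    t < 1 / 2 * a0 + 1 / 2 * a1 + 1 / 2 * a2 + 1 / 2 * a3 + 1 / 2 * a4 + 1 / 2 * b0 + 1 / 2 *
    b1 + 1 / 2 * b2 + 1 / 2 * b3 + 1 / 2 * b4 + c0 + c1 + c2 + c3 + c4 ∨ t < 5 / 4 * a0 + 5 / 4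
    * a1 + 5 / 4 * a2 + 5 / 4 * a3 + 5 / 4 * a4 + 1 / 2 * b0 + 1 / 2 * b1 + 1 / 2 * b2 + 1 / 2
    * b3 + 1 / 2 * b4 + 1 / 2 * c0 - 1 / 2 * c2 - c3 + c4 - 1 / 2 * yc ∨ t < 1 / 2 * a0 + 1 / 2
    * a1 + 1 / 2 * a2 + 1 / 2 * a3 + 1 / 2 * a4 + 5 / 4 * b0 + 5 / 4 * b1 + 5 / 4 * b2 + 5 / 4
    * b3 + 5 / 4 * b4 + 1 / 2 * c0 - 1 / 2 * c2 - c3 + c4 - 1 / 2 * yc ∨ t < 5 / 4 * a0 + 5 / 4
    * a1 + 5 / 4 * a2 + 5 / 4 * a3 + 5 / 4 * a4 + 5 / 4 * b0 + 5 / 4 * b1 + 5 / 4 * b2 + 5 / 4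
    * b3 + 5 / 4 * b4 - c1 - 2 * c2 - 3 * c3 + c4 - yc
  f62 :
    t < 1 / 2 * a0 + 1 / 2 * a1 + 1 / 2 * a2 + 1 / 2 * a3 + 1 / 2 * a4 + b1 + b2 + b3 + b4 + 1
    / 2 * c0 + 1 / 2 * c1 + 1 / 2 * c2 + 1 / 2 * c3 + 1 / 2 * c4 ∨ t < 1 / 2 * a0 + 1 / 2 * a1
    + 1 / 2 * a2 + 1 / 2 * a3 + 1 / 2 * a4 - 1 / 2 * b2 - b3 + b4 + 5 / 4 * c0 + 5 / 4 * c1 + 5
    / 4 * c2 + 5 / 4 * c3 + 5 / 4 * c4 - 1 / 2 * yb ∨ t < 5 / 4 * a0 + 5 / 4 * a1 + 5 / 4 * a2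
    + 5 / 4 * a3 + 5 / 4 * a4 - 1 / 2 * b2 - b3 + b4 + 1 / 2 * c0 + 1 / 2 * c1 + 1 / 2 * c2 + 1
    / 2 * c3 + 1 / 2 * c4 - 1 / 2 * yb ∨ t < 5 / 4 * a0 + 5 / 4 * a1 + 5 / 4 * a2 + 5 / 4 * a3
    + 5 / 4 * a4 - b1 - 2 * b2 - 3 * b3 + b4 + 5 / 4 * c0 + 5 / 4 * c1 + 5 / 4 * c2 + 5 / 4 *
    c3 + 5 / 4 * c4 - yb
  f63 :
    t < a1 + a2 + a3 + a4 + b0 + b2 + b4 + c0 + c1 + c2 + c4 ∨ t < a0 + a1 + a2 + a3 + a4 + b0
    + b1 + b2 + 2 * b3 + b4 + c0 + c1 + c2 + 2 * c3 + c4 - 1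
  f64 :
    t < a2 + a3 + a4 + b0 + b2 + b3 + b4 + c0 + c2 + c4 ∨ t < a0 + 2 * a1 + a2 + a3 + a4 + b0 +
    b1 + b2 + b3 + b4 + c0 + c1 + c2 + 2 * c3 + c4 - 1
  f65 :
    t < 1 / 2 * a0 + 1 / 2 * a1 + 1 / 2 * a2 + 1 / 2 * a3 + 1 / 2 * a4 + 1 / 2 * b0 + 1 / 2 *
    b1 + 1 / 2 * b2 + 1 / 2 * b3 + 1 / 2 * b4 + c1 + c2 + c3 + c4 ∨ t < 5 / 4 * a0 + 5 / 4 * a1
    + 5 / 4 * a2 + 5 / 4 * a3 + 5 / 4 * a4 + 1 / 2 * b0 + 1 / 2 * b1 + 1 / 2 * b2 + 1 / 2 * b3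
    + 1 / 2 * b4 - 1 / 2 * c2 - c3 + c4 - 1 / 2 * yc ∨ t < 1 / 2 * a0 + 1 / 2 * a1 + 1 / 2 * a2
    + 1 / 2 * a3 + 1 / 2 * a4 + 5 / 4 * b0 + 5 / 4 * b1 + 5 / 4 * b2 + 5 / 4 * b3 + 5 / 4 * b4
    - 1 / 2 * c2 - c3 + c4 - 1 / 2 * yc ∨ t < 5 / 4 * a0 + 5 / 4 * a1 + 5 / 4 * a2 + 5 / 4 * a3
    + 5 / 4 * a4 + 5 / 4 * b0 + 5 / 4 * b1 + 5 / 4 * b2 + 5 / 4 * b3 + 5 / 4 * b4 - c1 - 2 * c2
    - 3 * c3 + c4 - yc
  f66 :
    t < a0 + a1 + a2 + a3 + a4 + c0 + c1 + c2 + c4 ∨ t < 1 / 2 * a0 + 1 / 2 * a1 + 1 / 2 * a2 +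
    1 / 2 * a3 + 1 / 2 * a4 + b0 + b1 + b2 + b3 + b4 + 1 / 2 * c0 + 1 / 2 * c1 + 1 / 2 * c2 + 1
    / 2 * c4
  f67 :
    t < a3 + a4 + 1 / 2 * b0 + 1 / 2 * b1 + 1 / 2 * b2 + 1 / 2 * b3 + 1 / 2 * b4 + 1 / 2 * c0 +
    1 / 2 * c1 + 1 / 2 * c2 + 1 / 2 * c3 + 1 / 2 * c4 ∨ t < -a3 + a4 + 5 / 4 * b0 + 5 / 4 * b1
    + 5 / 4 * b2 + 5 / 4 * b3 + 5 / 4 * b4 + 1 / 2 * c0 + 1 / 2 * c1 + 1 / 2 * c2 + 1 / 2 * c3
    + 1 / 2 * c4 - 1 / 2 * ya ∨ t < -a3 + a4 + 1 / 2 * b0 + 1 / 2 * b1 + 1 / 2 * b2 + 1 / 2 *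
    b3 + 1 / 2 * b4 + 5 / 4 * c0 + 5 / 4 * c1 + 5 / 4 * c2 + 5 / 4 * c3 + 5 / 4 * c4 - 1 / 2 *
    ya ∨ t < -3 * a3 + a4 + 5 / 4 * b0 + 5 / 4 * b1 + 5 / 4 * b2 + 5 / 4 * b3 + 5 / 4 * b4 + 5
    / 4 * c0 + 5 / 4 * c1 + 5 / 4 * c2 + 5 / 4 * c3 + 5 / 4 * c4 - ya
  f68 :
    t < a3 + a4 + b0 + b1 + b2 + b3 + b4 + c0 + c1 + c2 + c4 ∨ t < a0 + 2 * a1 + 3 * a2 + a3 +
    a4 + b0 + b1 + b2 + b3 + b4 + c0 + c1 + c2 + c3 + c4 - 1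
  f69 :
    t < a0 + a2 + a3 + a4 + b0 + b1 + b2 + b3 + b4 ∨ t < 1 / 2 * a0 + 1 / 2 * a2 + 1 / 2 * a3 +
    1 / 2 * a4 + 1 / 2 * b0 + 1 / 2 * b1 + 1 / 2 * b2 + 1 / 2 * b3 + 1 / 2 * b4 + c0 + c1 + c2
    + c3 + c4
  f70 :
    t < a2 + a3 + a4 + b0 + b1 + b3 + b4 + c0 + c1 + c2 + c3 + c4 ∨ t < a0 + 2 * a1 + a2 + a3 +
    a4 + b0 + b1 + b2 + b3 + b4 + c0 + c1 + c2 + c3 + c4 - 1
  f71 :
    t < 1 / 2 * a0 + 1 / 2 * a1 + 1 / 2 * a2 + 1 / 2 * a3 + 1 / 2 * a4 + 1 / 2 * b0 + 1 / 2 *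
    b1 + 1 / 2 * b2 + 1 / 2 * b3 + 1 / 2 * b4 + c3 ∨ t < 5 / 4 * a0 + 5 / 4 * a1 + 5 / 4 * a2 +
    5 / 4 * a3 + 5 / 4 * a4 + 1 / 2 * b0 + 1 / 2 * b1 + 1 / 2 * b2 + 1 / 2 * b3 + 1 / 2 * b4 -
    c3 ∨ t < 1 / 2 * a0 + 1 / 2 * a1 + 1 / 2 * a2 + 1 / 2 * a3 + 1 / 2 * a4 + 5 / 4 * b0 + 5 /
    4 * b1 + 5 / 4 * b2 + 5 / 4 * b3 + 5 / 4 * b4 - c3 ∨ t < 5 / 4 * a0 + 5 / 4 * a1 + 5 / 4 *
    a2 + 5 / 4 * a3 + 5 / 4 * a4 + 5 / 4 * b0 + 5 / 4 * b1 + 5 / 4 * b2 + 5 / 4 * b3 + 5 / 4 *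
    b4 - 3 * c3
  f72 :
    t < a0 + a1 + a2 + a3 + a4 + b1 + b2 + b4 + c0 + c1 + c2 + c4 ∨ t < a0 + a1 + a2 + a3 + a4
    - b1 - 2 * b2 + b4 + c0 + c1 + c2 + c3 + c4 - yb
  f73 :
    t < a0 + a1 + a3 + a4 + b0 + b1 + b3 + b4 + c0 + c1 + c2 + c4 ∨ t < a0 + a1 + a2 + a3 + a4
    + b0 + b1 + b2 + b3 + b4 - c1 - 2 * c2 + c4 - yc
  f74 :
    t < a1 + a3 + a4 + b0 + b1 + b2 + b4 + c0 + c1 + c2 + c4 ∨ t < a0 + a1 + 3 * a2 + a3 + a4 +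
    b0 + b1 + b2 + b3 + b4 + c0 + c1 + c2 + c3 + c4 - 1
  f75 :
    t < a2 + a4 + b0 + b1 + b3 + b4 + c0 + c1 + c3 + c4 ∨ t < a0 + 2 * a1 + a2 + 4 * a3 + a4 +
    b0 + b1 + b2 + b3 + b4 + c0 + c1 + c2 + c3 + c4 - 1
  f76 :
    t < a0 + a1 + a3 + a4 + b0 + b1 + b3 + b4 + c1 + c2 + c4 ∨ t < a0 + a1 + a2 + a3 + a4 + b0
    + b1 + b2 + b3 + b4 - c1 - 2 * c2 + c4 - yc
  f77 :
    t < a3 + a4 + b0 + b1 + b2 + b4 + c0 + c1 + c2 + c4 ∨ t < a0 + 2 * a1 + 3 * a2 + a3 + a4 +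
    b0 + b1 + b2 + b3 + b4 + c0 + c1 + c2 + c3 + c4 - 1
  f78 :
    t < a0 + a1 + a3 + a4 + b1 + b2 + b4 + c0 + c1 + c3 + c4 ∨ t < a0 + a1 + a2 + a3 + a4 - b1
    - 2 * b2 + b4 + c0 + c1 + c2 + c3 + c4 - yb
  f79 :
    t < a2 + a3 + a4 + b0 + b2 + b4 + c0 + c2 + c4 ∨ t < a0 + 2 * a1 + a2 + a3 + a4 + b0 + b1 +
    b2 + 2 * b3 + b4 + c0 + c1 + c2 + 2 * c3 + c4 - 1
  f80 :
    t < a0 + a1 + a3 + a4 + b0 + b1 + b3 + b4 + c1 + c2 + c3 ∨ t < a0 + a1 + a2 + a3 + a4 + b0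
    + b1 + b2 + b3 + b4 - c1 - 2 * c2 - 3 * c3
  f81 :
    t < a0 + a1 + a3 + a4 + b3 + b4 + c0 + c1 + c3 + c4 ∨ t < a0 + a1 + a2 + a3 + a4 - 3 * b3 +
    b4 + c0 + c1 + c2 + c3 + c4 - yb
  f82 :
    t < a0 + a2 + a3 + a4 + b2 + b4 + c0 + c1 + c2 + c4 ∨ t < a0 + a1 + a2 + a3 + a4 - 2 * b2 +
    b4 + c0 + c1 + c2 + 2 * c3 + c4 - yb
  f83 :
    t < a0 + a1 + a2 + a3 + a4 + b4 + c0 + c1 + c2 + c4 ∨ t < a0 + a1 + a2 + a3 + a4 + b4 + c0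
    + c1 + c2 + c3 + c4 - yb
  f84 :
    t < a1 + a2 + a3 + a4 + b0 + b3 + b4 + c1 + c2 + c3 + c4 ∨ t < a0 + a1 + a2 + a3 + a4 + b0
    + 2 * b1 + 3 * b2 + b3 + b4 + c0 + c1 + c2 + c3 + c4 - 1
  f85 :
    t < a1 + a2 + a3 + a4 + b0 + b2 + b3 + b4 + c0 + c1 + c2 + c4 ∨ t < a0 + a1 + a2 + a3 + a4
    + b0 + b1 + b2 + b3 + b4 + c0 + c1 + c2 + 2 * c3 + c4 - 1
  f86 :
    t < a0 + a1 + a2 + a3 + a4 + b0 + b1 + b3 + b4 + c2 + c3 + c4 ∨ t < a0 + a1 + a2 + a3 + a4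
    + b0 + b1 + b2 + b3 + b4 - 2 * c2 - 3 * c3 + c4 - yc
  f87 :
    t < a2 + a3 + a4 + b0 + b1 + b3 + b4 + c0 + c1 + c3 + c4 ∨ t < a0 + 2 * a1 + a2 + a3 + a4 +
    b0 + b1 + b2 + b3 + b4 + c0 + c1 + c2 + c3 + c4 - 1
  f88 :
    t < a0 + a1 + a2 + a4 + b1 + b2 + b3 + b4 + c0 + c2 + c4 ∨ t < a0 + a1 + a2 + 2 * a3 + a4 -
    b1 - 2 * b2 - 3 * b3 + b4 + c0 + c1 + c2 + 2 * c3 + c4 - yb
  f89 :
    t < a0 + a1 + a3 + a4 + b0 + b1 + b3 + b4 + c0 + c3 ∨ t < a0 + a1 + a2 + a3 + a4 + b0 + b1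
    + b2 + b3 + b4 - 3 * c3
  f90 :
    t < a0 + a1 + a2 + a3 + a4 + b1 + b3 + b4 + c0 + c1 + c2 + c4 ∨ t < a0 + a1 + a2 + a3 + a4
    - b1 - 3 * b3 + b4 + c0 + c1 + c2 + c3 + c4 - yb
  f91 :
    t < a0 + a1 + a3 + a4 + b1 + b3 + b4 + c0 + c1 + c3 + c4 ∨ t < a0 + a1 + a2 + a3 + a4 - b1
    - 3 * b3 + b4 + c0 + c1 + c2 + c3 + c4 - yb
  f92 :
    t < a0 + a2 + a3 + a4 + b0 + b1 + b2 + b4 + c0 + c1 + c2 + c4 ∨ t < a0 + 2 * a1 + a2 + a3 +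
    a4 + b0 + b1 + b2 + b3 + b4 + c0 + c1 + c2 + c3 + c4 - 1
  f93 :
    t < a2 + a3 + a4 + b0 + b2 + b4 + c0 + c1 + c2 + c4 ∨ t < a0 + 2 * a1 + a2 + a3 + a4 + b0 +
    b1 + b2 + 2 * b3 + b4 + c0 + c1 + c2 + 2 * c3 + c4 - 1
  f94 :
    t < a1 + a3 + a4 + b0 + b1 + b3 + b4 + c0 + c1 + c2 + c3 + c4 ∨ t < a0 + a1 + 3 * a2 + a3 +
    a4 + b0 + b1 + b2 + b3 + b4 + c0 + c1 + c2 + c3 + c4 - 1
  f95 :
    t < a0 + a2 + a3 + a4 + b0 + b2 + b4 + c1 + c2 + c3 ∨ t < a0 + a1 + a2 + a3 + a4 + b0 + b1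
    + b2 + 2 * b3 + b4 - c1 - 2 * c2 - 3 * c3
  f96 :
    t < a0 + a1 + a3 + a4 + b0 + b1 + b2 + b3 + b4 + c1 + c2 + c4 ∨ t < a0 + a1 + a2 + a3 + a4
    + b0 + b1 + b2 + b3 + b4 - c1 - 2 * c2 + c4 - yc
  f97 :
    t < a0 + a3 + a4 + b0 + b1 + b2 + b4 + c0 + c1 + c2 + c4 ∨ t < a0 + 2 * a1 + 3 * a2 + a3 +
    a4 + b0 + b1 + b2 + b3 + b4 + c0 + c1 + c2 + c3 + c4 - 1
  f98 :
    t < a0 + a1 + a2 + a3 + a4 + b0 + b2 + b3 + b4 ∨ t < 1 / 2 * a0 + 1 / 2 * a1 + 1 / 2 * a2 +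
    1 / 2 * a3 + 1 / 2 * a4 + 1 / 2 * b0 + 1 / 2 * b2 + 1 / 2 * b3 + 1 / 2 * b4 + c0 + c1 + c2
    + c3 + c4
  f99 :
    t < a0 + a1 + a2 + a3 + a4 + b0 + b2 + b3 + b4 + c1 + c3 + c4 ∨ t < a0 + a1 + a2 + a3 + a4
    + b0 + b1 + b2 + b3 + b4 - c1 - 3 * c3 + c4 - yc
  f100 :
    t < a0 + a1 + a2 + a3 + a4 + b0 + b2 + b3 + b4 + c0 + c2 + c4 ∨ t < a0 + a1 + a2 + a3 + a4
    + b0 + b1 + b2 + b3 + b4 + c0 + c1 + c2 + 2 * c3 + c4 - 1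
  f101 :
    t < a0 + a1 + a2 + a3 + a4 + b3 + b4 + c1 + c2 + c3 + c4 ∨ t < a0 + a1 + a2 + a3 + a4 + b0
    + 2 * b1 + 3 * b2 + b3 + b4 + c0 + c1 + c2 + c3 + c4 - 1
  f102 :
    t < a0 + a2 + a3 + a4 + b0 + b2 + b4 + c1 + c2 + c3 + c4 ∨ t < a0 + a1 + a2 + a3 + a4 + b0
    + b1 + b2 + 2 * b3 + b4 - c1 - 2 * c2 - 3 * c3 + c4 - yc
  f103 :
    t < a0 + a2 + a3 + a4 + b0 + b1 + b2 + b3 + b4 + c0 + c2 + c4 ∨ t < a0 + a1 + a2 + a3 + a4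
    - b1 - 2 * b2 - 3 * b3 + b4 + c0 + c1 + c2 + 2 * c3 + c4 - yb
  f104 :
    t < a0 + a1 + a3 + a4 + b0 + b1 + b3 + b4 + c0 + c2 + c3 + c4 ∨ t < a0 + a1 + a2 + a3 + a4
    + b0 + b1 + b2 + b3 + b4 - 2 * c2 - 3 * c3 + c4 - yc
  f105 :
    t < 1 / 2 * a0 + 1 / 2 * a1 + 1 / 2 * a2 + 1 / 2 * a3 + 1 / 2 * a4 + 1 / 2 * b0 + 1 / 2 *
    b1 + 1 / 2 * b2 + 1 / 2 * b3 + 1 / 2 * b4 + c0 + c1 + c3 + c4 ∨ t < 5 / 4 * a0 + 5 / 4 * a1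
    + 5 / 4 * a2 + 5 / 4 * a3 + 5 / 4 * a4 + 1 / 2 * b0 + 1 / 2 * b1 + 1 / 2 * b2 + 1 / 2 * b3
    + 1 / 2 * b4 + 1 / 2 * c0 - c3 + c4 - 1 / 2 * yc ∨ t < 1 / 2 * a0 + 1 / 2 * a1 + 1 / 2 * a2
    + 1 / 2 * a3 + 1 / 2 * a4 + 5 / 4 * b0 + 5 / 4 * b1 + 5 / 4 * b2 + 5 / 4 * b3 + 5 / 4 * b4
    + 1 / 2 * c0 - c3 + c4 - 1 / 2 * yc ∨ t < 5 / 4 * a0 + 5 / 4 * a1 + 5 / 4 * a2 + 5 / 4 * a3
    + 5 / 4 * a4 + 5 / 4 * b0 + 5 / 4 * b1 + 5 / 4 * b2 + 5 / 4 * b3 + 5 / 4 * b4 - c1 - 3 * c3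
    + c4 - yc
  f106 :
    t < a0 + a1 + a3 + a4 + b0 + b1 + b3 + b4 + c1 + c3 ∨ t < a0 + a1 + a2 + a3 + a4 + b0 + b1
    + b2 + b3 + b4 - c1 - 3 * c3
  f107 :
    t < 1 / 2 * a0 + 1 / 2 * a1 + 1 / 2 * a2 + 1 / 2 * a3 + 1 / 2 * a4 + 1 / 2 * b0 + 1 / 2 *
    b1 + 1 / 2 * b2 + 1 / 2 * b3 + 1 / 2 * b4 + c0 + c3 + c4 ∨ t < 5 / 4 * a0 + 5 / 4 * a1 + 5
    / 4 * a2 + 5 / 4 * a3 + 5 / 4 * a4 + 1 / 2 * b0 + 1 / 2 * b1 + 1 / 2 * b2 + 1 / 2 * b3 + 1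
    / 2 * b4 + 1 / 2 * c0 - c3 + c4 - 1 / 2 * yc ∨ t < 1 / 2 * a0 + 1 / 2 * a1 + 1 / 2 * a2 + 1
    / 2 * a3 + 1 / 2 * a4 + 5 / 4 * b0 + 5 / 4 * b1 + 5 / 4 * b2 + 5 / 4 * b3 + 5 / 4 * b4 + 1
    / 2 * c0 - c3 + c4 - 1 / 2 * yc ∨ t < 5 / 4 * a0 + 5 / 4 * a1 + 5 / 4 * a2 + 5 / 4 * a3 + 5
    / 4 * a4 + 5 / 4 * b0 + 5 / 4 * b1 + 5 / 4 * b2 + 5 / 4 * b3 + 5 / 4 * b4 - 3 * c3 + c4 -
    yc
  f108 :
    t < a0 + a1 + a2 + a4 + b1 + b3 + c0 + c1 + c2 + c4 ∨ t < a0 + a1 + a2 + a3 + a4 - b1 - 3 *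
    b3 + c0 + c1 + c2 + c3 + c4
  f109 :
    t < a1 + a2 + a3 + a4 + b1 + b3 + b4 + c0 + c1 + c2 + c3 + c4 ∨ t < a0 + a1 + a2 + a3 + a4
    + b0 + b1 + 3 * b2 + b3 + b4 + c0 + c1 + c2 + c3 + c4 - 1
  f110 :
    t < a2 + a3 + a4 + b0 + b1 + b2 + b3 + b4 + c0 + c1 + c2 + c4 ∨ t < a0 + 2 * a1 + a2 + a3 +
    a4 + b0 + b1 + b2 + b3 + b4 + c0 + c1 + c2 + c3 + c4 - 1
  f111 :
    t < a0 + a1 + a2 + a3 + a4 + b2 + b3 + b4 + c1 + c2 + c3 + c4 ∨ t < a0 + a1 + a2 + a3 + a4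
    + b0 + 2 * b1 + b2 + b3 + b4 + c0 + c1 + c2 + c3 + c4 - 1

theorem bd0 {v w : Fin 3 → Fin 5 → ℝ} {t : ℝ} (h : Fail v w t) (hw : Wt v w) :
    t < 1 / 2 * v 0 0 + 1 / 2 * v 0 1 + 1 / 2 * v 0 2 + 1 / 2 * v 0 3 + 1 / 2 * v 0 4 + 1 / 2 *
    v 1 0 + 1 / 2 * v 1 1 + 1 / 2 * v 1 2 + 1 / 2 * v 1 3 + 1 / 2 * v 1 4 + v 2 0 + v 2 1 + v 2
    2 + v 2 4 ∨ t < 5 / 4 * v 0 0 + 5 / 4 * v 0 1 + 5 / 4 * v 0 2 + 5 / 4 * v 0 3 + 5 / 4 * v 0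
    4 + 1 / 2 * v 1 0 + 1 / 2 * v 1 1 + 1 / 2 * v 1 2 + 1 / 2 * v 1 3 + 1 / 2 * v 1 4 + 1 / 2 *
    v 2 0 - 1 / 2 * v 2 2 + v 2 4 - 1 / 2 * w 2 4 ∨ t < 1 / 2 * v 0 0 + 1 / 2 * v 0 1 + 1 / 2 *
    v 0 2 + 1 / 2 * v 0 3 + 1 / 2 * v 0 4 + 5 / 4 * v 1 0 + 5 / 4 * v 1 1 + 5 / 4 * v 1 2 + 5 /
    4 * v 1 3 + 5 / 4 * v 1 4 + 1 / 2 * v 2 0 - 1 / 2 * v 2 2 + v 2 4 - 1 / 2 * w 2 4 ∨ t < 5 /
    4 * v 0 0 + 5 / 4 * v 0 1 + 5 / 4 * v 0 2 + 5 / 4 * v 0 3 + 5 / 4 * v 0 4 + 5 / 4 * v 1 0 +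
    5 / 4 * v 1 1 + 5 / 4 * v 1 2 + 5 / 4 * v 1 3 + 5 / 4 * v 1 4 - v 2 1 - 2 * v 2 2 + v 2 4 -
    w 2 4 := by
  have h1 := h.S 0 1 2 (by decide) (by decide) (by decide) (ms true true true false true)
  simp only [cost_ms, cost_univ, hw.w0, hw.w1, hw.w2, hw.w3, cond_true, cond_false] at h1
  have h2 := max2s _ _ _ _ _ _ h1
  rcases h2 with h1 | h1 | h1 | h1
  · left; linarith only [h1]
  · right; left; linarith only [h1]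
  · right; right; left; linarith only [h1]
  · right; right; right; linarith only [h1]

theorem bd1 {v w : Fin 3 → Fin 5 → ℝ} {t : ℝ} (h : Fail v w t) (hw : Wt v w) :
    t < v 0 0 + v 0 1 + v 0 2 + v 0 3 + v 0 4 + v 1 1 + v 1 2 + v 1 3 + v 1 4 + v 2 0 + v 2 1 +
    v 2 3 + v 2 4 ∨ t < v 0 0 + v 0 1 + v 0 2 + v 0 3 + v 0 4 - v 1 1 - 2 * v 1 2 - 3 * v 1 3 +
    v 1 4 + v 2 0 + v 2 1 + v 2 2 + v 2 3 + v 2 4 - w 1 4 := by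
  have h1 := h.M 2 0 1 (by decide) (by decide) (by decide) 3 (by norm_num) (by norm_num)
    (ms false false true false false) (ms false false false false false)
    (ms false true true true true) (good_ms _ _ _ _ _ _ (by decide))
    (good_ms _ _ _ _ _ _ (by decide))
  simp only [cost_ms_compl, cost_ms, cost_univ, thn, hw.w0, hw.w1, hw.w2, hw.w3, cond_true,
    cond_false, if_true, Nat.cast_ofNat, Nat.cast_one, div_one] at h1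
  rw [if_neg (by decide)] at h1
  rcases h1 with h1 | h1
  · left; linarith only [h1]
  · right; linarith only [h1]

theorem bd2 {v w : Fin 3 → Fin 5 → ℝ} {t : ℝ} (h : Fail v w t) (hw : Wt v w) :
    t < v 0 0 + v 0 1 + v 0 2 + v 0 3 + v 0 4 + v 1 0 + v 1 2 + v 1 3 + v 1 4 + v 2 1 + v 2 2 +
    v 2 3 + v 2 4 ∨ t < v 0 0 + v 0 1 + v 0 2 + v 0 3 + v 0 4 + v 1 0 + v 1 1 + v 1 2 + v 1 3 +
    v 1 4 - v 2 1 - 2 * v 2 2 - 3 * v 2 3 + v 2 4 - w 2 4 := by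
  have h1 := h.M 0 1 2 (by decide) (by decide) (by decide) 2 (by norm_num) (by norm_num)
    (ms false false false false false) (ms false true false false false)
    (ms false true true true true) (good_ms _ _ _ _ _ _ (by decide))
    (good_ms _ _ _ _ _ _ (by decide))
  simp only [cost_ms_compl, cost_ms, cost_univ, thn, hw.w0, hw.w1, hw.w2, hw.w3, cond_true,
    cond_false, if_true, Nat.cast_ofNat, Nat.cast_one, div_one] at h1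
  rw [if_neg (by decide)] at h1
  rcases h1 with h1 | h1
  · left; linarith only [h1]
  · right; linarith only [h1]

theorem bd3 {v w : Fin 3 → Fin 5 → ℝ} {t : ℝ} (h : Fail v w t) (hw : Wt v w) :
    t < v 0 0 + v 0 1 + v 0 2 + v 0 3 + v 0 4 + v 1 1 + v 1 2 + v 1 3 + v 1 4 + v 2 2 + v 2 3 +
    v 2 4 ∨ t < v 0 0 + v 0 1 + v 0 2 + v 0 3 + v 0 4 + v 1 0 + v 1 1 + v 1 2 + v 1 3 + v 1 4 +
    v 2 0 + 2 * v 2 1 + v 2 2 + v 2 3 + v 2 4 - 1 := by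
  have h1 := h.M 1 2 0 (by decide) (by decide) (by decide) 1 (by norm_num) (by norm_num)
    (ms true false false false false) (ms true true false false false)
    (ms true true true true true) (good_ms _ _ _ _ _ _ (by decide))
    (good_ms _ _ _ _ _ _ (by decide))
  simp only [cost_ms_compl, cost_ms, cost_univ, thn, hw.w0, hw.w1, hw.w2, hw.w3, cond_true,
    cond_false, if_true, Nat.cast_ofNat, Nat.cast_one, div_one] at h1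
  rcases h1 with h1 | h1
  · left; linarith only [h1]
  · right; linarith only [h1]

theorem bd4 {v w : Fin 3 → Fin 5 → ℝ} {t : ℝ} (h : Fail v w t) (hw : Wt v w) :
    t < v 0 1 + v 0 2 + v 0 3 + v 0 4 + v 1 0 + v 1 1 + v 1 3 + v 1 4 + v 2 0 + v 2 1 + v 2 3 +
    v 2 4 ∨ t < v 0 0 + v 0 1 + v 0 2 + v 0 3 + v 0 4 + v 1 0 + v 1 1 + v 1 2 + v 1 3 + v 1 4 +
    v 2 0 + v 2 1 + v 2 2 + v 2 3 + v 2 4 - 1 := by
  have h1 := h.M 1 2 0 (by decide) (by decide) (by decide) 3 (by norm_num) (by norm_num)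
    (ms false false true false false) (ms false false true false false)
    (ms false true true true true) (good_ms _ _ _ _ _ _ (by decide))
    (good_ms _ _ _ _ _ _ (by decide))
  simp only [cost_ms_compl, cost_ms, cost_univ, thn, hw.w0, hw.w1, hw.w2, hw.w3, cond_true,
    cond_false, if_true, Nat.cast_ofNat, Nat.cast_one, div_one] at h1
  rcases h1 with h1 | h1
  · left; linarith only [h1]
  · right; linarith only [h1]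

theorem bd5 {v w : Fin 3 → Fin 5 → ℝ} {t : ℝ} (h : Fail v w t) (hw : Wt v w) :
    t < v 0 0 + v 0 2 + v 0 3 + v 0 4 + v 1 0 + v 1 2 + v 1 4 + v 2 2 + v 2 3 + v 2 4 ∨ t < v 0
    0 + v 0 1 + v 0 2 + v 0 3 + v 0 4 + v 1 0 + v 1 1 + v 1 2 + 2 * v 1 3 + v 1 4 - 2 * v 2 2 -
    3 * v 2 3 + v 2 4 - w 2 4 := by
  have h1 := h.M 0 1 2 (by decide) (by decide) (by decide) 2 (by norm_num) (by norm_num)
    (ms false true false false false) (ms false true false true false)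
    (ms false false true true true) (good_ms _ _ _ _ _ _ (by decide))
    (good_ms _ _ _ _ _ _ (by decide))
  simp only [cost_ms_compl, cost_ms, cost_univ, thn, hw.w0, hw.w1, hw.w2, hw.w3, cond_true,
    cond_false, if_true, Nat.cast_ofNat, Nat.cast_one, div_one] at h1
  rw [if_neg (by decide)] at h1
  rcases h1 with h1 | h1
  · left; linarith only [h1]
  · right; linarith only [h1]

theorem bd6 {v w : Fin 3 → Fin 5 → ℝ} {t : ℝ} (h : Fail v w t) (hw : Wt v w) :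
    t < 1 / 2 * v 0 0 + 1 / 2 * v 0 1 + 1 / 2 * v 0 2 + 1 / 2 * v 0 3 + 1 / 2 * v 0 4 + v 1 2 +
    v 1 3 + v 1 4 + 1 / 2 * v 2 0 + 1 / 2 * v 2 1 + 1 / 2 * v 2 2 + 1 / 2 * v 2 3 + 1 / 2 * v 2
    4 ∨ t < 1 / 2 * v 0 0 + 1 / 2 * v 0 1 + 1 / 2 * v 0 2 + 1 / 2 * v 0 3 + 1 / 2 * v 0 4 - 1 /
    2 * v 1 2 - v 1 3 + v 1 4 + 5 / 4 * v 2 0 + 5 / 4 * v 2 1 + 5 / 4 * v 2 2 + 5 / 4 * v 2 3 +
    5 / 4 * v 2 4 - 1 / 2 * w 1 4 ∨ t < 5 / 4 * v 0 0 + 5 / 4 * v 0 1 + 5 / 4 * v 0 2 + 5 / 4 *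
    v 0 3 + 5 / 4 * v 0 4 - 1 / 2 * v 1 2 - v 1 3 + v 1 4 + 1 / 2 * v 2 0 + 1 / 2 * v 2 1 + 1 /
    2 * v 2 2 + 1 / 2 * v 2 3 + 1 / 2 * v 2 4 - 1 / 2 * w 1 4 ∨ t < 5 / 4 * v 0 0 + 5 / 4 * v 0
    1 + 5 / 4 * v 0 2 + 5 / 4 * v 0 3 + 5 / 4 * v 0 4 - 2 * v 1 2 - 3 * v 1 3 + v 1 4 + 5 / 4 *
    v 2 0 + 5 / 4 * v 2 1 + 5 / 4 * v 2 2 + 5 / 4 * v 2 3 + 5 / 4 * v 2 4 - w 1 4 := by
  have h1 := h.S 2 0 1 (by decide) (by decide) (by decide) (ms false false true true true)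
  simp only [cost_ms, cost_univ, hw.w0, hw.w1, hw.w2, hw.w3, cond_true, cond_false] at h1
  have h2 := max2s _ _ _ _ _ _ h1
  rcases h2 with h1 | h1 | h1 | h1
  · left; linarith only [h1]
  · right; left; linarith only [h1]
  · right; right; left; linarith only [h1]
  · right; right; right; linarith only [h1]

theorem bd7 {v w : Fin 3 → Fin 5 → ℝ} {t : ℝ} (h : Fail v w t) (hw : Wt v w) :
    t < v 0 0 + v 0 1 + v 0 3 + v 0 4 + v 1 0 + v 1 1 + v 1 3 + v 1 4 + v 2 0 + v 2 1 + v 2 2 +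
    v 2 3 + v 2 4 ∨ t < v 0 0 + v 0 1 + v 0 2 + v 0 3 + v 0 4 + v 1 0 + v 1 1 + v 1 2 + v 1 3 +
    v 1 4 - v 2 1 - 2 * v 2 2 - 3 * v 2 3 + v 2 4 - w 2 4 := by
  have h1 := h.M 0 1 2 (by decide) (by decide) (by decide) 3 (by norm_num) (by norm_num)
    (ms false false true false false) (ms false false true false false)
    (ms true true true true true) (good_ms _ _ _ _ _ _ (by decide))
    (good_ms _ _ _ _ _ _ (by decide))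
  simp only [cost_ms_compl, cost_ms, cost_univ, thn, hw.w0, hw.w1, hw.w2, hw.w3, cond_true,
    cond_false, if_true, Nat.cast_ofNat, Nat.cast_one, div_one] at h1
  rw [if_neg (by decide)] at h1
  rcases h1 with h1 | h1
  · left; linarith only [h1]
  · right; linarith only [h1]

theorem bd8 {v w : Fin 3 → Fin 5 → ℝ} {t : ℝ} (h : Fail v w t) (hw : Wt v w) :
    t < v 0 0 + v 0 1 + v 0 2 + v 0 3 + v 0 4 + v 1 0 + v 1 1 + v 1 3 + v 1 4 + v 2 0 + v 2 2 +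
    v 2 3 + v 2 4 ∨ t < v 0 0 + v 0 1 + v 0 2 + v 0 3 + v 0 4 + v 1 0 + v 1 1 + v 1 2 + v 1 3 +
    v 1 4 - 2 * v 2 2 - 3 * v 2 3 + v 2 4 - w 2 4 := by
  have h1 := h.M 0 1 2 (by decide) (by decide) (by decide) 3 (by norm_num) (by norm_num)
    (ms false false false false false) (ms false false true false false)
    (ms true false true true true) (good_ms _ _ _ _ _ _ (by decide))
    (good_ms _ _ _ _ _ _ (by decide))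
  simp only [cost_ms_compl, cost_ms, cost_univ, thn, hw.w0, hw.w1, hw.w2, hw.w3, cond_true,
    cond_false, if_true, Nat.cast_ofNat, Nat.cast_one, div_one] at h1
  rw [if_neg (by decide)] at h1
  rcases h1 with h1 | h1
  · left; linarith only [h1]
  · right; linarith only [h1]

theorem bd9 {v w : Fin 3 → Fin 5 → ℝ} {t : ℝ} (h : Fail v w t) (hw : Wt v w) :
    t < 1 / 2 * v 0 0 + 1 / 2 * v 0 1 + 1 / 2 * v 0 2 + 1 / 2 * v 0 3 + 1 / 2 * v 0 4 + 1 / 2 *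
    v 1 0 + 1 / 2 * v 1 1 + 1 / 2 * v 1 2 + 1 / 2 * v 1 3 + 1 / 2 * v 1 4 + v 2 2 + v 2 3 + v 2
    4 ∨ t < 5 / 4 * v 0 0 + 5 / 4 * v 0 1 + 5 / 4 * v 0 2 + 5 / 4 * v 0 3 + 5 / 4 * v 0 4 + 1 /
    2 * v 1 0 + 1 / 2 * v 1 1 + 1 / 2 * v 1 2 + 1 / 2 * v 1 3 + 1 / 2 * v 1 4 - 1 / 2 * v 2 2 -
    v 2 3 + v 2 4 - 1 / 2 * w 2 4 ∨ t < 1 / 2 * v 0 0 + 1 / 2 * v 0 1 + 1 / 2 * v 0 2 + 1 / 2 *
    v 0 3 + 1 / 2 * v 0 4 + 5 / 4 * v 1 0 + 5 / 4 * v 1 1 + 5 / 4 * v 1 2 + 5 / 4 * v 1 3 + 5 /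
    4 * v 1 4 - 1 / 2 * v 2 2 - v 2 3 + v 2 4 - 1 / 2 * w 2 4 ∨ t < 5 / 4 * v 0 0 + 5 / 4 * v 0
    1 + 5 / 4 * v 0 2 + 5 / 4 * v 0 3 + 5 / 4 * v 0 4 + 5 / 4 * v 1 0 + 5 / 4 * v 1 1 + 5 / 4 *
    v 1 2 + 5 / 4 * v 1 3 + 5 / 4 * v 1 4 - 2 * v 2 2 - 3 * v 2 3 + v 2 4 - w 2 4 := by
  have h1 := h.S 0 1 2 (by decide) (by decide) (by decide) (ms false false true true true)
  simp only [cost_ms, cost_univ, hw.w0, hw.w1, hw.w2, hw.w3, cond_true, cond_false] at h1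
  have h2 := max2s _ _ _ _ _ _ h1
  rcases h2 with h1 | h1 | h1 | h1
  · left; linarith only [h1]
  · right; left; linarith only [h1]
  · right; right; left; linarith only [h1]
  · right; right; right; linarith only [h1]

theorem bd10 {v w : Fin 3 → Fin 5 → ℝ} {t : ℝ} (h : Fail v w t) (hw : Wt v w) :
    t < v 0 0 + v 0 1 + v 0 3 + v 0 4 + v 1 0 + v 1 1 + v 1 3 + v 1 4 + v 2 0 + v 2 1 + v 2 3 +
    v 2 4 ∨ t < v 0 0 + v 0 1 + v 0 2 + v 0 3 + v 0 4 + v 1 0 + v 1 1 + v 1 2 + v 1 3 + v 1 4 -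
    v 2 1 - 3 * v 2 3 + v 2 4 - w 2 4 := by
  have h1 := h.M 0 1 2 (by decide) (by decide) (by decide) 3 (by norm_num) (by norm_num)
    (ms false false true false false) (ms false false true false false)
    (ms true true false true true) (good_ms _ _ _ _ _ _ (by decide))
    (good_ms _ _ _ _ _ _ (by decide))
  simp only [cost_ms_compl, cost_ms, cost_univ, thn, hw.w0, hw.w1, hw.w2, hw.w3, cond_true,
    cond_false, if_true, Nat.cast_ofNat, Nat.cast_one, div_one] at h1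
  rw [if_neg (by decide)] at h1
  rcases h1 with h1 | h1
  · left; linarith only [h1]
  · right; linarith only [h1]

theorem bd11 {v w : Fin 3 → Fin 5 → ℝ} {t : ℝ} (h : Fail v w t) (hw : Wt v w) :
    t < v 0 3 + v 0 4 + v 1 0 + v 1 1 + v 1 3 + v 1 4 + v 2 0 + v 2 1 + v 2 3 + v 2 4 ∨ t < v 0
    0 + 2 * v 0 1 + 3 * v 0 2 + v 0 3 + v 0 4 + v 1 0 + v 1 1 + v 1 2 + v 1 3 + v 1 4 + v 2 0 +
    v 2 1 + v 2 2 + v 2 3 + v 2 4 - 1 := by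
  have h1 := h.M 1 2 0 (by decide) (by decide) (by decide) 3 (by norm_num) (by norm_num)
    (ms false false true false false) (ms false false true false false)
    (ms false false false true true) (good_ms _ _ _ _ _ _ (by decide))
    (good_ms _ _ _ _ _ _ (by decide))
  simp only [cost_ms_compl, cost_ms, cost_univ, thn, hw.w0, hw.w1, hw.w2, hw.w3, cond_true,
    cond_false, if_true, Nat.cast_ofNat, Nat.cast_one, div_one] at h1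
  rcases h1 with h1 | h1
  · left; linarith only [h1]
  · right; linarith only [h1]

theorem bd12 {v w : Fin 3 → Fin 5 → ℝ} {t : ℝ} (h : Fail v w t) (hw : Wt v w) :
    t < v 0 1 + v 0 2 + v 0 3 + v 0 4 + v 1 0 + v 1 1 + v 1 2 + v 1 4 + v 2 0 + v 2 1 + v 2 2 +
    v 2 3 + v 2 4 ∨ t < v 0 0 + v 0 1 + v 0 2 + v 0 3 + v 0 4 + v 1 0 + v 1 1 + v 1 2 + 2 * v 1
    3 + v 1 4 + v 2 0 + v 2 1 + v 2 2 + v 2 3 + v 2 4 - 1 := by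
  have h1 := h.M 1 2 0 (by decide) (by decide) (by decide) 2 (by norm_num) (by norm_num)
    (ms false false false true false) (ms false false false false false)
    (ms false true true true true) (good_ms _ _ _ _ _ _ (by decide))
    (good_ms _ _ _ _ _ _ (by decide))
  simp only [cost_ms_compl, cost_ms, cost_univ, thn, hw.w0, hw.w1, hw.w2, hw.w3, cond_true,
    cond_false, if_true, Nat.cast_ofNat, Nat.cast_one, div_one] at h1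
  rcases h1 with h1 | h1
  · left; linarith only [h1]
  · right; linarith only [h1]

theorem bd13 {v w : Fin 3 → Fin 5 → ℝ} {t : ℝ} (h : Fail v w t) (hw : Wt v w) :
    t < v 0 0 + v 0 1 + v 0 2 + v 0 4 + v 1 0 + v 1 1 + v 1 2 + v 1 4 + v 2 1 + v 2 3 + v 2 4 ∨
    t < v 0 0 + v 0 1 + v 0 2 + v 0 3 + v 0 4 + v 1 0 + v 1 1 + v 1 2 + v 1 3 + v 1 4 - v 2 1 -
    3 * v 2 3 + v 2 4 - w 2 4 := by
  have h1 := h.M 0 1 2 (by decide) (by decide) (by decide) 4 (by norm_num) (by norm_num)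
    (ms false false false true false) (ms false false false true false)
    (ms false true false true true) (good_ms _ _ _ _ _ _ (by decide))
    (good_ms _ _ _ _ _ _ (by decide))
  simp only [cost_ms_compl, cost_ms, cost_univ, thn, hw.w0, hw.w1, hw.w2, hw.w3, cond_true,
    cond_false, if_true, Nat.cast_ofNat, Nat.cast_one, div_one] at h1
  rw [if_neg (by decide)] at h1
  rcases h1 with h1 | h1
  · left; linarith only [h1]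
  · right; linarith only [h1]

theorem bd14 {v w : Fin 3 → Fin 5 → ℝ} {t : ℝ} (h : Fail v w t) (hw : Wt v w) :
    t < v 1 0 + v 1 1 + v 1 2 + v 1 4 + v 2 0 + v 2 1 + v 2 2 + v 2 3 + v 2 4 ∨ t < v 0 0 + v 0
    1 + v 0 2 + v 0 3 + v 0 4 + 1 / 2 * v 1 0 + 1 / 2 * v 1 1 + 1 / 2 * v 1 2 + 1 / 2 * v 1 4 +
    1 / 2 * v 2 0 + 1 / 2 * v 2 1 + 1 / 2 * v 2 2 + 1 / 2 * v 2 3 + 1 / 2 * v 2 4 := by
  have h1 := h.D 1 2 0 (by decide) (by decide) (by decide) 3 (by decide) (by decide)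
  simp only [cost_single_compl, cost_univ] at h1
  rcases h1 with h1 | h1
  · left; linarith only [h1]
  · right; linarith only [h1]

theorem bd15 {v w : Fin 3 → Fin 5 → ℝ} {t : ℝ} (h : Fail v w t) (hw : Wt v w) :
    t < 1 / 2 * v 0 0 + 1 / 2 * v 0 1 + 1 / 2 * v 0 2 + 1 / 2 * v 0 3 + 1 / 2 * v 0 4 + 1 / 2 *
    v 1 0 + 1 / 2 * v 1 1 + 1 / 2 * v 1 2 + 1 / 2 * v 1 3 + 1 / 2 * v 1 4 + v 2 1 + v 2 2 + v 2
    4 ∨ t < 5 / 4 * v 0 0 + 5 / 4 * v 0 1 + 5 / 4 * v 0 2 + 5 / 4 * v 0 3 + 5 / 4 * v 0 4 + 1 /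
    2 * v 1 0 + 1 / 2 * v 1 1 + 1 / 2 * v 1 2 + 1 / 2 * v 1 3 + 1 / 2 * v 1 4 - 1 / 2 * v 2 2 +
    v 2 4 - 1 / 2 * w 2 4 ∨ t < 1 / 2 * v 0 0 + 1 / 2 * v 0 1 + 1 / 2 * v 0 2 + 1 / 2 * v 0 3 +
    1 / 2 * v 0 4 + 5 / 4 * v 1 0 + 5 / 4 * v 1 1 + 5 / 4 * v 1 2 + 5 / 4 * v 1 3 + 5 / 4 * v 1
    4 - 1 / 2 * v 2 2 + v 2 4 - 1 / 2 * w 2 4 ∨ t < 5 / 4 * v 0 0 + 5 / 4 * v 0 1 + 5 / 4 * v 0
    2 + 5 / 4 * v 0 3 + 5 / 4 * v 0 4 + 5 / 4 * v 1 0 + 5 / 4 * v 1 1 + 5 / 4 * v 1 2 + 5 / 4 *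
    v 1 3 + 5 / 4 * v 1 4 - v 2 1 - 2 * v 2 2 + v 2 4 - w 2 4 := by
  have h1 := h.S 0 1 2 (by decide) (by decide) (by decide) (ms false true true false true)
  simp only [cost_ms, cost_univ, hw.w0, hw.w1, hw.w2, hw.w3, cond_true, cond_false] at h1
  have h2 := max2s _ _ _ _ _ _ h1
  rcases h2 with h1 | h1 | h1 | h1
  · left; linarith only [h1]
  · right; left; linarith only [h1]
  · right; right; left; linarith only [h1]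
  · right; right; right; linarith only [h1]

theorem bd16 {v w : Fin 3 → Fin 5 → ℝ} {t : ℝ} (h : Fail v w t) (hw : Wt v w) :
    t < v 0 0 + v 0 1 + v 0 2 + v 0 4 + v 1 1 + v 1 3 + v 1 4 + v 2 0 + v 2 1 + v 2 2 + v 2 4 ∨
    t < v 0 0 + v 0 1 + v 0 2 + v 0 3 + v 0 4 - v 1 1 - 3 * v 1 3 + v 1 4 + v 2 0 + v 2 1 + v 2
    2 + v 2 3 + v 2 4 - w 1 4 := by
  have h1 := h.M 2 0 1 (by decide) (by decide) (by decide) 4 (by norm_num) (by norm_num)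
    (ms false false false true false) (ms false false false true false)
    (ms false true false true true) (good_ms _ _ _ _ _ _ (by decide))
    (good_ms _ _ _ _ _ _ (by decide))
  simp only [cost_ms_compl, cost_ms, cost_univ, thn, hw.w0, hw.w1, hw.w2, hw.w3, cond_true,
    cond_false, if_true, Nat.cast_ofNat, Nat.cast_one, div_one] at h1
  rw [if_neg (by decide)] at h1
  rcases h1 with h1 | h1
  · left; linarith only [h1]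
  · right; linarith only [h1]

theorem bd17 {v w : Fin 3 → Fin 5 → ℝ} {t : ℝ} (h : Fail v w t) (hw : Wt v w) :
    t < v 0 0 + v 0 1 + v 0 2 + v 0 3 + v 0 4 + v 1 0 + v 1 1 + v 1 3 + v 1 4 ∨ t < 1 / 2 * v 0
    0 + 1 / 2 * v 0 1 + 1 / 2 * v 0 2 + 1 / 2 * v 0 3 + 1 / 2 * v 0 4 + 1 / 2 * v 1 0 + 1 / 2 *
    v 1 1 + 1 / 2 * v 1 3 + 1 / 2 * v 1 4 + v 2 0 + v 2 1 + v 2 2 + v 2 3 + v 2 4 := by
  have h1 := h.D 1 0 2 (by decide) (by decide) (by decide) 2 (by decide) (by decide)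
  simp only [cost_single_compl, cost_univ] at h1
  rcases h1 with h1 | h1
  · left; linarith only [h1]
  · right; linarith only [h1]

theorem bd18 {v w : Fin 3 → Fin 5 → ℝ} {t : ℝ} (h : Fail v w t) (hw : Wt v w) :
    t < 1 / 2 * v 0 0 + 1 / 2 * v 0 1 + 1 / 2 * v 0 2 + 1 / 2 * v 0 3 + 1 / 2 * v 0 4 + 1 / 2 *
    v 1 0 + 1 / 2 * v 1 1 + 1 / 2 * v 1 2 + 1 / 2 * v 1 3 + 1 / 2 * v 1 4 + v 2 0 + v 2 2 + v 2
    4 ∨ t < 5 / 4 * v 0 0 + 5 / 4 * v 0 1 + 5 / 4 * v 0 2 + 5 / 4 * v 0 3 + 5 / 4 * v 0 4 + 1 /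
    2 * v 1 0 + 1 / 2 * v 1 1 + 1 / 2 * v 1 2 + 1 / 2 * v 1 3 + 1 / 2 * v 1 4 + 1 / 2 * v 2 0 -
    1 / 2 * v 2 2 + v 2 4 - 1 / 2 * w 2 4 ∨ t < 1 / 2 * v 0 0 + 1 / 2 * v 0 1 + 1 / 2 * v 0 2 +
    1 / 2 * v 0 3 + 1 / 2 * v 0 4 + 5 / 4 * v 1 0 + 5 / 4 * v 1 1 + 5 / 4 * v 1 2 + 5 / 4 * v 1
    3 + 5 / 4 * v 1 4 + 1 / 2 * v 2 0 - 1 / 2 * v 2 2 + v 2 4 - 1 / 2 * w 2 4 ∨ t < 5 / 4 * v 0
    0 + 5 / 4 * v 0 1 + 5 / 4 * v 0 2 + 5 / 4 * v 0 3 + 5 / 4 * v 0 4 + 5 / 4 * v 1 0 + 5 / 4 *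
    v 1 1 + 5 / 4 * v 1 2 + 5 / 4 * v 1 3 + 5 / 4 * v 1 4 - 2 * v 2 2 + v 2 4 - w 2 4 := by
  have h1 := h.S 0 1 2 (by decide) (by decide) (by decide) (ms true false true false true)
  simp only [cost_ms, cost_univ, hw.w0, hw.w1, hw.w2, hw.w3, cond_true, cond_false] at h1
  have h2 := max2s _ _ _ _ _ _ h1
  rcases h2 with h1 | h1 | h1 | h1
  · left; linarith only [h1]
  · right; left; linarith only [h1]
  · right; right; left; linarith only [h1]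
  · right; right; right; linarith only [h1]

theorem bd19 {v w : Fin 3 → Fin 5 → ℝ} {t : ℝ} (h : Fail v w t) (hw : Wt v w) :
    t < v 0 1 + v 0 2 + v 0 3 + v 0 4 + v 1 1 + v 1 3 + v 1 4 + v 2 1 + v 2 3 + v 2 4 ∨ t < v 0
    0 + v 0 1 + v 0 2 + v 0 3 + v 0 4 - v 1 1 - 3 * v 1 3 + v 1 4 + v 2 0 + v 2 1 + 3 * v 2 2 +
    v 2 3 + v 2 4 - w 1 4 := by
  have h1 := h.M 2 0 1 (by decide) (by decide) (by decide) 1 (by norm_num) (by norm_num)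
    (ms true false true false false) (ms true false false false false)
    (ms false true false true true) (good_ms _ _ _ _ _ _ (by decide))
    (good_ms _ _ _ _ _ _ (by decide))
  simp only [cost_ms_compl, cost_ms, cost_univ, thn, hw.w0, hw.w1, hw.w2, hw.w3, cond_true,
    cond_false, if_true, Nat.cast_ofNat, Nat.cast_one, div_one] at h1
  rw [if_neg (by decide)] at h1
  rcases h1 with h1 | h1
  · left; linarith only [h1]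
  · right; linarith only [h1]

theorem bd20 {v w : Fin 3 → Fin 5 → ℝ} {t : ℝ} (h : Fail v w t) (hw : Wt v w) :
    t < 1 / 2 * v 0 0 + 1 / 2 * v 0 1 + 1 / 2 * v 0 2 + 1 / 2 * v 0 3 + 1 / 2 * v 0 4 + v 1 1 +
    v 1 3 + v 1 4 + 1 / 2 * v 2 0 + 1 / 2 * v 2 1 + 1 / 2 * v 2 2 + 1 / 2 * v 2 3 + 1 / 2 * v 2
    4 ∨ t < 1 / 2 * v 0 0 + 1 / 2 * v 0 1 + 1 / 2 * v 0 2 + 1 / 2 * v 0 3 + 1 / 2 * v 0 4 - v 1
    3 + v 1 4 + 5 / 4 * v 2 0 + 5 / 4 * v 2 1 + 5 / 4 * v 2 2 + 5 / 4 * v 2 3 + 5 / 4 * v 2 4 -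
    1 / 2 * w 1 4 ∨ t < 5 / 4 * v 0 0 + 5 / 4 * v 0 1 + 5 / 4 * v 0 2 + 5 / 4 * v 0 3 + 5 / 4 *
    v 0 4 - v 1 3 + v 1 4 + 1 / 2 * v 2 0 + 1 / 2 * v 2 1 + 1 / 2 * v 2 2 + 1 / 2 * v 2 3 + 1 /
    2 * v 2 4 - 1 / 2 * w 1 4 ∨ t < 5 / 4 * v 0 0 + 5 / 4 * v 0 1 + 5 / 4 * v 0 2 + 5 / 4 * v 0
    3 + 5 / 4 * v 0 4 - v 1 1 - 3 * v 1 3 + v 1 4 + 5 / 4 * v 2 0 + 5 / 4 * v 2 1 + 5 / 4 * v 2
    2 + 5 / 4 * v 2 3 + 5 / 4 * v 2 4 - w 1 4 := by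
  have h1 := h.S 2 0 1 (by decide) (by decide) (by decide) (ms false true false true true)
  simp only [cost_ms, cost_univ, hw.w0, hw.w1, hw.w2, hw.w3, cond_true, cond_false] at h1
  have h2 := max2s _ _ _ _ _ _ h1
  rcases h2 with h1 | h1 | h1 | h1
  · left; linarith only [h1]
  · right; left; linarith only [h1]
  · right; right; left; linarith only [h1]
  · right; right; right; linarith only [h1]

theorem bd21 {v w : Fin 3 → Fin 5 → ℝ} {t : ℝ} (h : Fail v w t) (hw : Wt v w) :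
    t < 1 / 2 * v 0 0 + 1 / 2 * v 0 1 + 1 / 2 * v 0 2 + 1 / 2 * v 0 3 + 1 / 2 * v 0 4 + v 1 0 +
    v 1 3 + v 1 4 + 1 / 2 * v 2 0 + 1 / 2 * v 2 1 + 1 / 2 * v 2 2 + 1 / 2 * v 2 3 + 1 / 2 * v 2
    4 ∨ t < 1 / 2 * v 0 0 + 1 / 2 * v 0 1 + 1 / 2 * v 0 2 + 1 / 2 * v 0 3 + 1 / 2 * v 0 4 + 1 /
    2 * v 1 0 - v 1 3 + v 1 4 + 5 / 4 * v 2 0 + 5 / 4 * v 2 1 + 5 / 4 * v 2 2 + 5 / 4 * v 2 3 +
    5 / 4 * v 2 4 - 1 / 2 * w 1 4 ∨ t < 5 / 4 * v 0 0 + 5 / 4 * v 0 1 + 5 / 4 * v 0 2 + 5 / 4 *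
    v 0 3 + 5 / 4 * v 0 4 + 1 / 2 * v 1 0 - v 1 3 + v 1 4 + 1 / 2 * v 2 0 + 1 / 2 * v 2 1 + 1 /
    2 * v 2 2 + 1 / 2 * v 2 3 + 1 / 2 * v 2 4 - 1 / 2 * w 1 4 ∨ t < 5 / 4 * v 0 0 + 5 / 4 * v 0
    1 + 5 / 4 * v 0 2 + 5 / 4 * v 0 3 + 5 / 4 * v 0 4 - 3 * v 1 3 + v 1 4 + 5 / 4 * v 2 0 + 5 /
    4 * v 2 1 + 5 / 4 * v 2 2 + 5 / 4 * v 2 3 + 5 / 4 * v 2 4 - w 1 4 := by
  have h1 := h.S 2 0 1 (by decide) (by decide) (by decide) (ms true false false true true)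
  simp only [cost_ms, cost_univ, hw.w0, hw.w1, hw.w2, hw.w3, cond_true, cond_false] at h1
  have h2 := max2s _ _ _ _ _ _ h1
  rcases h2 with h1 | h1 | h1 | h1
  · left; linarith only [h1]
  · right; left; linarith only [h1]
  · right; right; left; linarith only [h1]
  · right; right; right; linarith only [h1]

theorem bd22 {v w : Fin 3 → Fin 5 → ℝ} {t : ℝ} (h : Fail v w t) (hw : Wt v w) :
    t < 1 / 2 * v 0 0 + 1 / 2 * v 0 1 + 1 / 2 * v 0 2 + 1 / 2 * v 0 3 + 1 / 2 * v 0 4 + v 1 3 +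
    v 1 4 + 1 / 2 * v 2 0 + 1 / 2 * v 2 1 + 1 / 2 * v 2 2 + 1 / 2 * v 2 3 + 1 / 2 * v 2 4 ∨ t <
    1 / 2 * v 0 0 + 1 / 2 * v 0 1 + 1 / 2 * v 0 2 + 1 / 2 * v 0 3 + 1 / 2 * v 0 4 - v 1 3 + v 1
    4 + 5 / 4 * v 2 0 + 5 / 4 * v 2 1 + 5 / 4 * v 2 2 + 5 / 4 * v 2 3 + 5 / 4 * v 2 4 - 1 / 2 *
    w 1 4 ∨ t < 5 / 4 * v 0 0 + 5 / 4 * v 0 1 + 5 / 4 * v 0 2 + 5 / 4 * v 0 3 + 5 / 4 * v 0 4 -
    v 1 3 + v 1 4 + 1 / 2 * v 2 0 + 1 / 2 * v 2 1 + 1 / 2 * v 2 2 + 1 / 2 * v 2 3 + 1 / 2 * v 2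
    4 - 1 / 2 * w 1 4 ∨ t < 5 / 4 * v 0 0 + 5 / 4 * v 0 1 + 5 / 4 * v 0 2 + 5 / 4 * v 0 3 + 5 /
    4 * v 0 4 - 3 * v 1 3 + v 1 4 + 5 / 4 * v 2 0 + 5 / 4 * v 2 1 + 5 / 4 * v 2 2 + 5 / 4 * v 2
    3 + 5 / 4 * v 2 4 - w 1 4 := by
  have h1 := h.S 2 0 1 (by decide) (by decide) (by decide) (ms false false false true true)
  simp only [cost_ms, cost_univ, hw.w0, hw.w1, hw.w2, hw.w3, cond_true, cond_false] at h1
  have h2 := max2s _ _ _ _ _ _ h1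
  rcases h2 with h1 | h1 | h1 | h1
  · left; linarith only [h1]
  · right; left; linarith only [h1]
  · right; right; left; linarith only [h1]
  · right; right; right; linarith only [h1]

theorem bd23 {v w : Fin 3 → Fin 5 → ℝ} {t : ℝ} (h : Fail v w t) (hw : Wt v w) :
    t < v 0 1 + v 0 2 + v 0 3 + v 0 4 + v 1 0 + v 1 3 + v 1 4 + v 2 0 + v 2 1 + v 2 2 + v 2 3 +
    v 2 4 ∨ t < v 0 0 + v 0 1 + v 0 2 + v 0 3 + v 0 4 - 3 * v 1 3 + v 1 4 + v 2 0 + v 2 1 + v 2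
    2 + v 2 3 + v 2 4 - w 1 4 := by
  have h1 := h.M 2 0 1 (by decide) (by decide) (by decide) 1 (by norm_num) (by norm_num)
    (ms false false false false false) (ms true false false false false)
    (ms true false false true true) (good_ms _ _ _ _ _ _ (by decide))
    (good_ms _ _ _ _ _ _ (by decide))
  simp only [cost_ms_compl, cost_ms, cost_univ, thn, hw.w0, hw.w1, hw.w2, hw.w3, cond_true,
    cond_false, if_true, Nat.cast_ofNat, Nat.cast_one, div_one] at h1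
  rw [if_neg (by decide)] at h1
  rcases h1 with h1 | h1
  · left; linarith only [h1]
  · right; linarith only [h1]

theorem bd24 {v w : Fin 3 → Fin 5 → ℝ} {t : ℝ} (h : Fail v w t) (hw : Wt v w) :
    t < v 0 0 + v 0 1 + v 0 2 + v 0 3 + v 0 4 + v 1 0 + v 1 1 + v 1 3 + v 1 4 + v 2 3 + v 2 4 ∨
    t < v 0 0 + v 0 1 + v 0 2 + v 0 3 + v 0 4 + v 1 0 + v 1 1 + v 1 2 + v 1 3 + v 1 4 - 3 * v 2
    3 + v 2 4 - w 2 4 := by
  have h1 := h.M 0 1 2 (by decide) (by decide) (by decide) 3 (by norm_num) (by norm_num)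
    (ms false false false false false) (ms false false true false false)
    (ms false false false true true) (good_ms _ _ _ _ _ _ (by decide))
    (good_ms _ _ _ _ _ _ (by decide))
  simp only [cost_ms_compl, cost_ms, cost_univ, thn, hw.w0, hw.w1, hw.w2, hw.w3, cond_true,
    cond_false, if_true, Nat.cast_ofNat, Nat.cast_one, div_one] at h1
  rw [if_neg (by decide)] at h1
  rcases h1 with h1 | h1
  · left; linarith only [h1]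
  · right; linarith only [h1]

theorem bd25 {v w : Fin 3 → Fin 5 → ℝ} {t : ℝ} (h : Fail v w t) (hw : Wt v w) :
    t < v 0 0 + v 0 1 + v 0 2 + v 0 3 + v 0 4 + v 1 0 + v 1 1 + v 1 3 + v 1 4 + v 2 0 + v 2 3 +
    v 2 4 ∨ t < v 0 0 + v 0 1 + v 0 2 + v 0 3 + v 0 4 + v 1 0 + v 1 1 + v 1 2 + v 1 3 + v 1 4 -
    3 * v 2 3 + v 2 4 - w 2 4 := by
  have h1 := h.M 0 1 2 (by decide) (by decide) (by decide) 3 (by norm_num) (by norm_num)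
    (ms false false false false false) (ms false false true false false)
    (ms true false false true true) (good_ms _ _ _ _ _ _ (by decide))
    (good_ms _ _ _ _ _ _ (by decide))
  simp only [cost_ms_compl, cost_ms, cost_univ, thn, hw.w0, hw.w1, hw.w2, hw.w3, cond_true,
    cond_false, if_true, Nat.cast_ofNat, Nat.cast_one, div_one] at h1
  rw [if_neg (by decide)] at h1
  rcases h1 with h1 | h1
  · left; linarith only [h1]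
  · right; linarith only [h1]

theorem bd26 {v w : Fin 3 → Fin 5 → ℝ} {t : ℝ} (h : Fail v w t) (hw : Wt v w) :
    t < v 0 0 + v 0 1 + v 0 2 + v 0 3 + v 0 4 + v 1 0 + v 1 1 + v 1 3 + v 1 4 + v 2 1 + v 2 3 +
    v 2 4 ∨ t < v 0 0 + v 0 1 + v 0 2 + v 0 3 + v 0 4 + v 1 0 + v 1 1 + v 1 2 + v 1 3 + v 1 4 -
    v 2 1 - 3 * v 2 3 + v 2 4 - w 2 4 := by
  have h1 := h.M 0 1 2 (by decide) (by decide) (by decide) 3 (by norm_num) (by norm_num)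
    (ms false false false false false) (ms false false true false false)
    (ms false true false true true) (good_ms _ _ _ _ _ _ (by decide))
    (good_ms _ _ _ _ _ _ (by decide))
  simp only [cost_ms_compl, cost_ms, cost_univ, thn, hw.w0, hw.w1, hw.w2, hw.w3, cond_true,
    cond_false, if_true, Nat.cast_ofNat, Nat.cast_one, div_one] at h1
  rw [if_neg (by decide)] at h1
  rcases h1 with h1 | h1
  · left; linarith only [h1]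
  · right; linarith only [h1]

theorem bd27 {v w : Fin 3 → Fin 5 → ℝ} {t : ℝ} (h : Fail v w t) (hw : Wt v w) :
    t < v 0 1 + v 0 2 + v 0 4 + v 1 0 + v 1 1 + v 1 2 + v 1 4 + v 2 0 + v 2 1 + v 2 2 + v 2 3 +
    v 2 4 ∨ t < v 0 0 + v 0 1 + v 0 2 + 4 * v 0 3 + v 0 4 + v 1 0 + v 1 1 + v 1 2 + v 1 3 + v 1
    4 + v 2 0 + v 2 1 + v 2 2 + v 2 3 + v 2 4 - 1 := by
  have h1 := h.M 1 2 0 (by decide) (by decide) (by decide) 4 (by norm_num) (by norm_num)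
    (ms false false false true false) (ms false false false false false)
    (ms false true true false true) (good_ms _ _ _ _ _ _ (by decide))
    (good_ms _ _ _ _ _ _ (by decide))
  simp only [cost_ms_compl, cost_ms, cost_univ, thn, hw.w0, hw.w1, hw.w2, hw.w3, cond_true,
    cond_false, if_true, Nat.cast_ofNat, Nat.cast_one, div_one] at h1
  rcases h1 with h1 | h1
  · left; linarith only [h1]
  · right; linarith only [h1]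

theorem bd28 {v w : Fin 3 → Fin 5 → ℝ} {t : ℝ} (h : Fail v w t) (hw : Wt v w) :
    t < v 0 1 + v 0 2 + v 0 3 + v 0 4 + v 1 1 + v 1 3 + v 1 4 + v 2 1 + v 2 4 ∨ t < v 0 0 + v 0
    1 + v 0 2 + v 0 3 + v 0 4 + v 1 0 + v 1 1 + 3 * v 1 2 + v 1 3 + v 1 4 + v 2 0 + v 2 1 + 3 *
    v 2 2 + 4 * v 2 3 + v 2 4 - 1 := by
  have h1 := h.M 1 2 0 (by decide) (by decide) (by decide) 1 (by norm_num) (by norm_num)
    (ms true false true false false) (ms true false true true false)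
    (ms false true true true true) (good_ms _ _ _ _ _ _ (by decide))
    (good_ms _ _ _ _ _ _ (by decide))
  simp only [cost_ms_compl, cost_ms, cost_univ, thn, hw.w0, hw.w1, hw.w2, hw.w3, cond_true,
    cond_false, if_true, Nat.cast_ofNat, Nat.cast_one, div_one] at h1
  rcases h1 with h1 | h1
  · left; linarith only [h1]
  · right; linarith only [h1]

theorem bd29 {v w : Fin 3 → Fin 5 → ℝ} {t : ℝ} (h : Fail v w t) (hw : Wt v w) :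
    t < 1 / 2 * v 0 0 + 1 / 2 * v 0 1 + 1 / 2 * v 0 2 + 1 / 2 * v 0 3 + 1 / 2 * v 0 4 + 1 / 2 *
    v 1 0 + 1 / 2 * v 1 1 + 1 / 2 * v 1 2 + 1 / 2 * v 1 3 + 1 / 2 * v 1 4 + v 2 1 + v 2 3 + v 2
    4 ∨ t < 5 / 4 * v 0 0 + 5 / 4 * v 0 1 + 5 / 4 * v 0 2 + 5 / 4 * v 0 3 + 5 / 4 * v 0 4 + 1 /
    2 * v 1 0 + 1 / 2 * v 1 1 + 1 / 2 * v 1 2 + 1 / 2 * v 1 3 + 1 / 2 * v 1 4 - v 2 3 + v 2 4 -
    1 / 2 * w 2 4 ∨ t < 1 / 2 * v 0 0 + 1 / 2 * v 0 1 + 1 / 2 * v 0 2 + 1 / 2 * v 0 3 + 1 / 2 *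
    v 0 4 + 5 / 4 * v 1 0 + 5 / 4 * v 1 1 + 5 / 4 * v 1 2 + 5 / 4 * v 1 3 + 5 / 4 * v 1 4 - v 2
    3 + v 2 4 - 1 / 2 * w 2 4 ∨ t < 5 / 4 * v 0 0 + 5 / 4 * v 0 1 + 5 / 4 * v 0 2 + 5 / 4 * v 0
    3 + 5 / 4 * v 0 4 + 5 / 4 * v 1 0 + 5 / 4 * v 1 1 + 5 / 4 * v 1 2 + 5 / 4 * v 1 3 + 5 / 4 *
    v 1 4 - v 2 1 - 3 * v 2 3 + v 2 4 - w 2 4 := by
  have h1 := h.S 0 1 2 (by decide) (by decide) (by decide) (ms false true false true true)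
  simp only [cost_ms, cost_univ, hw.w0, hw.w1, hw.w2, hw.w3, cond_true, cond_false] at h1
  have h2 := max2s _ _ _ _ _ _ h1
  rcases h2 with h1 | h1 | h1 | h1
  · left; linarith only [h1]
  · right; left; linarith only [h1]
  · right; right; left; linarith only [h1]
  · right; right; right; linarith only [h1]

theorem bd30 {v w : Fin 3 → Fin 5 → ℝ} {t : ℝ} (h : Fail v w t) (hw : Wt v w) :
    t < v 0 0 + v 0 1 + v 0 2 + v 0 4 + v 1 1 + v 1 3 + v 1 4 + v 2 0 + v 2 1 + v 2 2 + v 2 3 +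
    v 2 4 ∨ t < v 0 0 + v 0 1 + v 0 2 + v 0 3 + v 0 4 - v 1 1 - 3 * v 1 3 + v 1 4 + v 2 0 + v 2
    1 + v 2 2 + v 2 3 + v 2 4 - w 1 4 := by
  have h1 := h.M 2 0 1 (by decide) (by decide) (by decide) 4 (by norm_num) (by norm_num)
    (ms false false false false false) (ms false false false true false)
    (ms false true false true true) (good_ms _ _ _ _ _ _ (by decide))
    (good_ms _ _ _ _ _ _ (by decide))
  simp only [cost_ms_compl, cost_ms, cost_univ, thn, hw.w0, hw.w1, hw.w2, hw.w3, cond_true,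
    cond_false, if_true, Nat.cast_ofNat, Nat.cast_one, div_one] at h1
  rw [if_neg (by decide)] at h1
  rcases h1 with h1 | h1
  · left; linarith only [h1]
  · right; linarith only [h1]

theorem bd31 {v w : Fin 3 → Fin 5 → ℝ} {t : ℝ} (h : Fail v w t) (hw : Wt v w) :
    t < v 0 0 + v 0 2 + v 0 4 + v 1 1 + v 1 3 + v 1 4 + v 2 0 + v 2 1 + v 2 2 + v 2 3 + v 2 4 ∨
    t < v 0 0 + v 0 1 + v 0 2 + 2 * v 0 3 + v 0 4 - v 1 1 - 3 * v 1 3 + v 1 4 + v 2 0 + v 2 1 +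
    v 2 2 + v 2 3 + v 2 4 - w 1 4 := by
  have h1 := h.M 2 0 1 (by decide) (by decide) (by decide) 2 (by norm_num) (by norm_num)
    (ms false false false false false) (ms false true false true false)
    (ms false true false true true) (good_ms _ _ _ _ _ _ (by decide))
    (good_ms _ _ _ _ _ _ (by decide))
  simp only [cost_ms_compl, cost_ms, cost_univ, thn, hw.w0, hw.w1, hw.w2, hw.w3, cond_true,
    cond_false, if_true, Nat.cast_ofNat, Nat.cast_one, div_one] at h1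
  rw [if_neg (by decide)] at h1
  rcases h1 with h1 | h1
  · left; linarith only [h1]
  · right; linarith only [h1]

theorem bd32 {v w : Fin 3 → Fin 5 → ℝ} {t : ℝ} (h : Fail v w t) (hw : Wt v w) :
    t < v 0 2 + v 0 4 + v 1 0 + v 1 1 + v 1 2 + v 1 4 + v 2 0 + v 2 1 + v 2 2 + v 2 3 + v 2 4 ∨
    t < v 0 0 + 2 * v 0 1 + v 0 2 + 4 * v 0 3 + v 0 4 + v 1 0 + v 1 1 + v 1 2 + v 1 3 + v 1 4 +
    v 2 0 + v 2 1 + v 2 2 + v 2 3 + v 2 4 - 1 := by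
  have h1 := h.M 1 2 0 (by decide) (by decide) (by decide) 4 (by norm_num) (by norm_num)
    (ms false false false true false) (ms false false false false false)
    (ms false false true false true) (good_ms _ _ _ _ _ _ (by decide))
    (good_ms _ _ _ _ _ _ (by decide))
  simp only [cost_ms_compl, cost_ms, cost_univ, thn, hw.w0, hw.w1, hw.w2, hw.w3, cond_true,
    cond_false, if_true, Nat.cast_ofNat, Nat.cast_one, div_one] at h1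
  rcases h1 with h1 | h1
  · left; linarith only [h1]
  · right; linarith only [h1]

theorem bd33 {v w : Fin 3 → Fin 5 → ℝ} {t : ℝ} (h : Fail v w t) (hw : Wt v w) :
    t < 1 / 2 * v 0 0 + 1 / 2 * v 0 1 + 1 / 2 * v 0 2 + 1 / 2 * v 0 3 + 1 / 2 * v 0 4 + 1 / 2 *
    v 1 0 + 1 / 2 * v 1 1 + 1 / 2 * v 1 2 + 1 / 2 * v 1 3 + 1 / 2 * v 1 4 + v 2 3 + v 2 4 ∨ t <
    5 / 4 * v 0 0 + 5 / 4 * v 0 1 + 5 / 4 * v 0 2 + 5 / 4 * v 0 3 + 5 / 4 * v 0 4 + 1 / 2 * v 1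
    0 + 1 / 2 * v 1 1 + 1 / 2 * v 1 2 + 1 / 2 * v 1 3 + 1 / 2 * v 1 4 - v 2 3 + v 2 4 - 1 / 2 *
    w 2 4 ∨ t < 1 / 2 * v 0 0 + 1 / 2 * v 0 1 + 1 / 2 * v 0 2 + 1 / 2 * v 0 3 + 1 / 2 * v 0 4 +
    5 / 4 * v 1 0 + 5 / 4 * v 1 1 + 5 / 4 * v 1 2 + 5 / 4 * v 1 3 + 5 / 4 * v 1 4 - v 2 3 + v 2
    4 - 1 / 2 * w 2 4 ∨ t < 5 / 4 * v 0 0 + 5 / 4 * v 0 1 + 5 / 4 * v 0 2 + 5 / 4 * v 0 3 + 5 /
    4 * v 0 4 + 5 / 4 * v 1 0 + 5 / 4 * v 1 1 + 5 / 4 * v 1 2 + 5 / 4 * v 1 3 + 5 / 4 * v 1 4 -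
    3 * v 2 3 + v 2 4 - w 2 4 := by
  have h1 := h.S 0 1 2 (by decide) (by decide) (by decide) (ms false false false true true)
  simp only [cost_ms, cost_univ, hw.w0, hw.w1, hw.w2, hw.w3, cond_true, cond_false] at h1
  have h2 := max2s _ _ _ _ _ _ h1
  rcases h2 with h1 | h1 | h1 | h1
  · left; linarith only [h1]
  · right; left; linarith only [h1]
  · right; right; left; linarith only [h1]
  · right; right; right; linarith only [h1]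

theorem bd34 {v w : Fin 3 → Fin 5 → ℝ} {t : ℝ} (h : Fail v w t) (hw : Wt v w) :
    t < v 0 1 + v 0 3 + v 0 4 + v 1 0 + v 1 1 + v 1 2 + v 1 4 + v 2 0 + v 2 1 + v 2 2 + v 2 3 +
    v 2 4 ∨ t < v 0 0 + v 0 1 + 3 * v 0 2 + v 0 3 + v 0 4 + v 1 0 + v 1 1 + v 1 2 + v 1 3 + v 1
    4 + v 2 0 + v 2 1 + v 2 2 + v 2 3 + v 2 4 - 1 := by
  have h1 := h.M 1 2 0 (by decide) (by decide) (by decide) 4 (by norm_num) (by norm_num)
    (ms false false false true false) (ms false false false false false)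
    (ms false true false true true) (good_ms _ _ _ _ _ _ (by decide))
    (good_ms _ _ _ _ _ _ (by decide))
  simp only [cost_ms_compl, cost_ms, cost_univ, thn, hw.w0, hw.w1, hw.w2, hw.w3, cond_true,
    cond_false, if_true, Nat.cast_ofNat, Nat.cast_one, div_one] at h1
  rcases h1 with h1 | h1
  · left; linarith only [h1]
  · right; linarith only [h1]

theorem bd35 {v w : Fin 3 → Fin 5 → ℝ} {t : ℝ} (h : Fail v w t) (hw : Wt v w) :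
    t < v 0 1 + v 0 2 + v 0 3 + v 1 0 + v 1 1 + v 1 2 + v 1 4 + v 2 0 + v 2 1 + v 2 2 + v 2 3 +
    v 2 4 ∨ t < v 0 0 + v 0 1 + v 0 2 + v 0 3 + v 1 0 + v 1 1 + v 1 2 + v 1 3 + v 1 4 + v 2 0 +
    v 2 1 + v 2 2 + v 2 3 + v 2 4 + w 0 4 - 1 := by
  have h1 := h.M 1 2 0 (by decide) (by decide) (by decide) 4 (by norm_num) (by norm_num)
    (ms false false false true false) (ms false false false false false)
    (ms false true true true false) (good_ms _ _ _ _ _ _ (by decide))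
    (good_ms _ _ _ _ _ _ (by decide))
  simp only [cost_ms_compl, cost_ms, cost_univ, thn, hw.w0, hw.w1, hw.w2, hw.w3, cond_true,
    cond_false, if_true, Nat.cast_ofNat, Nat.cast_one, div_one] at h1
  rcases h1 with h1 | h1
  · left; linarith only [h1]
  · right; linarith only [h1]

theorem bd36 {v w : Fin 3 → Fin 5 → ℝ} {t : ℝ} (h : Fail v w t) (hw : Wt v w) :
    t < v 0 3 + v 0 4 + v 1 1 + v 1 3 + v 1 4 + v 2 1 + v 2 2 + v 2 3 + v 2 4 ∨ t < v 0 0 + 2 *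
    v 0 1 + 3 * v 0 2 + v 0 3 + v 0 4 + v 1 0 + v 1 1 + 3 * v 1 2 + v 1 3 + v 1 4 + v 2 0 + v 2
    1 + v 2 2 + v 2 3 + v 2 4 - 1 := by
  have h1 := h.M 1 2 0 (by decide) (by decide) (by decide) 1 (by norm_num) (by norm_num)
    (ms true false true false false) (ms true false false false false)
    (ms false false false true true) (good_ms _ _ _ _ _ _ (by decide))
    (good_ms _ _ _ _ _ _ (by decide))
  simp only [cost_ms_compl, cost_ms, cost_univ, thn, hw.w0, hw.w1, hw.w2, hw.w3, cond_true,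
    cond_false, if_true, Nat.cast_ofNat, Nat.cast_one, div_one] at h1
  rcases h1 with h1 | h1
  · left; linarith only [h1]
  · right; linarith only [h1]

theorem bd37 {v w : Fin 3 → Fin 5 → ℝ} {t : ℝ} (h : Fail v w t) (hw : Wt v w) :
    t < v 0 1 + v 0 2 + v 0 3 + v 0 4 + 1 / 2 * v 1 0 + 1 / 2 * v 1 1 + 1 / 2 * v 1 2 + 1 / 2 *
    v 1 3 + 1 / 2 * v 1 4 + 1 / 2 * v 2 0 + 1 / 2 * v 2 1 + 1 / 2 * v 2 2 + 1 / 2 * v 2 3 + 1 /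
    2 * v 2 4 ∨ t < -1 / 2 * v 0 2 - v 0 3 + v 0 4 + 5 / 4 * v 1 0 + 5 / 4 * v 1 1 + 5 / 4 * v
    1 2 + 5 / 4 * v 1 3 + 5 / 4 * v 1 4 + 1 / 2 * v 2 0 + 1 / 2 * v 2 1 + 1 / 2 * v 2 2 + 1 / 2
    * v 2 3 + 1 / 2 * v 2 4 - 1 / 2 * w 0 4 ∨ t < -1 / 2 * v 0 2 - v 0 3 + v 0 4 + 1 / 2 * v 1
    0 + 1 / 2 * v 1 1 + 1 / 2 * v 1 2 + 1 / 2 * v 1 3 + 1 / 2 * v 1 4 + 5 / 4 * v 2 0 + 5 / 4 *
    v 2 1 + 5 / 4 * v 2 2 + 5 / 4 * v 2 3 + 5 / 4 * v 2 4 - 1 / 2 * w 0 4 ∨ t < -v 0 1 - 2 * v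
    0 2 - 3 * v 0 3 + v 0 4 + 5 / 4 * v 1 0 + 5 / 4 * v 1 1 + 5 / 4 * v 1 2 + 5 / 4 * v 1 3 + 5
    / 4 * v 1 4 + 5 / 4 * v 2 0 + 5 / 4 * v 2 1 + 5 / 4 * v 2 2 + 5 / 4 * v 2 3 + 5 / 4 * v 2 4
    - w 0 4 := by
  have h1 := h.S 1 2 0 (by decide) (by decide) (by decide) (ms false true true true true)
  simp only [cost_ms, cost_univ, hw.w0, hw.w1, hw.w2, hw.w3, cond_true, cond_false] at h1
  have h2 := max2s _ _ _ _ _ _ h1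
  rcases h2 with h1 | h1 | h1 | h1
  · left; linarith only [h1]
  · right; left; linarith only [h1]
  · right; right; left; linarith only [h1]
  · right; right; right; linarith only [h1]

theorem bd38 {v w : Fin 3 → Fin 5 → ℝ} {t : ℝ} (h : Fail v w t) (hw : Wt v w) :
    t < v 0 2 + v 0 3 + v 0 4 + 1 / 2 * v 1 0 + 1 / 2 * v 1 1 + 1 / 2 * v 1 2 + 1 / 2 * v 1 3 +
    1 / 2 * v 1 4 + 1 / 2 * v 2 0 + 1 / 2 * v 2 1 + 1 / 2 * v 2 2 + 1 / 2 * v 2 3 + 1 / 2 * v 2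
    4 ∨ t < -1 / 2 * v 0 2 - v 0 3 + v 0 4 + 5 / 4 * v 1 0 + 5 / 4 * v 1 1 + 5 / 4 * v 1 2 + 5
    / 4 * v 1 3 + 5 / 4 * v 1 4 + 1 / 2 * v 2 0 + 1 / 2 * v 2 1 + 1 / 2 * v 2 2 + 1 / 2 * v 2 3
    + 1 / 2 * v 2 4 - 1 / 2 * w 0 4 ∨ t < -1 / 2 * v 0 2 - v 0 3 + v 0 4 + 1 / 2 * v 1 0 + 1 /
    2 * v 1 1 + 1 / 2 * v 1 2 + 1 / 2 * v 1 3 + 1 / 2 * v 1 4 + 5 / 4 * v 2 0 + 5 / 4 * v 2 1 +
    5 / 4 * v 2 2 + 5 / 4 * v 2 3 + 5 / 4 * v 2 4 - 1 / 2 * w 0 4 ∨ t < -2 * v 0 2 - 3 * v 0 3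
    + v 0 4 + 5 / 4 * v 1 0 + 5 / 4 * v 1 1 + 5 / 4 * v 1 2 + 5 / 4 * v 1 3 + 5 / 4 * v 1 4 + 5
    / 4 * v 2 0 + 5 / 4 * v 2 1 + 5 / 4 * v 2 2 + 5 / 4 * v 2 3 + 5 / 4 * v 2 4 - w 0 4 := by
  have h1 := h.S 1 2 0 (by decide) (by decide) (by decide) (ms false false true true true)
  simp only [cost_ms, cost_univ, hw.w0, hw.w1, hw.w2, hw.w3, cond_true, cond_false] at h1
  have h2 := max2s _ _ _ _ _ _ h1
  rcases h2 with h1 | h1 | h1 | h1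
  · left; linarith only [h1]
  · right; left; linarith only [h1]
  · right; right; left; linarith only [h1]
  · right; right; right; linarith only [h1]

theorem bd39 {v w : Fin 3 → Fin 5 → ℝ} {t : ℝ} (h : Fail v w t) (hw : Wt v w) :
    t < v 0 1 + v 0 3 + v 0 4 + 1 / 2 * v 1 0 + 1 / 2 * v 1 1 + 1 / 2 * v 1 2 + 1 / 2 * v 1 3 +
    1 / 2 * v 1 4 + 1 / 2 * v 2 0 + 1 / 2 * v 2 1 + 1 / 2 * v 2 2 + 1 / 2 * v 2 3 + 1 / 2 * v 2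
    4 ∨ t < -v 0 3 + v 0 4 + 5 / 4 * v 1 0 + 5 / 4 * v 1 1 + 5 / 4 * v 1 2 + 5 / 4 * v 1 3 + 5
    / 4 * v 1 4 + 1 / 2 * v 2 0 + 1 / 2 * v 2 1 + 1 / 2 * v 2 2 + 1 / 2 * v 2 3 + 1 / 2 * v 2 4
    - 1 / 2 * w 0 4 ∨ t < -v 0 3 + v 0 4 + 1 / 2 * v 1 0 + 1 / 2 * v 1 1 + 1 / 2 * v 1 2 + 1 /
    2 * v 1 3 + 1 / 2 * v 1 4 + 5 / 4 * v 2 0 + 5 / 4 * v 2 1 + 5 / 4 * v 2 2 + 5 / 4 * v 2 3 +
    5 / 4 * v 2 4 - 1 / 2 * w 0 4 ∨ t < -v 0 1 - 3 * v 0 3 + v 0 4 + 5 / 4 * v 1 0 + 5 / 4 * v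
    1 1 + 5 / 4 * v 1 2 + 5 / 4 * v 1 3 + 5 / 4 * v 1 4 + 5 / 4 * v 2 0 + 5 / 4 * v 2 1 + 5 / 4
    * v 2 2 + 5 / 4 * v 2 3 + 5 / 4 * v 2 4 - w 0 4 := by
  have h1 := h.S 1 2 0 (by decide) (by decide) (by decide) (ms false true false true true)
  simp only [cost_ms, cost_univ, hw.w0, hw.w1, hw.w2, hw.w3, cond_true, cond_false] at h1
  have h2 := max2s _ _ _ _ _ _ h1
  rcases h2 with h1 | h1 | h1 | h1
  · left; linarith only [h1]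
  · right; left; linarith only [h1]
  · right; right; left; linarith only [h1]
  · right; right; right; linarith only [h1]

theorem bd40 {v w : Fin 3 → Fin 5 → ℝ} {t : ℝ} (h : Fail v w t) (hw : Wt v w) :
    t < v 0 0 + v 0 2 + v 0 4 + v 1 0 + v 1 2 + v 1 4 + v 2 1 + v 2 2 + v 2 3 + v 2 4 ∨ t < v 0
    0 + v 0 1 + v 0 2 + 2 * v 0 3 + v 0 4 + v 1 0 + v 1 1 + v 1 2 + 2 * v 1 3 + v 1 4 - v 2 1 -
    2 * v 2 2 - 3 * v 2 3 + v 2 4 - w 2 4 := by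
  have h1 := h.M 0 1 2 (by decide) (by decide) (by decide) 2 (by norm_num) (by norm_num)
    (ms false true false true false) (ms false true false true false)
    (ms false true true true true) (good_ms _ _ _ _ _ _ (by decide))
    (good_ms _ _ _ _ _ _ (by decide))
  simp only [cost_ms_compl, cost_ms, cost_univ, thn, hw.w0, hw.w1, hw.w2, hw.w3, cond_true,
    cond_false, if_true, Nat.cast_ofNat, Nat.cast_one, div_one] at h1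
  rw [if_neg (by decide)] at h1
  rcases h1 with h1 | h1
  · left; linarith only [h1]
  · right; linarith only [h1]

theorem bd41 {v w : Fin 3 → Fin 5 → ℝ} {t : ℝ} (h : Fail v w t) (hw : Wt v w) :
    t < v 0 0 + v 0 1 + v 0 3 + v 0 4 + v 1 0 + v 1 1 + v 1 2 + v 1 3 + v 1 4 ∨ t < 1 / 2 * v 0
    0 + 1 / 2 * v 0 1 + 1 / 2 * v 0 3 + 1 / 2 * v 0 4 + 1 / 2 * v 1 0 + 1 / 2 * v 1 1 + 1 / 2 *
    v 1 2 + 1 / 2 * v 1 3 + 1 / 2 * v 1 4 + v 2 0 + v 2 1 + v 2 2 + v 2 3 + v 2 4 := by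
  have h1 := h.D 0 1 2 (by decide) (by decide) (by decide) 2 (by decide) (by decide)
  simp only [cost_single_compl, cost_univ] at h1
  rcases h1 with h1 | h1
  · left; linarith only [h1]
  · right; linarith only [h1]

theorem bd42 {v w : Fin 3 → Fin 5 → ℝ} {t : ℝ} (h : Fail v w t) (hw : Wt v w) :
    t < v 0 2 + v 0 4 + 1 / 2 * v 1 0 + 1 / 2 * v 1 1 + 1 / 2 * v 1 2 + 1 / 2 * v 1 3 + 1 / 2 *
    v 1 4 + 1 / 2 * v 2 0 + 1 / 2 * v 2 1 + 1 / 2 * v 2 2 + 1 / 2 * v 2 3 + 1 / 2 * v 2 4 ∨ t <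
    -1 / 2 * v 0 2 + v 0 4 + 5 / 4 * v 1 0 + 5 / 4 * v 1 1 + 5 / 4 * v 1 2 + 5 / 4 * v 1 3 + 5
    / 4 * v 1 4 + 1 / 2 * v 2 0 + 1 / 2 * v 2 1 + 1 / 2 * v 2 2 + 1 / 2 * v 2 3 + 1 / 2 * v 2 4
    - 1 / 2 * w 0 4 ∨ t < -1 / 2 * v 0 2 + v 0 4 + 1 / 2 * v 1 0 + 1 / 2 * v 1 1 + 1 / 2 * v 1
    2 + 1 / 2 * v 1 3 + 1 / 2 * v 1 4 + 5 / 4 * v 2 0 + 5 / 4 * v 2 1 + 5 / 4 * v 2 2 + 5 / 4 *
    v 2 3 + 5 / 4 * v 2 4 - 1 / 2 * w 0 4 ∨ t < -2 * v 0 2 + v 0 4 + 5 / 4 * v 1 0 + 5 / 4 * v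
    1 1 + 5 / 4 * v 1 2 + 5 / 4 * v 1 3 + 5 / 4 * v 1 4 + 5 / 4 * v 2 0 + 5 / 4 * v 2 1 + 5 / 4
    * v 2 2 + 5 / 4 * v 2 3 + 5 / 4 * v 2 4 - w 0 4 := by
  have h1 := h.S 1 2 0 (by decide) (by decide) (by decide) (ms false false true false true)
  simp only [cost_ms, cost_univ, hw.w0, hw.w1, hw.w2, hw.w3, cond_true, cond_false] at h1
  have h2 := max2s _ _ _ _ _ _ h1
  rcases h2 with h1 | h1 | h1 | h1
  · left; linarith only [h1]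
  · right; left; linarith only [h1]
  · right; right; left; linarith only [h1]
  · right; right; right; linarith only [h1]

theorem bd43 {v w : Fin 3 → Fin 5 → ℝ} {t : ℝ} (h : Fail v w t) (hw : Wt v w) :
    t < v 1 0 + v 1 1 + v 1 3 + v 1 4 + v 2 0 + v 2 1 + v 2 2 + v 2 3 + v 2 4 ∨ t < v 0 0 + v 0
    1 + v 0 2 + v 0 3 + v 0 4 + 1 / 2 * v 1 0 + 1 / 2 * v 1 1 + 1 / 2 * v 1 3 + 1 / 2 * v 1 4 +
    1 / 2 * v 2 0 + 1 / 2 * v 2 1 + 1 / 2 * v 2 2 + 1 / 2 * v 2 3 + 1 / 2 * v 2 4 := by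
  have h1 := h.D 1 2 0 (by decide) (by decide) (by decide) 2 (by decide) (by decide)
  simp only [cost_single_compl, cost_univ] at h1
  rcases h1 with h1 | h1
  · left; linarith only [h1]
  · right; linarith only [h1]

theorem bd44 {v w : Fin 3 → Fin 5 → ℝ} {t : ℝ} (h : Fail v w t) (hw : Wt v w) :
    t < v 0 1 + v 0 3 + v 0 4 + v 1 1 + v 1 3 + v 1 4 + v 2 2 + v 2 3 + v 2 4 ∨ t < v 0 0 + v 0
    1 + 3 * v 0 2 + v 0 3 + v 0 4 - v 1 1 - 3 * v 1 3 + v 1 4 + v 2 0 + 2 * v 2 1 + v 2 2 + v 2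
    3 + v 2 4 - w 1 4 := by
  have h1 := h.M 2 0 1 (by decide) (by decide) (by decide) 1 (by norm_num) (by norm_num)
    (ms true true false false false) (ms true false true false false)
    (ms false true false true true) (good_ms _ _ _ _ _ _ (by decide))
    (good_ms _ _ _ _ _ _ (by decide))
  simp only [cost_ms_compl, cost_ms, cost_univ, thn, hw.w0, hw.w1, hw.w2, hw.w3, cond_true,
    cond_false, if_true, Nat.cast_ofNat, Nat.cast_one, div_one] at h1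
  rw [if_neg (by decide)] at h1
  rcases h1 with h1 | h1
  · left; linarith only [h1]
  · right; linarith only [h1]

theorem bd45 {v w : Fin 3 → Fin 5 → ℝ} {t : ℝ} (h : Fail v w t) (hw : Wt v w) :
    t < v 0 0 + v 0 1 + v 0 2 + v 0 4 + v 1 0 + v 1 1 + v 1 2 + v 1 3 + v 1 4 ∨ t < 1 / 2 * v 0
    0 + 1 / 2 * v 0 1 + 1 / 2 * v 0 2 + 1 / 2 * v 0 4 + 1 / 2 * v 1 0 + 1 / 2 * v 1 1 + 1 / 2 *
    v 1 2 + 1 / 2 * v 1 3 + 1 / 2 * v 1 4 + v 2 0 + v 2 1 + v 2 2 + v 2 3 + v 2 4 := by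
  have h1 := h.D 0 1 2 (by decide) (by decide) (by decide) 3 (by decide) (by decide)
  simp only [cost_single_compl, cost_univ] at h1
  rcases h1 with h1 | h1
  · left; linarith only [h1]
  · right; linarith only [h1]

theorem bd46 {v w : Fin 3 → Fin 5 → ℝ} {t : ℝ} (h : Fail v w t) (hw : Wt v w) :
    t < v 0 1 + v 0 2 + v 0 3 + v 0 4 + v 1 3 + v 1 4 + v 2 0 + v 2 2 + v 2 3 + v 2 4 ∨ t < v 0
    0 + v 0 1 + v 0 2 + v 0 3 + v 0 4 + v 1 0 + 2 * v 1 1 + 3 * v 1 2 + v 1 3 + v 1 4 - 2 * v 2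
    2 - 3 * v 2 3 + v 2 4 - w 2 4 := by
  have h1 := h.M 0 1 2 (by decide) (by decide) (by decide) 1 (by norm_num) (by norm_num)
    (ms true false false false false) (ms true true true false false)
    (ms true false true true true) (good_ms _ _ _ _ _ _ (by decide))
    (good_ms _ _ _ _ _ _ (by decide))
  simp only [cost_ms_compl, cost_ms, cost_univ, thn, hw.w0, hw.w1, hw.w2, hw.w3, cond_true,
    cond_false, if_true, Nat.cast_ofNat, Nat.cast_one, div_one] at h1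
  rw [if_neg (by decide)] at h1
  rcases h1 with h1 | h1
  · left; linarith only [h1]
  · right; linarith only [h1]

theorem bd47 {v w : Fin 3 → Fin 5 → ℝ} {t : ℝ} (h : Fail v w t) (hw : Wt v w) :
    t < v 1 0 + v 1 1 + v 1 2 + v 1 3 + v 1 4 + v 2 0 + v 2 1 + v 2 3 + v 2 4 ∨ t < v 0 0 + v 0
    1 + v 0 2 + v 0 3 + v 0 4 + 1 / 2 * v 1 0 + 1 / 2 * v 1 1 + 1 / 2 * v 1 2 + 1 / 2 * v 1 3 +
    1 / 2 * v 1 4 + 1 / 2 * v 2 0 + 1 / 2 * v 2 1 + 1 / 2 * v 2 3 + 1 / 2 * v 2 4 := by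
  have h1 := h.D 2 1 0 (by decide) (by decide) (by decide) 2 (by decide) (by decide)
  simp only [cost_single_compl, cost_univ] at h1
  rcases h1 with h1 | h1
  · left; linarith only [h1]
  · right; linarith only [h1]

theorem bd48 {v w : Fin 3 → Fin 5 → ℝ} {t : ℝ} (h : Fail v w t) (hw : Wt v w) :
    t < v 0 0 + v 0 1 + v 0 2 + v 0 3 + v 0 4 + v 2 0 + v 2 1 + v 2 3 + v 2 4 ∨ t < 1 / 2 * v 0
    0 + 1 / 2 * v 0 1 + 1 / 2 * v 0 2 + 1 / 2 * v 0 3 + 1 / 2 * v 0 4 + v 1 0 + v 1 1 + v 1 2 +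
    v 1 3 + v 1 4 + 1 / 2 * v 2 0 + 1 / 2 * v 2 1 + 1 / 2 * v 2 3 + 1 / 2 * v 2 4 := by
  have h1 := h.D 2 0 1 (by decide) (by decide) (by decide) 2 (by decide) (by decide)
  simp only [cost_single_compl, cost_univ] at h1
  rcases h1 with h1 | h1
  · left; linarith only [h1]
  · right; linarith only [h1]

theorem bd49 {v w : Fin 3 → Fin 5 → ℝ} {t : ℝ} (h : Fail v w t) (hw : Wt v w) :
    t < v 0 1 + v 0 2 + v 0 4 + v 1 0 + v 1 1 + v 1 3 + v 1 4 + v 2 0 + v 2 1 + v 2 3 + v 2 4 ∨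
    t < v 0 0 + v 0 1 + v 0 2 + 4 * v 0 3 + v 0 4 + v 1 0 + v 1 1 + v 1 2 + v 1 3 + v 1 4 + v 2
    0 + v 2 1 + v 2 2 + v 2 3 + v 2 4 - 1 := by
  have h1 := h.M 1 2 0 (by decide) (by decide) (by decide) 3 (by norm_num) (by norm_num)
    (ms false false true false false) (ms false false true false false)
    (ms false true true false true) (good_ms _ _ _ _ _ _ (by decide))
    (good_ms _ _ _ _ _ _ (by decide))
  simp only [cost_ms_compl, cost_ms, cost_univ, thn, hw.w0, hw.w1, hw.w2, hw.w3, cond_true,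
    cond_false, if_true, Nat.cast_ofNat, Nat.cast_one, div_one] at h1
  rcases h1 with h1 | h1
  · left; linarith only [h1]
  · right; linarith only [h1]

theorem bd50 {v w : Fin 3 → Fin 5 → ℝ} {t : ℝ} (h : Fail v w t) (hw : Wt v w) :
    t < v 0 0 + v 0 1 + v 0 2 + v 0 4 + v 2 0 + v 2 1 + v 2 2 + v 2 3 + v 2 4 ∨ t < 1 / 2 * v 0
    0 + 1 / 2 * v 0 1 + 1 / 2 * v 0 2 + 1 / 2 * v 0 4 + v 1 0 + v 1 1 + v 1 2 + v 1 3 + v 1 4 +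
    1 / 2 * v 2 0 + 1 / 2 * v 2 1 + 1 / 2 * v 2 2 + 1 / 2 * v 2 3 + 1 / 2 * v 2 4 := by
  have h1 := h.D 0 2 1 (by decide) (by decide) (by decide) 3 (by decide) (by decide)
  simp only [cost_single_compl, cost_univ] at h1
  rcases h1 with h1 | h1
  · left; linarith only [h1]
  · right; linarith only [h1]

theorem bd51 {v w : Fin 3 → Fin 5 → ℝ} {t : ℝ} (h : Fail v w t) (hw : Wt v w) :
    t < v 0 0 + v 0 1 + v 0 2 + v 0 4 + v 1 0 + v 1 1 + v 1 2 + v 1 4 + v 2 0 + v 2 3 + v 2 4 ∨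
    t < v 0 0 + v 0 1 + v 0 2 + v 0 3 + v 0 4 + v 1 0 + v 1 1 + v 1 2 + v 1 3 + v 1 4 - 3 * v 2
    3 + v 2 4 - w 2 4 := by
  have h1 := h.M 0 1 2 (by decide) (by decide) (by decide) 4 (by norm_num) (by norm_num)
    (ms false false false true false) (ms false false false true false)
    (ms true false false true true) (good_ms _ _ _ _ _ _ (by decide))
    (good_ms _ _ _ _ _ _ (by decide))
  simp only [cost_ms_compl, cost_ms, cost_univ, thn, hw.w0, hw.w1, hw.w2, hw.w3, cond_true,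
    cond_false, if_true, Nat.cast_ofNat, Nat.cast_one, div_one] at h1
  rw [if_neg (by decide)] at h1
  rcases h1 with h1 | h1
  · left; linarith only [h1]
  · right; linarith only [h1]

theorem bd52 {v w : Fin 3 → Fin 5 → ℝ} {t : ℝ} (h : Fail v w t) (hw : Wt v w) :
    t < v 0 0 + v 0 1 + v 0 3 + v 0 4 + v 2 0 + v 2 1 + v 2 2 + v 2 3 + v 2 4 ∨ t < 1 / 2 * v 0
    0 + 1 / 2 * v 0 1 + 1 / 2 * v 0 3 + 1 / 2 * v 0 4 + v 1 0 + v 1 1 + v 1 2 + v 1 3 + v 1 4 +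
    1 / 2 * v 2 0 + 1 / 2 * v 2 1 + 1 / 2 * v 2 2 + 1 / 2 * v 2 3 + 1 / 2 * v 2 4 := by
  have h1 := h.D 0 2 1 (by decide) (by decide) (by decide) 2 (by decide) (by decide)
  simp only [cost_single_compl, cost_univ] at h1
  rcases h1 with h1 | h1
  · left; linarith only [h1]
  · right; linarith only [h1]

theorem bd53 {v w : Fin 3 → Fin 5 → ℝ} {t : ℝ} (h : Fail v w t) (hw : Wt v w) :
    t < v 0 0 + v 0 2 + v 0 3 + v 0 4 + 1 / 2 * v 1 0 + 1 / 2 * v 1 1 + 1 / 2 * v 1 2 + 1 / 2 *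
    v 1 3 + 1 / 2 * v 1 4 + 1 / 2 * v 2 0 + 1 / 2 * v 2 1 + 1 / 2 * v 2 2 + 1 / 2 * v 2 3 + 1 /
    2 * v 2 4 ∨ t < 1 / 2 * v 0 0 - 1 / 2 * v 0 2 - v 0 3 + v 0 4 + 5 / 4 * v 1 0 + 5 / 4 * v 1
    1 + 5 / 4 * v 1 2 + 5 / 4 * v 1 3 + 5 / 4 * v 1 4 + 1 / 2 * v 2 0 + 1 / 2 * v 2 1 + 1 / 2 *
    v 2 2 + 1 / 2 * v 2 3 + 1 / 2 * v 2 4 - 1 / 2 * w 0 4 ∨ t < 1 / 2 * v 0 0 - 1 / 2 * v 0 2 -
    v 0 3 + v 0 4 + 1 / 2 * v 1 0 + 1 / 2 * v 1 1 + 1 / 2 * v 1 2 + 1 / 2 * v 1 3 + 1 / 2 * v 1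
    4 + 5 / 4 * v 2 0 + 5 / 4 * v 2 1 + 5 / 4 * v 2 2 + 5 / 4 * v 2 3 + 5 / 4 * v 2 4 - 1 / 2 *
    w 0 4 ∨ t < -2 * v 0 2 - 3 * v 0 3 + v 0 4 + 5 / 4 * v 1 0 + 5 / 4 * v 1 1 + 5 / 4 * v 1 2
    + 5 / 4 * v 1 3 + 5 / 4 * v 1 4 + 5 / 4 * v 2 0 + 5 / 4 * v 2 1 + 5 / 4 * v 2 2 + 5 / 4 * v
    2 3 + 5 / 4 * v 2 4 - w 0 4 := by
  have h1 := h.S 1 2 0 (by decide) (by decide) (by decide) (ms true false true true true)
  simp only [cost_ms, cost_univ, hw.w0, hw.w1, hw.w2, hw.w3, cond_true, cond_false] at h1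
  have h2 := max2s _ _ _ _ _ _ h1
  rcases h2 with h1 | h1 | h1 | h1
  · left; linarith only [h1]
  · right; left; linarith only [h1]
  · right; right; left; linarith only [h1]
  · right; right; right; linarith only [h1]

theorem bd54 {v w : Fin 3 → Fin 5 → ℝ} {t : ℝ} (h : Fail v w t) (hw : Wt v w) :
    t < v 0 0 + v 0 1 + v 0 3 + v 0 4 + v 1 1 + v 1 3 + v 1 4 + v 2 0 + v 2 1 + v 2 2 + v 2 3 +
    v 2 4 ∨ t < v 0 0 + v 0 1 + v 0 2 + v 0 3 + v 0 4 - v 1 1 - 3 * v 1 3 + v 1 4 + v 2 0 + v 2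
    1 + v 2 2 + v 2 3 + v 2 4 - w 1 4 := by
  have h1 := h.M 2 0 1 (by decide) (by decide) (by decide) 3 (by norm_num) (by norm_num)
    (ms false false false false false) (ms false false true false false)
    (ms false true false true true) (good_ms _ _ _ _ _ _ (by decide))
    (good_ms _ _ _ _ _ _ (by decide))
  simp only [cost_ms_compl, cost_ms, cost_univ, thn, hw.w0, hw.w1, hw.w2, hw.w3, cond_true,
    cond_false, if_true, Nat.cast_ofNat, Nat.cast_one, div_one] at h1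
  rw [if_neg (by decide)] at h1
  rcases h1 with h1 | h1
  · left; linarith only [h1]
  · right; linarith only [h1]

theorem bd55 {v w : Fin 3 → Fin 5 → ℝ} {t : ℝ} (h : Fail v w t) (hw : Wt v w) :
    t < v 0 2 + v 0 3 + v 0 4 + v 1 0 + v 1 1 + v 1 2 + v 1 4 + v 2 0 + v 2 1 + v 2 2 + v 2 3 +
    v 2 4 ∨ t < v 0 0 + 2 * v 0 1 + v 0 2 + v 0 3 + v 0 4 + v 1 0 + v 1 1 + v 1 2 + v 1 3 + v 1
    4 + v 2 0 + v 2 1 + v 2 2 + v 2 3 + v 2 4 - 1 := by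
  have h1 := h.M 1 2 0 (by decide) (by decide) (by decide) 4 (by norm_num) (by norm_num)
    (ms false false false true false) (ms false false false false false)
    (ms false false true true true) (good_ms _ _ _ _ _ _ (by decide))
    (good_ms _ _ _ _ _ _ (by decide))
  simp only [cost_ms_compl, cost_ms, cost_univ, thn, hw.w0, hw.w1, hw.w2, hw.w3, cond_true,
    cond_false, if_true, Nat.cast_ofNat, Nat.cast_one, div_one] at h1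
  rcases h1 with h1 | h1
  · left; linarith only [h1]
  · right; linarith only [h1]

theorem bd56 {v w : Fin 3 → Fin 5 → ℝ} {t : ℝ} (h : Fail v w t) (hw : Wt v w) :
    t < v 0 3 + v 0 4 + v 1 0 + v 1 1 + v 1 2 + v 1 3 + v 1 4 + v 2 0 + v 2 1 + v 2 2 + v 2 3 +
    v 2 4 ∨ t < v 0 0 + 2 * v 0 1 + 3 * v 0 2 + v 0 3 + v 0 4 + v 1 0 + v 1 1 + v 1 2 + v 1 3 +
    v 1 4 + v 2 0 + v 2 1 + v 2 2 + v 2 3 + v 2 4 - 1 := by
  have h1 := h.M 1 2 0 (by decide) (by decide) (by decide) 1 (by norm_num) (by norm_num)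
    (ms false false false false false) (ms false false false false false)
    (ms false false false true true) (good_ms _ _ _ _ _ _ (by decide))
    (good_ms _ _ _ _ _ _ (by decide))
  simp only [cost_ms_compl, cost_ms, cost_univ, thn, hw.w0, hw.w1, hw.w2, hw.w3, cond_true,
    cond_false, if_true, Nat.cast_ofNat, Nat.cast_one, div_one] at h1
  rcases h1 with h1 | h1
  · left; linarith only [h1]
  · right; linarith only [h1]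

theorem bd57 {v w : Fin 3 → Fin 5 → ℝ} {t : ℝ} (h : Fail v w t) (hw : Wt v w) :
    t < v 0 1 + v 0 2 + v 0 3 + v 0 4 + v 1 0 + v 1 1 + v 1 2 + v 1 3 + v 1 4 + v 2 0 + v 2 1 +
    v 2 2 + v 2 4 ∨ t < v 0 0 + v 0 1 + v 0 2 + v 0 3 + v 0 4 + v 1 0 + v 1 1 + v 1 2 + v 1 3 +
    v 1 4 + v 2 0 + v 2 1 + v 2 2 + 2 * v 2 3 + v 2 4 - 1 := by
  have h1 := h.M 1 2 0 (by decide) (by decide) (by decide) 2 (by norm_num) (by norm_num)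
    (ms false false false false false) (ms false false false true false)
    (ms false true true true true) (good_ms _ _ _ _ _ _ (by decide))
    (good_ms _ _ _ _ _ _ (by decide))
  simp only [cost_ms_compl, cost_ms, cost_univ, thn, hw.w0, hw.w1, hw.w2, hw.w3, cond_true,
    cond_false, if_true, Nat.cast_ofNat, Nat.cast_one, div_one] at h1
  rcases h1 with h1 | h1
  · left; linarith only [h1]
  · right; linarith only [h1]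

theorem bd58 {v w : Fin 3 → Fin 5 → ℝ} {t : ℝ} (h : Fail v w t) (hw : Wt v w) :
    t < v 0 0 + v 0 2 + v 0 3 + v 0 4 + v 1 0 + v 1 1 + v 1 2 + v 1 3 + v 1 4 + v 2 0 + v 2 1 +
    v 2 2 + v 2 4 ∨ t < v 0 0 + v 0 1 + v 0 2 + v 0 3 + v 0 4 - v 1 1 - 2 * v 1 2 - 3 * v 1 3 +
    v 1 4 + v 2 0 + v 2 1 + v 2 2 + 2 * v 2 3 + v 2 4 - w 1 4 := by
  have h1 := h.M 2 0 1 (by decide) (by decide) (by decide) 2 (by norm_num) (by norm_num)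
    (ms false false false true false) (ms false true false false false)
    (ms true true true true true) (good_ms _ _ _ _ _ _ (by decide))
    (good_ms _ _ _ _ _ _ (by decide))
  simp only [cost_ms_compl, cost_ms, cost_univ, thn, hw.w0, hw.w1, hw.w2, hw.w3, cond_true,
    cond_false, if_true, Nat.cast_ofNat, Nat.cast_one, div_one] at h1
  rw [if_neg (by decide)] at h1
  rcases h1 with h1 | h1
  · left; linarith only [h1]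
  · right; linarith only [h1]

theorem bd59 {v w : Fin 3 → Fin 5 → ℝ} {t : ℝ} (h : Fail v w t) (hw : Wt v w) :
    t < v 1 0 + v 1 1 + v 1 2 + v 1 3 + v 1 4 + v 2 0 + v 2 1 + v 2 2 + v 2 4 ∨ t < v 0 0 + v 0
    1 + v 0 2 + v 0 3 + v 0 4 + 1 / 2 * v 1 0 + 1 / 2 * v 1 1 + 1 / 2 * v 1 2 + 1 / 2 * v 1 3 +
    1 / 2 * v 1 4 + 1 / 2 * v 2 0 + 1 / 2 * v 2 1 + 1 / 2 * v 2 2 + 1 / 2 * v 2 4 := by
  have h1 := h.D 2 1 0 (by decide) (by decide) (by decide) 3 (by decide) (by decide)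
  simp only [cost_single_compl, cost_univ] at h1
  rcases h1 with h1 | h1
  · left; linarith only [h1]
  · right; linarith only [h1]

theorem bd60 {v w : Fin 3 → Fin 5 → ℝ} {t : ℝ} (h : Fail v w t) (hw : Wt v w) :
    t < v 0 2 + v 0 3 + v 0 4 + v 1 0 + v 1 1 + v 1 2 + v 1 4 + v 2 0 + v 2 1 + v 2 2 + v 2 4 ∨
    t < v 0 0 + 2 * v 0 1 + v 0 2 + v 0 3 + v 0 4 + v 1 0 + v 1 1 + v 1 2 + v 1 3 + v 1 4 + v 2
    0 + v 2 1 + v 2 2 + v 2 3 + v 2 4 - 1 := by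
  have h1 := h.M 1 2 0 (by decide) (by decide) (by decide) 4 (by norm_num) (by norm_num)
    (ms false false false true false) (ms false false false true false)
    (ms false false true true true) (good_ms _ _ _ _ _ _ (by decide))
    (good_ms _ _ _ _ _ _ (by decide))
  simp only [cost_ms_compl, cost_ms, cost_univ, thn, hw.w0, hw.w1, hw.w2, hw.w3, cond_true,
    cond_false, if_true, Nat.cast_ofNat, Nat.cast_one, div_one] at h1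
  rcases h1 with h1 | h1
  · left; linarith only [h1]
  · right; linarith only [h1]

theorem bd61 {v w : Fin 3 → Fin 5 → ℝ} {t : ℝ} (h : Fail v w t) (hw : Wt v w) :
    t < 1 / 2 * v 0 0 + 1 / 2 * v 0 1 + 1 / 2 * v 0 2 + 1 / 2 * v 0 3 + 1 / 2 * v 0 4 + 1 / 2 *
    v 1 0 + 1 / 2 * v 1 1 + 1 / 2 * v 1 2 + 1 / 2 * v 1 3 + 1 / 2 * v 1 4 + v 2 0 + v 2 1 + v 2
    2 + v 2 3 + v 2 4 ∨ t < 5 / 4 * v 0 0 + 5 / 4 * v 0 1 + 5 / 4 * v 0 2 + 5 / 4 * v 0 3 + 5 /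
    4 * v 0 4 + 1 / 2 * v 1 0 + 1 / 2 * v 1 1 + 1 / 2 * v 1 2 + 1 / 2 * v 1 3 + 1 / 2 * v 1 4 +
    1 / 2 * v 2 0 - 1 / 2 * v 2 2 - v 2 3 + v 2 4 - 1 / 2 * w 2 4 ∨ t < 1 / 2 * v 0 0 + 1 / 2 *
    v 0 1 + 1 / 2 * v 0 2 + 1 / 2 * v 0 3 + 1 / 2 * v 0 4 + 5 / 4 * v 1 0 + 5 / 4 * v 1 1 + 5 /
    4 * v 1 2 + 5 / 4 * v 1 3 + 5 / 4 * v 1 4 + 1 / 2 * v 2 0 - 1 / 2 * v 2 2 - v 2 3 + v 2 4 -
    1 / 2 * w 2 4 ∨ t < 5 / 4 * v 0 0 + 5 / 4 * v 0 1 + 5 / 4 * v 0 2 + 5 / 4 * v 0 3 + 5 / 4 *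
    v 0 4 + 5 / 4 * v 1 0 + 5 / 4 * v 1 1 + 5 / 4 * v 1 2 + 5 / 4 * v 1 3 + 5 / 4 * v 1 4 - v 2
    1 - 2 * v 2 2 - 3 * v 2 3 + v 2 4 - w 2 4 := by
  have h1 := h.S 0 1 2 (by decide) (by decide) (by decide) (ms true true true true true)
  simp only [cost_ms, cost_univ, hw.w0, hw.w1, hw.w2, hw.w3, cond_true, cond_false] at h1
  have h2 := max2s _ _ _ _ _ _ h1
  rcases h2 with h1 | h1 | h1 | h1
  · left; linarith only [h1]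
  · right; left; linarith only [h1]
  · right; right; left; linarith only [h1]
  · right; right; right; linarith only [h1]

theorem bd62 {v w : Fin 3 → Fin 5 → ℝ} {t : ℝ} (h : Fail v w t) (hw : Wt v w) :
    t < 1 / 2 * v 0 0 + 1 / 2 * v 0 1 + 1 / 2 * v 0 2 + 1 / 2 * v 0 3 + 1 / 2 * v 0 4 + v 1 1 +
    v 1 2 + v 1 3 + v 1 4 + 1 / 2 * v 2 0 + 1 / 2 * v 2 1 + 1 / 2 * v 2 2 + 1 / 2 * v 2 3 + 1 /
    2 * v 2 4 ∨ t < 1 / 2 * v 0 0 + 1 / 2 * v 0 1 + 1 / 2 * v 0 2 + 1 / 2 * v 0 3 + 1 / 2 * v 0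
    4 - 1 / 2 * v 1 2 - v 1 3 + v 1 4 + 5 / 4 * v 2 0 + 5 / 4 * v 2 1 + 5 / 4 * v 2 2 + 5 / 4 *
    v 2 3 + 5 / 4 * v 2 4 - 1 / 2 * w 1 4 ∨ t < 5 / 4 * v 0 0 + 5 / 4 * v 0 1 + 5 / 4 * v 0 2 +
    5 / 4 * v 0 3 + 5 / 4 * v 0 4 - 1 / 2 * v 1 2 - v 1 3 + v 1 4 + 1 / 2 * v 2 0 + 1 / 2 * v 2
    1 + 1 / 2 * v 2 2 + 1 / 2 * v 2 3 + 1 / 2 * v 2 4 - 1 / 2 * w 1 4 ∨ t < 5 / 4 * v 0 0 + 5 /
    4 * v 0 1 + 5 / 4 * v 0 2 + 5 / 4 * v 0 3 + 5 / 4 * v 0 4 - v 1 1 - 2 * v 1 2 - 3 * v 1 3 +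
    v 1 4 + 5 / 4 * v 2 0 + 5 / 4 * v 2 1 + 5 / 4 * v 2 2 + 5 / 4 * v 2 3 + 5 / 4 * v 2 4 - w 1
    4 := by
  have h1 := h.S 2 0 1 (by decide) (by decide) (by decide) (ms false true true true true)
  simp only [cost_ms, cost_univ, hw.w0, hw.w1, hw.w2, hw.w3, cond_true, cond_false] at h1
  have h2 := max2s _ _ _ _ _ _ h1
  rcases h2 with h1 | h1 | h1 | h1
  · left; linarith only [h1]
  · right; left; linarith only [h1]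
  · right; right; left; linarith only [h1]
  · right; right; right; linarith only [h1]

theorem bd63 {v w : Fin 3 → Fin 5 → ℝ} {t : ℝ} (h : Fail v w t) (hw : Wt v w) :
    t < v 0 1 + v 0 2 + v 0 3 + v 0 4 + v 1 0 + v 1 2 + v 1 4 + v 2 0 + v 2 1 + v 2 2 + v 2 4 ∨
    t < v 0 0 + v 0 1 + v 0 2 + v 0 3 + v 0 4 + v 1 0 + v 1 1 + v 1 2 + 2 * v 1 3 + v 1 4 + v 2
    0 + v 2 1 + v 2 2 + 2 * v 2 3 + v 2 4 - 1 := by
  have h1 := h.M 1 2 0 (by decide) (by decide) (by decide) 2 (by norm_num) (by norm_num)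
    (ms false true false true false) (ms false false false true false)
    (ms false true true true true) (good_ms _ _ _ _ _ _ (by decide))
    (good_ms _ _ _ _ _ _ (by decide))
  simp only [cost_ms_compl, cost_ms, cost_univ, thn, hw.w0, hw.w1, hw.w2, hw.w3, cond_true,
    cond_false, if_true, Nat.cast_ofNat, Nat.cast_one, div_one] at h1
  rcases h1 with h1 | h1
  · left; linarith only [h1]
  · right; linarith only [h1]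

theorem bd64 {v w : Fin 3 → Fin 5 → ℝ} {t : ℝ} (h : Fail v w t) (hw : Wt v w) :
    t < v 0 2 + v 0 3 + v 0 4 + v 1 0 + v 1 2 + v 1 3 + v 1 4 + v 2 0 + v 2 2 + v 2 4 ∨ t < v 0
    0 + 2 * v 0 1 + v 0 2 + v 0 3 + v 0 4 + v 1 0 + v 1 1 + v 1 2 + v 1 3 + v 1 4 + v 2 0 + v 2
    1 + v 2 2 + 2 * v 2 3 + v 2 4 - 1 := by
  have h1 := h.M 1 2 0 (by decide) (by decide) (by decide) 2 (by norm_num) (by norm_num)
    (ms false true false false false) (ms false true false true false)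
    (ms false false true true true) (good_ms _ _ _ _ _ _ (by decide))
    (good_ms _ _ _ _ _ _ (by decide))
  simp only [cost_ms_compl, cost_ms, cost_univ, thn, hw.w0, hw.w1, hw.w2, hw.w3, cond_true,
    cond_false, if_true, Nat.cast_ofNat, Nat.cast_one, div_one] at h1
  rcases h1 with h1 | h1
  · left; linarith only [h1]
  · right; linarith only [h1]

theorem bd65 {v w : Fin 3 → Fin 5 → ℝ} {t : ℝ} (h : Fail v w t) (hw : Wt v w) :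
    t < 1 / 2 * v 0 0 + 1 / 2 * v 0 1 + 1 / 2 * v 0 2 + 1 / 2 * v 0 3 + 1 / 2 * v 0 4 + 1 / 2 *
    v 1 0 + 1 / 2 * v 1 1 + 1 / 2 * v 1 2 + 1 / 2 * v 1 3 + 1 / 2 * v 1 4 + v 2 1 + v 2 2 + v 2
    3 + v 2 4 ∨ t < 5 / 4 * v 0 0 + 5 / 4 * v 0 1 + 5 / 4 * v 0 2 + 5 / 4 * v 0 3 + 5 / 4 * v 0
    4 + 1 / 2 * v 1 0 + 1 / 2 * v 1 1 + 1 / 2 * v 1 2 + 1 / 2 * v 1 3 + 1 / 2 * v 1 4 - 1 / 2 *
    v 2 2 - v 2 3 + v 2 4 - 1 / 2 * w 2 4 ∨ t < 1 / 2 * v 0 0 + 1 / 2 * v 0 1 + 1 / 2 * v 0 2 +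
    1 / 2 * v 0 3 + 1 / 2 * v 0 4 + 5 / 4 * v 1 0 + 5 / 4 * v 1 1 + 5 / 4 * v 1 2 + 5 / 4 * v 1
    3 + 5 / 4 * v 1 4 - 1 / 2 * v 2 2 - v 2 3 + v 2 4 - 1 / 2 * w 2 4 ∨ t < 5 / 4 * v 0 0 + 5 /
    4 * v 0 1 + 5 / 4 * v 0 2 + 5 / 4 * v 0 3 + 5 / 4 * v 0 4 + 5 / 4 * v 1 0 + 5 / 4 * v 1 1 +
    5 / 4 * v 1 2 + 5 / 4 * v 1 3 + 5 / 4 * v 1 4 - v 2 1 - 2 * v 2 2 - 3 * v 2 3 + v 2 4 - w 2
    4 := by
  have h1 := h.S 0 1 2 (by decide) (by decide) (by decide) (ms false true true true true)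
  simp only [cost_ms, cost_univ, hw.w0, hw.w1, hw.w2, hw.w3, cond_true, cond_false] at h1
  have h2 := max2s _ _ _ _ _ _ h1
  rcases h2 with h1 | h1 | h1 | h1
  · left; linarith only [h1]
  · right; left; linarith only [h1]
  · right; right; left; linarith only [h1]
  · right; right; right; linarith only [h1]

theorem bd66 {v w : Fin 3 → Fin 5 → ℝ} {t : ℝ} (h : Fail v w t) (hw : Wt v w) :
    t < v 0 0 + v 0 1 + v 0 2 + v 0 3 + v 0 4 + v 2 0 + v 2 1 + v 2 2 + v 2 4 ∨ t < 1 / 2 * v 0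
    0 + 1 / 2 * v 0 1 + 1 / 2 * v 0 2 + 1 / 2 * v 0 3 + 1 / 2 * v 0 4 + v 1 0 + v 1 1 + v 1 2 +
    v 1 3 + v 1 4 + 1 / 2 * v 2 0 + 1 / 2 * v 2 1 + 1 / 2 * v 2 2 + 1 / 2 * v 2 4 := by
  have h1 := h.D 2 0 1 (by decide) (by decide) (by decide) 3 (by decide) (by decide)
  simp only [cost_single_compl, cost_univ] at h1
  rcases h1 with h1 | h1
  · left; linarith only [h1]
  · right; linarith only [h1]

theorem bd67 {v w : Fin 3 → Fin 5 → ℝ} {t : ℝ} (h : Fail v w t) (hw : Wt v w) :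
    t < v 0 3 + v 0 4 + 1 / 2 * v 1 0 + 1 / 2 * v 1 1 + 1 / 2 * v 1 2 + 1 / 2 * v 1 3 + 1 / 2 *
    v 1 4 + 1 / 2 * v 2 0 + 1 / 2 * v 2 1 + 1 / 2 * v 2 2 + 1 / 2 * v 2 3 + 1 / 2 * v 2 4 ∨ t <
    -v 0 3 + v 0 4 + 5 / 4 * v 1 0 + 5 / 4 * v 1 1 + 5 / 4 * v 1 2 + 5 / 4 * v 1 3 + 5 / 4 * v
    1 4 + 1 / 2 * v 2 0 + 1 / 2 * v 2 1 + 1 / 2 * v 2 2 + 1 / 2 * v 2 3 + 1 / 2 * v 2 4 - 1 / 2
    * w 0 4 ∨ t < -v 0 3 + v 0 4 + 1 / 2 * v 1 0 + 1 / 2 * v 1 1 + 1 / 2 * v 1 2 + 1 / 2 * v 1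
    3 + 1 / 2 * v 1 4 + 5 / 4 * v 2 0 + 5 / 4 * v 2 1 + 5 / 4 * v 2 2 + 5 / 4 * v 2 3 + 5 / 4 *
    v 2 4 - 1 / 2 * w 0 4 ∨ t < -3 * v 0 3 + v 0 4 + 5 / 4 * v 1 0 + 5 / 4 * v 1 1 + 5 / 4 * v
    1 2 + 5 / 4 * v 1 3 + 5 / 4 * v 1 4 + 5 / 4 * v 2 0 + 5 / 4 * v 2 1 + 5 / 4 * v 2 2 + 5 / 4
    * v 2 3 + 5 / 4 * v 2 4 - w 0 4 := by
  have h1 := h.S 1 2 0 (by decide) (by decide) (by decide) (ms false false false true true)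
  simp only [cost_ms, cost_univ, hw.w0, hw.w1, hw.w2, hw.w3, cond_true, cond_false] at h1
  have h2 := max2s _ _ _ _ _ _ h1
  rcases h2 with h1 | h1 | h1 | h1
  · left; linarith only [h1]
  · right; left; linarith only [h1]
  · right; right; left; linarith only [h1]
  · right; right; right; linarith only [h1]

theorem bd68 {v w : Fin 3 → Fin 5 → ℝ} {t : ℝ} (h : Fail v w t) (hw : Wt v w) :
    t < v 0 3 + v 0 4 + v 1 0 + v 1 1 + v 1 2 + v 1 3 + v 1 4 + v 2 0 + v 2 1 + v 2 2 + v 2 4 ∨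
    t < v 0 0 + 2 * v 0 1 + 3 * v 0 2 + v 0 3 + v 0 4 + v 1 0 + v 1 1 + v 1 2 + v 1 3 + v 1 4 +
    v 2 0 + v 2 1 + v 2 2 + v 2 3 + v 2 4 - 1 := by
  have h1 := h.M 1 2 0 (by decide) (by decide) (by decide) 4 (by norm_num) (by norm_num)
    (ms false false false false false) (ms false false false true false)
    (ms false false false true true) (good_ms _ _ _ _ _ _ (by decide))
    (good_ms _ _ _ _ _ _ (by decide))
  simp only [cost_ms_compl, cost_ms, cost_univ, thn, hw.w0, hw.w1, hw.w2, hw.w3, cond_true,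
    cond_false, if_true, Nat.cast_ofNat, Nat.cast_one, div_one] at h1
  rcases h1 with h1 | h1
  · left; linarith only [h1]
  · right; linarith only [h1]

theorem bd69 {v w : Fin 3 → Fin 5 → ℝ} {t : ℝ} (h : Fail v w t) (hw : Wt v w) :
    t < v 0 0 + v 0 2 + v 0 3 + v 0 4 + v 1 0 + v 1 1 + v 1 2 + v 1 3 + v 1 4 ∨ t < 1 / 2 * v 0
    0 + 1 / 2 * v 0 2 + 1 / 2 * v 0 3 + 1 / 2 * v 0 4 + 1 / 2 * v 1 0 + 1 / 2 * v 1 1 + 1 / 2 *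
    v 1 2 + 1 / 2 * v 1 3 + 1 / 2 * v 1 4 + v 2 0 + v 2 1 + v 2 2 + v 2 3 + v 2 4 := by
  have h1 := h.D 0 1 2 (by decide) (by decide) (by decide) 1 (by decide) (by decide)
  simp only [cost_single_compl, cost_univ] at h1
  rcases h1 with h1 | h1
  · left; linarith only [h1]
  · right; linarith only [h1]

theorem bd70 {v w : Fin 3 → Fin 5 → ℝ} {t : ℝ} (h : Fail v w t) (hw : Wt v w) :
    t < v 0 2 + v 0 3 + v 0 4 + v 1 0 + v 1 1 + v 1 3 + v 1 4 + v 2 0 + v 2 1 + v 2 2 + v 2 3 +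
    v 2 4 ∨ t < v 0 0 + 2 * v 0 1 + v 0 2 + v 0 3 + v 0 4 + v 1 0 + v 1 1 + v 1 2 + v 1 3 + v 1
    4 + v 2 0 + v 2 1 + v 2 2 + v 2 3 + v 2 4 - 1 := by
  have h1 := h.M 1 2 0 (by decide) (by decide) (by decide) 3 (by norm_num) (by norm_num)
    (ms false false true false false) (ms false false false false false)
    (ms false false true true true) (good_ms _ _ _ _ _ _ (by decide))
    (good_ms _ _ _ _ _ _ (by decide))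
  simp only [cost_ms_compl, cost_ms, cost_univ, thn, hw.w0, hw.w1, hw.w2, hw.w3, cond_true,
    cond_false, if_true, Nat.cast_ofNat, Nat.cast_one, div_one] at h1
  rcases h1 with h1 | h1
  · left; linarith only [h1]
  · right; linarith only [h1]

theorem bd71 {v w : Fin 3 → Fin 5 → ℝ} {t : ℝ} (h : Fail v w t) (hw : Wt v w) :
    t < 1 / 2 * v 0 0 + 1 / 2 * v 0 1 + 1 / 2 * v 0 2 + 1 / 2 * v 0 3 + 1 / 2 * v 0 4 + 1 / 2 *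
    v 1 0 + 1 / 2 * v 1 1 + 1 / 2 * v 1 2 + 1 / 2 * v 1 3 + 1 / 2 * v 1 4 + v 2 3 ∨ t < 5 / 4 *
    v 0 0 + 5 / 4 * v 0 1 + 5 / 4 * v 0 2 + 5 / 4 * v 0 3 + 5 / 4 * v 0 4 + 1 / 2 * v 1 0 + 1 /
    2 * v 1 1 + 1 / 2 * v 1 2 + 1 / 2 * v 1 3 + 1 / 2 * v 1 4 - v 2 3 ∨ t < 1 / 2 * v 0 0 + 1 /
    2 * v 0 1 + 1 / 2 * v 0 2 + 1 / 2 * v 0 3 + 1 / 2 * v 0 4 + 5 / 4 * v 1 0 + 5 / 4 * v 1 1 +
    5 / 4 * v 1 2 + 5 / 4 * v 1 3 + 5 / 4 * v 1 4 - v 2 3 ∨ t < 5 / 4 * v 0 0 + 5 / 4 * v 0 1 +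
    5 / 4 * v 0 2 + 5 / 4 * v 0 3 + 5 / 4 * v 0 4 + 5 / 4 * v 1 0 + 5 / 4 * v 1 1 + 5 / 4 * v 1
    2 + 5 / 4 * v 1 3 + 5 / 4 * v 1 4 - 3 * v 2 3 := by
  have h1 := h.S 0 1 2 (by decide) (by decide) (by decide) (ms false false false true false)
  simp only [cost_ms, cost_univ, hw.w0, hw.w1, hw.w2, hw.w3, cond_true, cond_false] at h1
  have h2 := max2s _ _ _ _ _ _ h1
  rcases h2 with h1 | h1 | h1 | h1
  · left; linarith only [h1]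
  · right; left; linarith only [h1]
  · right; right; left; linarith only [h1]
  · right; right; right; linarith only [h1]

theorem bd72 {v w : Fin 3 → Fin 5 → ℝ} {t : ℝ} (h : Fail v w t) (hw : Wt v w) :
    t < v 0 0 + v 0 1 + v 0 2 + v 0 3 + v 0 4 + v 1 1 + v 1 2 + v 1 4 + v 2 0 + v 2 1 + v 2 2 +
    v 2 4 ∨ t < v 0 0 + v 0 1 + v 0 2 + v 0 3 + v 0 4 - v 1 1 - 2 * v 1 2 + v 1 4 + v 2 0 + v 2
    1 + v 2 2 + v 2 3 + v 2 4 - w 1 4 := by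
  have h1 := h.M 2 0 1 (by decide) (by decide) (by decide) 4 (by norm_num) (by norm_num)
    (ms false false false true false) (ms false false false false false)
    (ms false true true false true) (good_ms _ _ _ _ _ _ (by decide))
    (good_ms _ _ _ _ _ _ (by decide))
  simp only [cost_ms_compl, cost_ms, cost_univ, thn, hw.w0, hw.w1, hw.w2, hw.w3, cond_true,
    cond_false, if_true, Nat.cast_ofNat, Nat.cast_one, div_one] at h1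
  rw [if_neg (by decide)] at h1
  rcases h1 with h1 | h1
  · left; linarith only [h1]
  · right; linarith only [h1]

theorem bd73 {v w : Fin 3 → Fin 5 → ℝ} {t : ℝ} (h : Fail v w t) (hw : Wt v w) :
    t < v 0 0 + v 0 1 + v 0 3 + v 0 4 + v 1 0 + v 1 1 + v 1 3 + v 1 4 + v 2 0 + v 2 1 + v 2 2 +
    v 2 4 ∨ t < v 0 0 + v 0 1 + v 0 2 + v 0 3 + v 0 4 + v 1 0 + v 1 1 + v 1 2 + v 1 3 + v 1 4 -
    v 2 1 - 2 * v 2 2 + v 2 4 - w 2 4 := by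
  have h1 := h.M 0 1 2 (by decide) (by decide) (by decide) 3 (by norm_num) (by norm_num)
    (ms false false true false false) (ms false false true false false)
    (ms true true true false true) (good_ms _ _ _ _ _ _ (by decide))
    (good_ms _ _ _ _ _ _ (by decide))
  simp only [cost_ms_compl, cost_ms, cost_univ, thn, hw.w0, hw.w1, hw.w2, hw.w3, cond_true,
    cond_false, if_true, Nat.cast_ofNat, Nat.cast_one, div_one] at h1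
  rw [if_neg (by decide)] at h1
  rcases h1 with h1 | h1
  · left; linarith only [h1]
  · right; linarith only [h1]

theorem bd74 {v w : Fin 3 → Fin 5 → ℝ} {t : ℝ} (h : Fail v w t) (hw : Wt v w) :
    t < v 0 1 + v 0 3 + v 0 4 + v 1 0 + v 1 1 + v 1 2 + v 1 4 + v 2 0 + v 2 1 + v 2 2 + v 2 4 ∨
    t < v 0 0 + v 0 1 + 3 * v 0 2 + v 0 3 + v 0 4 + v 1 0 + v 1 1 + v 1 2 + v 1 3 + v 1 4 + v 2
    0 + v 2 1 + v 2 2 + v 2 3 + v 2 4 - 1 := by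
  have h1 := h.M 1 2 0 (by decide) (by decide) (by decide) 4 (by norm_num) (by norm_num)
    (ms false false false true false) (ms false false false true false)
    (ms false true false true true) (good_ms _ _ _ _ _ _ (by decide))
    (good_ms _ _ _ _ _ _ (by decide))
  simp only [cost_ms_compl, cost_ms, cost_univ, thn, hw.w0, hw.w1, hw.w2, hw.w3, cond_true,
    cond_false, if_true, Nat.cast_ofNat, Nat.cast_one, div_one] at h1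
  rcases h1 with h1 | h1
  · left; linarith only [h1]
  · right; linarith only [h1]

theorem bd75 {v w : Fin 3 → Fin 5 → ℝ} {t : ℝ} (h : Fail v w t) (hw : Wt v w) :
    t < v 0 2 + v 0 4 + v 1 0 + v 1 1 + v 1 3 + v 1 4 + v 2 0 + v 2 1 + v 2 3 + v 2 4 ∨ t < v 0
    0 + 2 * v 0 1 + v 0 2 + 4 * v 0 3 + v 0 4 + v 1 0 + v 1 1 + v 1 2 + v 1 3 + v 1 4 + v 2 0 +
    v 2 1 + v 2 2 + v 2 3 + v 2 4 - 1 := by
  have h1 := h.M 1 2 0 (by decide) (by decide) (by decide) 3 (by norm_num) (by norm_num)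
    (ms false false true false false) (ms false false true false false)
    (ms false false true false true) (good_ms _ _ _ _ _ _ (by decide))
    (good_ms _ _ _ _ _ _ (by decide))
  simp only [cost_ms_compl, cost_ms, cost_univ, thn, hw.w0, hw.w1, hw.w2, hw.w3, cond_true,
    cond_false, if_true, Nat.cast_ofNat, Nat.cast_one, div_one] at h1
  rcases h1 with h1 | h1
  · left; linarith only [h1]
  · right; linarith only [h1]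

theorem bd76 {v w : Fin 3 → Fin 5 → ℝ} {t : ℝ} (h : Fail v w t) (hw : Wt v w) :
    t < v 0 0 + v 0 1 + v 0 3 + v 0 4 + v 1 0 + v 1 1 + v 1 3 + v 1 4 + v 2 1 + v 2 2 + v 2 4 ∨
    t < v 0 0 + v 0 1 + v 0 2 + v 0 3 + v 0 4 + v 1 0 + v 1 1 + v 1 2 + v 1 3 + v 1 4 - v 2 1 -
    2 * v 2 2 + v 2 4 - w 2 4 := by
  have h1 := h.M 0 1 2 (by decide) (by decide) (by decide) 3 (by norm_num) (by norm_num)
    (ms false false true false false) (ms false false true false false)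
    (ms false true true false true) (good_ms _ _ _ _ _ _ (by decide))
    (good_ms _ _ _ _ _ _ (by decide))
  simp only [cost_ms_compl, cost_ms, cost_univ, thn, hw.w0, hw.w1, hw.w2, hw.w3, cond_true,
    cond_false, if_true, Nat.cast_ofNat, Nat.cast_one, div_one] at h1
  rw [if_neg (by decide)] at h1
  rcases h1 with h1 | h1
  · left; linarith only [h1]
  · right; linarith only [h1]

theorem bd77 {v w : Fin 3 → Fin 5 → ℝ} {t : ℝ} (h : Fail v w t) (hw : Wt v w) :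
    t < v 0 3 + v 0 4 + v 1 0 + v 1 1 + v 1 2 + v 1 4 + v 2 0 + v 2 1 + v 2 2 + v 2 4 ∨ t < v 0
    0 + 2 * v 0 1 + 3 * v 0 2 + v 0 3 + v 0 4 + v 1 0 + v 1 1 + v 1 2 + v 1 3 + v 1 4 + v 2 0 +
    v 2 1 + v 2 2 + v 2 3 + v 2 4 - 1 := by
  have h1 := h.M 1 2 0 (by decide) (by decide) (by decide) 4 (by norm_num) (by norm_num)
    (ms false false false true false) (ms false false false true false)
    (ms false false false true true) (good_ms _ _ _ _ _ _ (by decide))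
    (good_ms _ _ _ _ _ _ (by decide))
  simp only [cost_ms_compl, cost_ms, cost_univ, thn, hw.w0, hw.w1, hw.w2, hw.w3, cond_true,
    cond_false, if_true, Nat.cast_ofNat, Nat.cast_one, div_one] at h1
  rcases h1 with h1 | h1
  · left; linarith only [h1]
  · right; linarith only [h1]

theorem bd78 {v w : Fin 3 → Fin 5 → ℝ} {t : ℝ} (h : Fail v w t) (hw : Wt v w) :
    t < v 0 0 + v 0 1 + v 0 3 + v 0 4 + v 1 1 + v 1 2 + v 1 4 + v 2 0 + v 2 1 + v 2 3 + v 2 4 ∨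
    t < v 0 0 + v 0 1 + v 0 2 + v 0 3 + v 0 4 - v 1 1 - 2 * v 1 2 + v 1 4 + v 2 0 + v 2 1 + v 2
    2 + v 2 3 + v 2 4 - w 1 4 := by
  have h1 := h.M 2 0 1 (by decide) (by decide) (by decide) 3 (by norm_num) (by norm_num)
    (ms false false true false false) (ms false false true false false)
    (ms false true true false true) (good_ms _ _ _ _ _ _ (by decide))
    (good_ms _ _ _ _ _ _ (by decide))
  simp only [cost_ms_compl, cost_ms, cost_univ, thn, hw.w0, hw.w1, hw.w2, hw.w3, cond_true,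
    cond_false, if_true, Nat.cast_ofNat, Nat.cast_one, div_one] at h1
  rw [if_neg (by decide)] at h1
  rcases h1 with h1 | h1
  · left; linarith only [h1]
  · right; linarith only [h1]

theorem bd79 {v w : Fin 3 → Fin 5 → ℝ} {t : ℝ} (h : Fail v w t) (hw : Wt v w) :
    t < v 0 2 + v 0 3 + v 0 4 + v 1 0 + v 1 2 + v 1 4 + v 2 0 + v 2 2 + v 2 4 ∨ t < v 0 0 + 2 *
    v 0 1 + v 0 2 + v 0 3 + v 0 4 + v 1 0 + v 1 1 + v 1 2 + 2 * v 1 3 + v 1 4 + v 2 0 + v 2 1 +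
    v 2 2 + 2 * v 2 3 + v 2 4 - 1 := by
  have h1 := h.M 1 2 0 (by decide) (by decide) (by decide) 2 (by norm_num) (by norm_num)
    (ms false true false true false) (ms false true false true false)
    (ms false false true true true) (good_ms _ _ _ _ _ _ (by decide))
    (good_ms _ _ _ _ _ _ (by decide))
  simp only [cost_ms_compl, cost_ms, cost_univ, thn, hw.w0, hw.w1, hw.w2, hw.w3, cond_true,
    cond_false, if_true, Nat.cast_ofNat, Nat.cast_one, div_one] at h1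
  rcases h1 with h1 | h1
  · left; linarith only [h1]
  · right; linarith only [h1]

theorem bd80 {v w : Fin 3 → Fin 5 → ℝ} {t : ℝ} (h : Fail v w t) (hw : Wt v w) :
    t < v 0 0 + v 0 1 + v 0 3 + v 0 4 + v 1 0 + v 1 1 + v 1 3 + v 1 4 + v 2 1 + v 2 2 + v 2 3 ∨
    t < v 0 0 + v 0 1 + v 0 2 + v 0 3 + v 0 4 + v 1 0 + v 1 1 + v 1 2 + v 1 3 + v 1 4 - v 2 1 -
    2 * v 2 2 - 3 * v 2 3 := by
  have h1 := h.M 0 1 2 (by decide) (by decide) (by decide) 3 (by norm_num) (by norm_num)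
    (ms false false true false false) (ms false false true false false)
    (ms false true true true false) (good_ms _ _ _ _ _ _ (by decide))
    (good_ms _ _ _ _ _ _ (by decide))
  simp only [cost_ms_compl, cost_ms, cost_univ, thn, hw.w0, hw.w1, hw.w2, hw.w3, cond_true,
    cond_false, if_true, Nat.cast_ofNat, Nat.cast_one, div_one] at h1
  rw [if_neg (by decide)] at h1
  rcases h1 with h1 | h1
  · left; linarith only [h1]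
  · right; linarith only [h1]

theorem bd81 {v w : Fin 3 → Fin 5 → ℝ} {t : ℝ} (h : Fail v w t) (hw : Wt v w) :
    t < v 0 0 + v 0 1 + v 0 3 + v 0 4 + v 1 3 + v 1 4 + v 2 0 + v 2 1 + v 2 3 + v 2 4 ∨ t < v 0
    0 + v 0 1 + v 0 2 + v 0 3 + v 0 4 - 3 * v 1 3 + v 1 4 + v 2 0 + v 2 1 + v 2 2 + v 2 3 + v 2
    4 - w 1 4 := by
  have h1 := h.M 2 0 1 (by decide) (by decide) (by decide) 3 (by norm_num) (by norm_num)
    (ms false false true false false) (ms false false true false false)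
    (ms false false false true true) (good_ms _ _ _ _ _ _ (by decide))
    (good_ms _ _ _ _ _ _ (by decide))
  simp only [cost_ms_compl, cost_ms, cost_univ, thn, hw.w0, hw.w1, hw.w2, hw.w3, cond_true,
    cond_false, if_true, Nat.cast_ofNat, Nat.cast_one, div_one] at h1
  rw [if_neg (by decide)] at h1
  rcases h1 with h1 | h1
  · left; linarith only [h1]
  · right; linarith only [h1]

theorem bd82 {v w : Fin 3 → Fin 5 → ℝ} {t : ℝ} (h : Fail v w t) (hw : Wt v w) :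
    t < v 0 0 + v 0 2 + v 0 3 + v 0 4 + v 1 2 + v 1 4 + v 2 0 + v 2 1 + v 2 2 + v 2 4 ∨ t < v 0
    0 + v 0 1 + v 0 2 + v 0 3 + v 0 4 - 2 * v 1 2 + v 1 4 + v 2 0 + v 2 1 + v 2 2 + 2 * v 2 3 +
    v 2 4 - w 1 4 := by
  have h1 := h.M 2 0 1 (by decide) (by decide) (by decide) 2 (by norm_num) (by norm_num)
    (ms false false false true false) (ms false true false false false)
    (ms false false true false true) (good_ms _ _ _ _ _ _ (by decide))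
    (good_ms _ _ _ _ _ _ (by decide))
  simp only [cost_ms_compl, cost_ms, cost_univ, thn, hw.w0, hw.w1, hw.w2, hw.w3, cond_true,
    cond_false, if_true, Nat.cast_ofNat, Nat.cast_one, div_one] at h1
  rw [if_neg (by decide)] at h1
  rcases h1 with h1 | h1
  · left; linarith only [h1]
  · right; linarith only [h1]

theorem bd83 {v w : Fin 3 → Fin 5 → ℝ} {t : ℝ} (h : Fail v w t) (hw : Wt v w) :
    t < v 0 0 + v 0 1 + v 0 2 + v 0 3 + v 0 4 + v 1 4 + v 2 0 + v 2 1 + v 2 2 + v 2 4 ∨ t < v 0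
    0 + v 0 1 + v 0 2 + v 0 3 + v 0 4 + v 1 4 + v 2 0 + v 2 1 + v 2 2 + v 2 3 + v 2 4 - w 1 4
    := by
  have h1 := h.M 2 0 1 (by decide) (by decide) (by decide) 4 (by norm_num) (by norm_num)
    (ms false false false true false) (ms false false false false false)
    (ms false false false false true) (good_ms _ _ _ _ _ _ (by decide))
    (good_ms _ _ _ _ _ _ (by decide))
  simp only [cost_ms_compl, cost_ms, cost_univ, thn, hw.w0, hw.w1, hw.w2, hw.w3, cond_true,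
    cond_false, if_true, Nat.cast_ofNat, Nat.cast_one, div_one] at h1
  rw [if_neg (by decide)] at h1
  rcases h1 with h1 | h1
  · left; linarith only [h1]
  · right; linarith only [h1]

theorem bd84 {v w : Fin 3 → Fin 5 → ℝ} {t : ℝ} (h : Fail v w t) (hw : Wt v w) :
    t < v 0 1 + v 0 2 + v 0 3 + v 0 4 + v 1 0 + v 1 3 + v 1 4 + v 2 1 + v 2 2 + v 2 3 + v 2 4 ∨
    t < v 0 0 + v 0 1 + v 0 2 + v 0 3 + v 0 4 + v 1 0 + 2 * v 1 1 + 3 * v 1 2 + v 1 3 + v 1 4 +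
    v 2 0 + v 2 1 + v 2 2 + v 2 3 + v 2 4 - 1 := by
  have h1 := h.M 1 2 0 (by decide) (by decide) (by decide) 1 (by norm_num) (by norm_num)
    (ms false true true false false) (ms true false false false false)
    (ms false true true true true) (good_ms _ _ _ _ _ _ (by decide))
    (good_ms _ _ _ _ _ _ (by decide))
  simp only [cost_ms_compl, cost_ms, cost_univ, thn, hw.w0, hw.w1, hw.w2, hw.w3, cond_true,
    cond_false, if_true, Nat.cast_ofNat, Nat.cast_one, div_one] at h1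
  rcases h1 with h1 | h1
  · left; linarith only [h1]
  · right; linarith only [h1]

theorem bd85 {v w : Fin 3 → Fin 5 → ℝ} {t : ℝ} (h : Fail v w t) (hw : Wt v w) :
    t < v 0 1 + v 0 2 + v 0 3 + v 0 4 + v 1 0 + v 1 2 + v 1 3 + v 1 4 + v 2 0 + v 2 1 + v 2 2 +
    v 2 4 ∨ t < v 0 0 + v 0 1 + v 0 2 + v 0 3 + v 0 4 + v 1 0 + v 1 1 + v 1 2 + v 1 3 + v 1 4 +
    v 2 0 + v 2 1 + v 2 2 + 2 * v 2 3 + v 2 4 - 1 := by
  have h1 := h.M 1 2 0 (by decide) (by decide) (by decide) 2 (by norm_num) (by norm_num)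
    (ms false true false false false) (ms false false false true false)
    (ms false true true true true) (good_ms _ _ _ _ _ _ (by decide))
    (good_ms _ _ _ _ _ _ (by decide))
  simp only [cost_ms_compl, cost_ms, cost_univ, thn, hw.w0, hw.w1, hw.w2, hw.w3, cond_true,
    cond_false, if_true, Nat.cast_ofNat, Nat.cast_one, div_one] at h1
  rcases h1 with h1 | h1
  · left; linarith only [h1]
  · right; linarith only [h1]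

theorem bd86 {v w : Fin 3 → Fin 5 → ℝ} {t : ℝ} (h : Fail v w t) (hw : Wt v w) :
    t < v 0 0 + v 0 1 + v 0 2 + v 0 3 + v 0 4 + v 1 0 + v 1 1 + v 1 3 + v 1 4 + v 2 2 + v 2 3 +
    v 2 4 ∨ t < v 0 0 + v 0 1 + v 0 2 + v 0 3 + v 0 4 + v 1 0 + v 1 1 + v 1 2 + v 1 3 + v 1 4 -
    2 * v 2 2 - 3 * v 2 3 + v 2 4 - w 2 4 := by
  have h1 := h.M 0 1 2 (by decide) (by decide) (by decide) 3 (by norm_num) (by norm_num)
    (ms false false false false false) (ms false false true false false)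
    (ms false false true true true) (good_ms _ _ _ _ _ _ (by decide))
    (good_ms _ _ _ _ _ _ (by decide))
  simp only [cost_ms_compl, cost_ms, cost_univ, thn, hw.w0, hw.w1, hw.w2, hw.w3, cond_true,
    cond_false, if_true, Nat.cast_ofNat, Nat.cast_one, div_one] at h1
  rw [if_neg (by decide)] at h1
  rcases h1 with h1 | h1
  · left; linarith only [h1]
  · right; linarith only [h1]

theorem bd87 {v w : Fin 3 → Fin 5 → ℝ} {t : ℝ} (h : Fail v w t) (hw : Wt v w) :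
    t < v 0 2 + v 0 3 + v 0 4 + v 1 0 + v 1 1 + v 1 3 + v 1 4 + v 2 0 + v 2 1 + v 2 3 + v 2 4 ∨
    t < v 0 0 + 2 * v 0 1 + v 0 2 + v 0 3 + v 0 4 + v 1 0 + v 1 1 + v 1 2 + v 1 3 + v 1 4 + v 2
    0 + v 2 1 + v 2 2 + v 2 3 + v 2 4 - 1 := by
  have h1 := h.M 1 2 0 (by decide) (by decide) (by decide) 3 (by norm_num) (by norm_num)
    (ms false false true false false) (ms false false true false false)
    (ms false false true true true) (good_ms _ _ _ _ _ _ (by decide))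
    (good_ms _ _ _ _ _ _ (by decide))
  simp only [cost_ms_compl, cost_ms, cost_univ, thn, hw.w0, hw.w1, hw.w2, hw.w3, cond_true,
    cond_false, if_true, Nat.cast_ofNat, Nat.cast_one, div_one] at h1
  rcases h1 with h1 | h1
  · left; linarith only [h1]
  · right; linarith only [h1]

theorem bd88 {v w : Fin 3 → Fin 5 → ℝ} {t : ℝ} (h : Fail v w t) (hw : Wt v w) :
    t < v 0 0 + v 0 1 + v 0 2 + v 0 4 + v 1 1 + v 1 2 + v 1 3 + v 1 4 + v 2 0 + v 2 2 + v 2 4 ∨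
    t < v 0 0 + v 0 1 + v 0 2 + 2 * v 0 3 + v 0 4 - v 1 1 - 2 * v 1 2 - 3 * v 1 3 + v 1 4 + v 2
    0 + v 2 1 + v 2 2 + 2 * v 2 3 + v 2 4 - w 1 4 := by
  have h1 := h.M 2 0 1 (by decide) (by decide) (by decide) 2 (by norm_num) (by norm_num)
    (ms false true false true false) (ms false false false true false)
    (ms false true true true true) (good_ms _ _ _ _ _ _ (by decide))
    (good_ms _ _ _ _ _ _ (by decide))
  simp only [cost_ms_compl, cost_ms, cost_univ, thn, hw.w0, hw.w1, hw.w2, hw.w3, cond_true,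
    cond_false, if_true, Nat.cast_ofNat, Nat.cast_one, div_one] at h1
  rw [if_neg (by decide)] at h1
  rcases h1 with h1 | h1
  · left; linarith only [h1]
  · right; linarith only [h1]

theorem bd89 {v w : Fin 3 → Fin 5 → ℝ} {t : ℝ} (h : Fail v w t) (hw : Wt v w) :
    t < v 0 0 + v 0 1 + v 0 3 + v 0 4 + v 1 0 + v 1 1 + v 1 3 + v 1 4 + v 2 0 + v 2 3 ∨ t < v 0
    0 + v 0 1 + v 0 2 + v 0 3 + v 0 4 + v 1 0 + v 1 1 + v 1 2 + v 1 3 + v 1 4 - 3 * v 2 3 := by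
  have h1 := h.M 0 1 2 (by decide) (by decide) (by decide) 3 (by norm_num) (by norm_num)
    (ms false false true false false) (ms false false true false false)
    (ms true false false true false) (good_ms _ _ _ _ _ _ (by decide))
    (good_ms _ _ _ _ _ _ (by decide))
  simp only [cost_ms_compl, cost_ms, cost_univ, thn, hw.w0, hw.w1, hw.w2, hw.w3, cond_true,
    cond_false, if_true, Nat.cast_ofNat, Nat.cast_one, div_one] at h1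
  rw [if_neg (by decide)] at h1
  rcases h1 with h1 | h1
  · left; linarith only [h1]
  · right; linarith only [h1]

theorem bd90 {v w : Fin 3 → Fin 5 → ℝ} {t : ℝ} (h : Fail v w t) (hw : Wt v w) :
    t < v 0 0 + v 0 1 + v 0 2 + v 0 3 + v 0 4 + v 1 1 + v 1 3 + v 1 4 + v 2 0 + v 2 1 + v 2 2 +
    v 2 4 ∨ t < v 0 0 + v 0 1 + v 0 2 + v 0 3 + v 0 4 - v 1 1 - 3 * v 1 3 + v 1 4 + v 2 0 + v 2
    1 + v 2 2 + v 2 3 + v 2 4 - w 1 4 := by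
  have h1 := h.M 2 0 1 (by decide) (by decide) (by decide) 4 (by norm_num) (by norm_num)
    (ms false false false true false) (ms false false false false false)
    (ms false true false true true) (good_ms _ _ _ _ _ _ (by decide))
    (good_ms _ _ _ _ _ _ (by decide))
  simp only [cost_ms_compl, cost_ms, cost_univ, thn, hw.w0, hw.w1, hw.w2, hw.w3, cond_true,
    cond_false, if_true, Nat.cast_ofNat, Nat.cast_one, div_one] at h1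
  rw [if_neg (by decide)] at h1
  rcases h1 with h1 | h1
  · left; linarith only [h1]
  · right; linarith only [h1]

theorem bd91 {v w : Fin 3 → Fin 5 → ℝ} {t : ℝ} (h : Fail v w t) (hw : Wt v w) :
    t < v 0 0 + v 0 1 + v 0 3 + v 0 4 + v 1 1 + v 1 3 + v 1 4 + v 2 0 + v 2 1 + v 2 3 + v 2 4 ∨
    t < v 0 0 + v 0 1 + v 0 2 + v 0 3 + v 0 4 - v 1 1 - 3 * v 1 3 + v 1 4 + v 2 0 + v 2 1 + v 2
    2 + v 2 3 + v 2 4 - w 1 4 := by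
  have h1 := h.M 2 0 1 (by decide) (by decide) (by decide) 3 (by norm_num) (by norm_num)
    (ms false false true false false) (ms false false true false false)
    (ms false true false true true) (good_ms _ _ _ _ _ _ (by decide))
    (good_ms _ _ _ _ _ _ (by decide))
  simp only [cost_ms_compl, cost_ms, cost_univ, thn, hw.w0, hw.w1, hw.w2, hw.w3, cond_true,
    cond_false, if_true, Nat.cast_ofNat, Nat.cast_one, div_one] at h1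
  rw [if_neg (by decide)] at h1
  rcases h1 with h1 | h1
  · left; linarith only [h1]
  · right; linarith only [h1]

theorem bd92 {v w : Fin 3 → Fin 5 → ℝ} {t : ℝ} (h : Fail v w t) (hw : Wt v w) :
    t < v 0 0 + v 0 2 + v 0 3 + v 0 4 + v 1 0 + v 1 1 + v 1 2 + v 1 4 + v 2 0 + v 2 1 + v 2 2 +
    v 2 4 ∨ t < v 0 0 + 2 * v 0 1 + v 0 2 + v 0 3 + v 0 4 + v 1 0 + v 1 1 + v 1 2 + v 1 3 + v 1
    4 + v 2 0 + v 2 1 + v 2 2 + v 2 3 + v 2 4 - 1 := by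
  have h1 := h.M 1 2 0 (by decide) (by decide) (by decide) 4 (by norm_num) (by norm_num)
    (ms false false false true false) (ms false false false true false)
    (ms true false true true true) (good_ms _ _ _ _ _ _ (by decide))
    (good_ms _ _ _ _ _ _ (by decide))
  simp only [cost_ms_compl, cost_ms, cost_univ, thn, hw.w0, hw.w1, hw.w2, hw.w3, cond_true,
    cond_false, if_true, Nat.cast_ofNat, Nat.cast_one, div_one] at h1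
  rcases h1 with h1 | h1
  · left; linarith only [h1]
  · right; linarith only [h1]

theorem bd93 {v w : Fin 3 → Fin 5 → ℝ} {t : ℝ} (h : Fail v w t) (hw : Wt v w) :
    t < v 0 2 + v 0 3 + v 0 4 + v 1 0 + v 1 2 + v 1 4 + v 2 0 + v 2 1 + v 2 2 + v 2 4 ∨ t < v 0
    0 + 2 * v 0 1 + v 0 2 + v 0 3 + v 0 4 + v 1 0 + v 1 1 + v 1 2 + 2 * v 1 3 + v 1 4 + v 2 0 +
    v 2 1 + v 2 2 + 2 * v 2 3 + v 2 4 - 1 := by
  have h1 := h.M 1 2 0 (by decide) (by decide) (by decide) 2 (by norm_num) (by norm_num)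
    (ms false true false true false) (ms false false false true false)
    (ms false false true true true) (good_ms _ _ _ _ _ _ (by decide))
    (good_ms _ _ _ _ _ _ (by decide))
  simp only [cost_ms_compl, cost_ms, cost_univ, thn, hw.w0, hw.w1, hw.w2, hw.w3, cond_true,
    cond_false, if_true, Nat.cast_ofNat, Nat.cast_one, div_one] at h1
  rcases h1 with h1 | h1
  · left; linarith only [h1]
  · right; linarith only [h1]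

theorem bd94 {v w : Fin 3 → Fin 5 → ℝ} {t : ℝ} (h : Fail v w t) (hw : Wt v w) :
    t < v 0 1 + v 0 3 + v 0 4 + v 1 0 + v 1 1 + v 1 3 + v 1 4 + v 2 0 + v 2 1 + v 2 2 + v 2 3 +
    v 2 4 ∨ t < v 0 0 + v 0 1 + 3 * v 0 2 + v 0 3 + v 0 4 + v 1 0 + v 1 1 + v 1 2 + v 1 3 + v 1
    4 + v 2 0 + v 2 1 + v 2 2 + v 2 3 + v 2 4 - 1 := by
  have h1 := h.M 1 2 0 (by decide) (by decide) (by decide) 3 (by norm_num) (by norm_num)
    (ms false false true false false) (ms false false false false false)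
    (ms false true false true true) (good_ms _ _ _ _ _ _ (by decide))
    (good_ms _ _ _ _ _ _ (by decide))
  simp only [cost_ms_compl, cost_ms, cost_univ, thn, hw.w0, hw.w1, hw.w2, hw.w3, cond_true,
    cond_false, if_true, Nat.cast_ofNat, Nat.cast_one, div_one] at h1
  rcases h1 with h1 | h1
  · left; linarith only [h1]
  · right; linarith only [h1]

theorem bd95 {v w : Fin 3 → Fin 5 → ℝ} {t : ℝ} (h : Fail v w t) (hw : Wt v w) :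
    t < v 0 0 + v 0 2 + v 0 3 + v 0 4 + v 1 0 + v 1 2 + v 1 4 + v 2 1 + v 2 2 + v 2 3 ∨ t < v 0
    0 + v 0 1 + v 0 2 + v 0 3 + v 0 4 + v 1 0 + v 1 1 + v 1 2 + 2 * v 1 3 + v 1 4 - v 2 1 - 2 *
    v 2 2 - 3 * v 2 3 := by
  have h1 := h.M 0 1 2 (by decide) (by decide) (by decide) 2 (by norm_num) (by norm_num)
    (ms false true false false false) (ms false true false true false)
    (ms false true true true false) (good_ms _ _ _ _ _ _ (by decide))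
    (good_ms _ _ _ _ _ _ (by decide))
  simp only [cost_ms_compl, cost_ms, cost_univ, thn, hw.w0, hw.w1, hw.w2, hw.w3, cond_true,
    cond_false, if_true, Nat.cast_ofNat, Nat.cast_one, div_one] at h1
  rw [if_neg (by decide)] at h1
  rcases h1 with h1 | h1
  · left; linarith only [h1]
  · right; linarith only [h1]

theorem bd96 {v w : Fin 3 → Fin 5 → ℝ} {t : ℝ} (h : Fail v w t) (hw : Wt v w) :
    t < v 0 0 + v 0 1 + v 0 3 + v 0 4 + v 1 0 + v 1 1 + v 1 2 + v 1 3 + v 1 4 + v 2 1 + v 2 2 +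
    v 2 4 ∨ t < v 0 0 + v 0 1 + v 0 2 + v 0 3 + v 0 4 + v 1 0 + v 1 1 + v 1 2 + v 1 3 + v 1 4 -
    v 2 1 - 2 * v 2 2 + v 2 4 - w 2 4 := by
  have h1 := h.M 0 1 2 (by decide) (by decide) (by decide) 3 (by norm_num) (by norm_num)
    (ms false false true false false) (ms false false false false false)
    (ms false true true false true) (good_ms _ _ _ _ _ _ (by decide))
    (good_ms _ _ _ _ _ _ (by decide))
  simp only [cost_ms_compl, cost_ms, cost_univ, thn, hw.w0, hw.w1, hw.w2, hw.w3, cond_true,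
    cond_false, if_true, Nat.cast_ofNat, Nat.cast_one, div_one] at h1
  rw [if_neg (by decide)] at h1
  rcases h1 with h1 | h1
  · left; linarith only [h1]
  · right; linarith only [h1]

theorem bd97 {v w : Fin 3 → Fin 5 → ℝ} {t : ℝ} (h : Fail v w t) (hw : Wt v w) :
    t < v 0 0 + v 0 3 + v 0 4 + v 1 0 + v 1 1 + v 1 2 + v 1 4 + v 2 0 + v 2 1 + v 2 2 + v 2 4 ∨
    t < v 0 0 + 2 * v 0 1 + 3 * v 0 2 + v 0 3 + v 0 4 + v 1 0 + v 1 1 + v 1 2 + v 1 3 + v 1 4 +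
    v 2 0 + v 2 1 + v 2 2 + v 2 3 + v 2 4 - 1 := by
  have h1 := h.M 1 2 0 (by decide) (by decide) (by decide) 4 (by norm_num) (by norm_num)
    (ms false false false true false) (ms false false false true false)
    (ms true false false true true) (good_ms _ _ _ _ _ _ (by decide))
    (good_ms _ _ _ _ _ _ (by decide))
  simp only [cost_ms_compl, cost_ms, cost_univ, thn, hw.w0, hw.w1, hw.w2, hw.w3, cond_true,
    cond_false, if_true, Nat.cast_ofNat, Nat.cast_one, div_one] at h1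
  rcases h1 with h1 | h1
  · left; linarith only [h1]
  · right; linarith only [h1]

theorem bd98 {v w : Fin 3 → Fin 5 → ℝ} {t : ℝ} (h : Fail v w t) (hw : Wt v w) :
    t < v 0 0 + v 0 1 + v 0 2 + v 0 3 + v 0 4 + v 1 0 + v 1 2 + v 1 3 + v 1 4 ∨ t < 1 / 2 * v 0
    0 + 1 / 2 * v 0 1 + 1 / 2 * v 0 2 + 1 / 2 * v 0 3 + 1 / 2 * v 0 4 + 1 / 2 * v 1 0 + 1 / 2 *
    v 1 2 + 1 / 2 * v 1 3 + 1 / 2 * v 1 4 + v 2 0 + v 2 1 + v 2 2 + v 2 3 + v 2 4 := by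
  have h1 := h.D 1 0 2 (by decide) (by decide) (by decide) 1 (by decide) (by decide)
  simp only [cost_single_compl, cost_univ] at h1
  rcases h1 with h1 | h1
  · left; linarith only [h1]
  · right; linarith only [h1]

theorem bd99 {v w : Fin 3 → Fin 5 → ℝ} {t : ℝ} (h : Fail v w t) (hw : Wt v w) :
    t < v 0 0 + v 0 1 + v 0 2 + v 0 3 + v 0 4 + v 1 0 + v 1 2 + v 1 3 + v 1 4 + v 2 1 + v 2 3 +
    v 2 4 ∨ t < v 0 0 + v 0 1 + v 0 2 + v 0 3 + v 0 4 + v 1 0 + v 1 1 + v 1 2 + v 1 3 + v 1 4 -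
    v 2 1 - 3 * v 2 3 + v 2 4 - w 2 4 := by
  have h1 := h.M 0 1 2 (by decide) (by decide) (by decide) 2 (by norm_num) (by norm_num)
    (ms false false false false false) (ms false true false false false)
    (ms false true false true true) (good_ms _ _ _ _ _ _ (by decide))
    (good_ms _ _ _ _ _ _ (by decide))
  simp only [cost_ms_compl, cost_ms, cost_univ, thn, hw.w0, hw.w1, hw.w2, hw.w3, cond_true,
    cond_false, if_true, Nat.cast_ofNat, Nat.cast_one, div_one] at h1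
  rw [if_neg (by decide)] at h1
  rcases h1 with h1 | h1
  · left; linarith only [h1]
  · right; linarith only [h1]

theorem bd100 {v w : Fin 3 → Fin 5 → ℝ} {t : ℝ} (h : Fail v w t) (hw : Wt v w) :
    t < v 0 0 + v 0 1 + v 0 2 + v 0 3 + v 0 4 + v 1 0 + v 1 2 + v 1 3 + v 1 4 + v 2 0 + v 2 2 +
    v 2 4 ∨ t < v 0 0 + v 0 1 + v 0 2 + v 0 3 + v 0 4 + v 1 0 + v 1 1 + v 1 2 + v 1 3 + v 1 4 +
    v 2 0 + v 2 1 + v 2 2 + 2 * v 2 3 + v 2 4 - 1 := by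
  have h1 := h.M 1 2 0 (by decide) (by decide) (by decide) 2 (by norm_num) (by norm_num)
    (ms false true false false false) (ms false true false true false)
    (ms true true true true true) (good_ms _ _ _ _ _ _ (by decide))
    (good_ms _ _ _ _ _ _ (by decide))
  simp only [cost_ms_compl, cost_ms, cost_univ, thn, hw.w0, hw.w1, hw.w2, hw.w3, cond_true,
    cond_false, if_true, Nat.cast_ofNat, Nat.cast_one, div_one] at h1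
  rcases h1 with h1 | h1
  · left; linarith only [h1]
  · right; linarith only [h1]

theorem bd101 {v w : Fin 3 → Fin 5 → ℝ} {t : ℝ} (h : Fail v w t) (hw : Wt v w) :
    t < v 0 0 + v 0 1 + v 0 2 + v 0 3 + v 0 4 + v 1 3 + v 1 4 + v 2 1 + v 2 2 + v 2 3 + v 2 4 ∨
    t < v 0 0 + v 0 1 + v 0 2 + v 0 3 + v 0 4 + v 1 0 + 2 * v 1 1 + 3 * v 1 2 + v 1 3 + v 1 4 +
    v 2 0 + v 2 1 + v 2 2 + v 2 3 + v 2 4 - 1 := by
  have h1 := h.M 1 2 0 (by decide) (by decide) (by decide) 1 (by norm_num) (by norm_num)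
    (ms true true true false false) (ms true false false false false)
    (ms true true true true true) (good_ms _ _ _ _ _ _ (by decide))
    (good_ms _ _ _ _ _ _ (by decide))
  simp only [cost_ms_compl, cost_ms, cost_univ, thn, hw.w0, hw.w1, hw.w2, hw.w3, cond_true,
    cond_false, if_true, Nat.cast_ofNat, Nat.cast_one, div_one] at h1
  rcases h1 with h1 | h1
  · left; linarith only [h1]
  · right; linarith only [h1]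

theorem bd102 {v w : Fin 3 → Fin 5 → ℝ} {t : ℝ} (h : Fail v w t) (hw : Wt v w) :
    t < v 0 0 + v 0 2 + v 0 3 + v 0 4 + v 1 0 + v 1 2 + v 1 4 + v 2 1 + v 2 2 + v 2 3 + v 2 4 ∨
    t < v 0 0 + v 0 1 + v 0 2 + v 0 3 + v 0 4 + v 1 0 + v 1 1 + v 1 2 + 2 * v 1 3 + v 1 4 - v 2
    1 - 2 * v 2 2 - 3 * v 2 3 + v 2 4 - w 2 4 := by
  have h1 := h.M 0 1 2 (by decide) (by decide) (by decide) 2 (by norm_num) (by norm_num)
    (ms false true false false false) (ms false true false true false)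
    (ms false true true true true) (good_ms _ _ _ _ _ _ (by decide))
    (good_ms _ _ _ _ _ _ (by decide))
  simp only [cost_ms_compl, cost_ms, cost_univ, thn, hw.w0, hw.w1, hw.w2, hw.w3, cond_true,
    cond_false, if_true, Nat.cast_ofNat, Nat.cast_one, div_one] at h1
  rw [if_neg (by decide)] at h1
  rcases h1 with h1 | h1
  · left; linarith only [h1]
  · right; linarith only [h1]

theorem bd103 {v w : Fin 3 → Fin 5 → ℝ} {t : ℝ} (h : Fail v w t) (hw : Wt v w) :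
    t < v 0 0 + v 0 2 + v 0 3 + v 0 4 + v 1 0 + v 1 1 + v 1 2 + v 1 3 + v 1 4 + v 2 0 + v 2 2 +
    v 2 4 ∨ t < v 0 0 + v 0 1 + v 0 2 + v 0 3 + v 0 4 - v 1 1 - 2 * v 1 2 - 3 * v 1 3 + v 1 4 +
    v 2 0 + v 2 1 + v 2 2 + 2 * v 2 3 + v 2 4 - w 1 4 := by
  have h1 := h.M 2 0 1 (by decide) (by decide) (by decide) 2 (by norm_num) (by norm_num)
    (ms false true false true false) (ms false true false false false)
    (ms true true true true true) (good_ms _ _ _ _ _ _ (by decide))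
    (good_ms _ _ _ _ _ _ (by decide))
  simp only [cost_ms_compl, cost_ms, cost_univ, thn, hw.w0, hw.w1, hw.w2, hw.w3, cond_true,
    cond_false, if_true, Nat.cast_ofNat, Nat.cast_one, div_one] at h1
  rw [if_neg (by decide)] at h1
  rcases h1 with h1 | h1
  · left; linarith only [h1]
  · right; linarith only [h1]

theorem bd104 {v w : Fin 3 → Fin 5 → ℝ} {t : ℝ} (h : Fail v w t) (hw : Wt v w) :
    t < v 0 0 + v 0 1 + v 0 3 + v 0 4 + v 1 0 + v 1 1 + v 1 3 + v 1 4 + v 2 0 + v 2 2 + v 2 3 +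
    v 2 4 ∨ t < v 0 0 + v 0 1 + v 0 2 + v 0 3 + v 0 4 + v 1 0 + v 1 1 + v 1 2 + v 1 3 + v 1 4 -
    2 * v 2 2 - 3 * v 2 3 + v 2 4 - w 2 4 := by
  have h1 := h.M 0 1 2 (by decide) (by decide) (by decide) 3 (by norm_num) (by norm_num)
    (ms false false true false false) (ms false false true false false)
    (ms true false true true true) (good_ms _ _ _ _ _ _ (by decide))
    (good_ms _ _ _ _ _ _ (by decide))
  simp only [cost_ms_compl, cost_ms, cost_univ, thn, hw.w0, hw.w1, hw.w2, hw.w3, cond_true,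
    cond_false, if_true, Nat.cast_ofNat, Nat.cast_one, div_one] at h1
  rw [if_neg (by decide)] at h1
  rcases h1 with h1 | h1
  · left; linarith only [h1]
  · right; linarith only [h1]

theorem bd105 {v w : Fin 3 → Fin 5 → ℝ} {t : ℝ} (h : Fail v w t) (hw : Wt v w) :
    t < 1 / 2 * v 0 0 + 1 / 2 * v 0 1 + 1 / 2 * v 0 2 + 1 / 2 * v 0 3 + 1 / 2 * v 0 4 + 1 / 2 *
    v 1 0 + 1 / 2 * v 1 1 + 1 / 2 * v 1 2 + 1 / 2 * v 1 3 + 1 / 2 * v 1 4 + v 2 0 + v 2 1 + v 2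
    3 + v 2 4 ∨ t < 5 / 4 * v 0 0 + 5 / 4 * v 0 1 + 5 / 4 * v 0 2 + 5 / 4 * v 0 3 + 5 / 4 * v 0
    4 + 1 / 2 * v 1 0 + 1 / 2 * v 1 1 + 1 / 2 * v 1 2 + 1 / 2 * v 1 3 + 1 / 2 * v 1 4 + 1 / 2 *
    v 2 0 - v 2 3 + v 2 4 - 1 / 2 * w 2 4 ∨ t < 1 / 2 * v 0 0 + 1 / 2 * v 0 1 + 1 / 2 * v 0 2 +
    1 / 2 * v 0 3 + 1 / 2 * v 0 4 + 5 / 4 * v 1 0 + 5 / 4 * v 1 1 + 5 / 4 * v 1 2 + 5 / 4 * v 1
    3 + 5 / 4 * v 1 4 + 1 / 2 * v 2 0 - v 2 3 + v 2 4 - 1 / 2 * w 2 4 ∨ t < 5 / 4 * v 0 0 + 5 /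
    4 * v 0 1 + 5 / 4 * v 0 2 + 5 / 4 * v 0 3 + 5 / 4 * v 0 4 + 5 / 4 * v 1 0 + 5 / 4 * v 1 1 +
    5 / 4 * v 1 2 + 5 / 4 * v 1 3 + 5 / 4 * v 1 4 - v 2 1 - 3 * v 2 3 + v 2 4 - w 2 4 := by
  have h1 := h.S 0 1 2 (by decide) (by decide) (by decide) (ms true true false true true)
  simp only [cost_ms, cost_univ, hw.w0, hw.w1, hw.w2, hw.w3, cond_true, cond_false] at h1
  have h2 := max2s _ _ _ _ _ _ h1
  rcases h2 with h1 | h1 | h1 | h1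
  · left; linarith only [h1]
  · right; left; linarith only [h1]
  · right; right; left; linarith only [h1]
  · right; right; right; linarith only [h1]

theorem bd106 {v w : Fin 3 → Fin 5 → ℝ} {t : ℝ} (h : Fail v w t) (hw : Wt v w) :
    t < v 0 0 + v 0 1 + v 0 3 + v 0 4 + v 1 0 + v 1 1 + v 1 3 + v 1 4 + v 2 1 + v 2 3 ∨ t < v 0
    0 + v 0 1 + v 0 2 + v 0 3 + v 0 4 + v 1 0 + v 1 1 + v 1 2 + v 1 3 + v 1 4 - v 2 1 - 3 * v 2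
    3 := by
  have h1 := h.M 0 1 2 (by decide) (by decide) (by decide) 3 (by norm_num) (by norm_num)
    (ms false false true false false) (ms false false true false false)
    (ms false true false true false) (good_ms _ _ _ _ _ _ (by decide))
    (good_ms _ _ _ _ _ _ (by decide))
  simp only [cost_ms_compl, cost_ms, cost_univ, thn, hw.w0, hw.w1, hw.w2, hw.w3, cond_true,
    cond_false, if_true, Nat.cast_ofNat, Nat.cast_one, div_one] at h1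
  rw [if_neg (by decide)] at h1
  rcases h1 with h1 | h1
  · left; linarith only [h1]
  · right; linarith only [h1]

theorem bd107 {v w : Fin 3 → Fin 5 → ℝ} {t : ℝ} (h : Fail v w t) (hw : Wt v w) :
    t < 1 / 2 * v 0 0 + 1 / 2 * v 0 1 + 1 / 2 * v 0 2 + 1 / 2 * v 0 3 + 1 / 2 * v 0 4 + 1 / 2 *
    v 1 0 + 1 / 2 * v 1 1 + 1 / 2 * v 1 2 + 1 / 2 * v 1 3 + 1 / 2 * v 1 4 + v 2 0 + v 2 3 + v 2
    4 ∨ t < 5 / 4 * v 0 0 + 5 / 4 * v 0 1 + 5 / 4 * v 0 2 + 5 / 4 * v 0 3 + 5 / 4 * v 0 4 + 1 /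
    2 * v 1 0 + 1 / 2 * v 1 1 + 1 / 2 * v 1 2 + 1 / 2 * v 1 3 + 1 / 2 * v 1 4 + 1 / 2 * v 2 0 -
    v 2 3 + v 2 4 - 1 / 2 * w 2 4 ∨ t < 1 / 2 * v 0 0 + 1 / 2 * v 0 1 + 1 / 2 * v 0 2 + 1 / 2 *
    v 0 3 + 1 / 2 * v 0 4 + 5 / 4 * v 1 0 + 5 / 4 * v 1 1 + 5 / 4 * v 1 2 + 5 / 4 * v 1 3 + 5 /
    4 * v 1 4 + 1 / 2 * v 2 0 - v 2 3 + v 2 4 - 1 / 2 * w 2 4 ∨ t < 5 / 4 * v 0 0 + 5 / 4 * v 0
    1 + 5 / 4 * v 0 2 + 5 / 4 * v 0 3 + 5 / 4 * v 0 4 + 5 / 4 * v 1 0 + 5 / 4 * v 1 1 + 5 / 4 *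
    v 1 2 + 5 / 4 * v 1 3 + 5 / 4 * v 1 4 - 3 * v 2 3 + v 2 4 - w 2 4 := by
  have h1 := h.S 0 1 2 (by decide) (by decide) (by decide) (ms true false false true true)
  simp only [cost_ms, cost_univ, hw.w0, hw.w1, hw.w2, hw.w3, cond_true, cond_false] at h1
  have h2 := max2s _ _ _ _ _ _ h1
  rcases h2 with h1 | h1 | h1 | h1
  · left; linarith only [h1]
  · right; left; linarith only [h1]
  · right; right; left; linarith only [h1]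
  · right; right; right; linarith only [h1]

theorem bd108 {v w : Fin 3 → Fin 5 → ℝ} {t : ℝ} (h : Fail v w t) (hw : Wt v w) :
    t < v 0 0 + v 0 1 + v 0 2 + v 0 4 + v 1 1 + v 1 3 + v 2 0 + v 2 1 + v 2 2 + v 2 4 ∨ t < v 0
    0 + v 0 1 + v 0 2 + v 0 3 + v 0 4 - v 1 1 - 3 * v 1 3 + v 2 0 + v 2 1 + v 2 2 + v 2 3 + v 2
    4 := by
  have h1 := h.M 2 0 1 (by decide) (by decide) (by decide) 4 (by norm_num) (by norm_num)
    (ms false false false true false) (ms false false false true false)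
    (ms false true false true false) (good_ms _ _ _ _ _ _ (by decide))
    (good_ms _ _ _ _ _ _ (by decide))
  simp only [cost_ms_compl, cost_ms, cost_univ, thn, hw.w0, hw.w1, hw.w2, hw.w3, cond_true,
    cond_false, if_true, Nat.cast_ofNat, Nat.cast_one, div_one] at h1
  rw [if_neg (by decide)] at h1
  rcases h1 with h1 | h1
  · left; linarith only [h1]
  · right; linarith only [h1]

theorem bd109 {v w : Fin 3 → Fin 5 → ℝ} {t : ℝ} (h : Fail v w t) (hw : Wt v w) :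
    t < v 0 1 + v 0 2 + v 0 3 + v 0 4 + v 1 1 + v 1 3 + v 1 4 + v 2 0 + v 2 1 + v 2 2 + v 2 3 +
    v 2 4 ∨ t < v 0 0 + v 0 1 + v 0 2 + v 0 3 + v 0 4 + v 1 0 + v 1 1 + 3 * v 1 2 + v 1 3 + v 1
    4 + v 2 0 + v 2 1 + v 2 2 + v 2 3 + v 2 4 - 1 := by
  have h1 := h.M 1 2 0 (by decide) (by decide) (by decide) 1 (by norm_num) (by norm_num)
    (ms true false true false false) (ms false false false false false)
    (ms false true true true true) (good_ms _ _ _ _ _ _ (by decide))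
    (good_ms _ _ _ _ _ _ (by decide))
  simp only [cost_ms_compl, cost_ms, cost_univ, thn, hw.w0, hw.w1, hw.w2, hw.w3, cond_true,
    cond_false, if_true, Nat.cast_ofNat, Nat.cast_one, div_one] at h1
  rcases h1 with h1 | h1
  · left; linarith only [h1]
  · right; linarith only [h1]

theorem bd110 {v w : Fin 3 → Fin 5 → ℝ} {t : ℝ} (h : Fail v w t) (hw : Wt v w) :
    t < v 0 2 + v 0 3 + v 0 4 + v 1 0 + v 1 1 + v 1 2 + v 1 3 + v 1 4 + v 2 0 + v 2 1 + v 2 2 +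
    v 2 4 ∨ t < v 0 0 + 2 * v 0 1 + v 0 2 + v 0 3 + v 0 4 + v 1 0 + v 1 1 + v 1 2 + v 1 3 + v 1
    4 + v 2 0 + v 2 1 + v 2 2 + v 2 3 + v 2 4 - 1 := by
  have h1 := h.M 1 2 0 (by decide) (by decide) (by decide) 4 (by norm_num) (by norm_num)
    (ms false false false false false) (ms false false false true false)
    (ms false false true true true) (good_ms _ _ _ _ _ _ (by decide))
    (good_ms _ _ _ _ _ _ (by decide))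
  simp only [cost_ms_compl, cost_ms, cost_univ, thn, hw.w0, hw.w1, hw.w2, hw.w3, cond_true,
    cond_false, if_true, Nat.cast_ofNat, Nat.cast_one, div_one] at h1
  rcases h1 with h1 | h1
  · left; linarith only [h1]
  · right; linarith only [h1]

theorem bd111 {v w : Fin 3 → Fin 5 → ℝ} {t : ℝ} (h : Fail v w t) (hw : Wt v w) :
    t < v 0 0 + v 0 1 + v 0 2 + v 0 3 + v 0 4 + v 1 2 + v 1 3 + v 1 4 + v 2 1 + v 2 2 + v 2 3 +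
    v 2 4 ∨ t < v 0 0 + v 0 1 + v 0 2 + v 0 3 + v 0 4 + v 1 0 + 2 * v 1 1 + v 1 2 + v 1 3 + v 1
    4 + v 2 0 + v 2 1 + v 2 2 + v 2 3 + v 2 4 - 1 := by
  have h1 := h.M 1 2 0 (by decide) (by decide) (by decide) 1 (by norm_num) (by norm_num)
    (ms true true false false false) (ms true false false false false)
    (ms true true true true true) (good_ms _ _ _ _ _ _ (by decide))
    (good_ms _ _ _ _ _ _ (by decide))
  simp only [cost_ms_compl, cost_ms, cost_univ, thn, hw.w0, hw.w1, hw.w2, hw.w3, cond_true,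
    cond_false, if_true, Nat.cast_ofNat, Nat.cast_one, div_one] at h1
  rcases h1 with h1 | h1
  · left; linarith only [h1]
  · right; linarith only [h1]

theorem facts_of {v w : Fin 3 → Fin 5 → ℝ} {t : ℝ} (h : Fail v w t) (hw : Wt v w) :
    Facts (v 0 0) (v 0 1) (v 0 2) (v 0 3) (v 0 4) (v 1 0) (v 1 1) (v 1 2) (v 1 3) (v 1 4) (v 2 0) (v 2 1) (v 2 2) (v 2 3) (v 2 4) (w 0 4) (w 1 4) (w 2 4) t :=
    ⟨bd0 h hw, bd1 h hw, bd2 h hw, bd3 h hw, bd4 h hw, bd5 h hw, bd6 h hw, bd7 h hw, bd8 h hw,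
    bd9 h hw, bd10 h hw, bd11 h hw, bd12 h hw, bd13 h hw, bd14 h hw, bd15 h hw, bd16 h hw, bd17
    h hw, bd18 h hw, bd19 h hw, bd20 h hw, bd21 h hw, bd22 h hw, bd23 h hw, bd24 h hw, bd25 h
    hw, bd26 h hw, bd27 h hw, bd28 h hw, bd29 h hw, bd30 h hw, bd31 h hw, bd32 h hw, bd33 h hw,
    bd34 h hw, bd35 h hw, bd36 h hw, bd37 h hw, bd38 h hw, bd39 h hw, bd40 h hw, bd41 h hw,
    bd42 h hw, bd43 h hw, bd44 h hw, bd45 h hw, bd46 h hw, bd47 h hw, bd48 h hw, bd49 h hw,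
    bd50 h hw, bd51 h hw, bd52 h hw, bd53 h hw, bd54 h hw, bd55 h hw, bd56 h hw, bd57 h hw,
    bd58 h hw, bd59 h hw, bd60 h hw, bd61 h hw, bd62 h hw, bd63 h hw, bd64 h hw, bd65 h hw,
    bd66 h hw, bd67 h hw, bd68 h hw, bd69 h hw, bd70 h hw, bd71 h hw, bd72 h hw, bd73 h hw,
    bd74 h hw, bd75 h hw, bd76 h hw, bd77 h hw, bd78 h hw, bd79 h hw, bd80 h hw, bd81 h hw,
    bd82 h hw, bd83 h hw, bd84 h hw, bd85 h hw, bd86 h hw, bd87 h hw, bd88 h hw, bd89 h hw,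
    bd90 h hw, bd91 h hw, bd92 h hw, bd93 h hw, bd94 h hw, bd95 h hw, bd96 h hw, bd97 h hw,
    bd98 h hw, bd99 h hw, bd100 h hw, bd101 h hw, bd102 h hw, bd103 h hw, bd104 h hw, bd105 h
    hw, bd106 h hw, bd107 h hw, bd108 h hw, bd109 h hw, bd110 h hw, bd111 h hw⟩

end Pool.Agent.H705R2.ABC3
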