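import Mathlib
import Pool.Agent.H705R2.ABC3.Bd

/-!
# abc, exponent 4 lam/7 for 9/10 ≤ lam ≤ 1: the certificate (generated), part 0
-/

set_option linter.unusedVariables false

namespace Pool.Agent.H705R2.ABC3

/-- the constraints on the exponents -/
structure BaseC (a0 a1 a2 a3 a4 b0 b1 b2 b3 b4 c0 c1 c2 c3 c4 ya yb yc x d : ℝ) : Prop where
  B0 :
    a0 + a1 + a2 + a3 + a4 + b0 + b1 + b2 + b3 + b4 + c0 + c1 + c2 + c3 + c4 ≤ 1 - x
  B1 :
    a0 + 2 * a1 + 3 * a2 + 4 * a3 + ya ≤ 1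
  B2 :
    b0 + 2 * b1 + 3 * b2 + 4 * b3 + yb ≤ 1
  B3 :
    1 - d ≤ b0 + 2 * b1 + 3 * b2 + 4 * b3 + yb
  B4 :
    c0 + 2 * c1 + 3 * c2 + 4 * c3 + yc ≤ 1
  B5 :
    1 - d ≤ c0 + 2 * c1 + 3 * c2 + 4 * c3 + yc
  B6 :
    5 * a4 ≤ ya
  B7 :
    5 * b4 ≤ yb
  B8 :
    5 * c4 ≤ yc
  B9 :
    c0 + c1 + c2 + c3 + c4 ≤ b0 + b1 + b2 + b3 + b4
  B10 :
    x ≤ 1 / 10
  pa0 : 0 ≤ a0
  pa1 : 0 ≤ a1
  pa2 : 0 ≤ a2
  pa3 : 0 ≤ a3
  pa4 : 0 ≤ a4
  pb0 : 0 ≤ b0
  pb1 : 0 ≤ b1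
  pb2 : 0 ≤ b2
  pb3 : 0 ≤ b3
  pb4 : 0 ≤ b4
  pc0 : 0 ≤ c0
  pc1 : 0 ≤ c1
  pc2 : 0 ≤ c2
  pc3 : 0 ≤ c3
  pc4 : 0 ≤ c4
  pya : 0 ≤ ya
  pyb : 0 ≤ yb
  pyc : 0 ≤ yc

theorem sub0 (a0 a1 a2 a3 a4 b0 b1 b2 b3 b4 c0 c1 c2 c3 c4 ya yb yc t x d : ℝ)
    (H : Facts a0 a1 a2 a3 a4 b0 b1 b2 b3 b4 c0 c1 c2 c3 c4 ya yb yc t)
    (HB : BaseC a0 a1 a2 a3 a4 b0 b1 b2 b3 b4 c0 c1 c2 c3 c4 ya yb yc x d)
    (hx : 0 ≤ x) (hd : 0 ≤ d) (ht : t = 4 / 7 - 4 / 7 * x + 1000 * d)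
    (n0 : t < 1 / 2 * a0 + 1 / 2 * a1 + 1 / 2 * a2 + 1 / 2 * a3 + 1 / 2 * a4 + 1 / 2 * b0 + 1 / 2 * b1 + 1 / 2 * b2 + 1 / 2 * b3 + 1 / 2 * b4 + c0 + c1 + c2 + c4)
    (n4 : t < a1 + a2 + a3 + a4 + b0 + b1 + b3 + b4 + c0 + c1 + c3 + c4)
    (n6 : t < 1 / 2 * a0 + 1 / 2 * a1 + 1 / 2 * a2 + 1 / 2 * a3 + 1 / 2 * a4 + b2 + b3 + b4 + 1 / 2 * c0 + 1 / 2 * c1 + 1 / 2 * c2 + 1 / 2 * c3 + 1 / 2 * c4)
    (n9 : t < 1 / 2 * a0 + 1 / 2 * a1 + 1 / 2 * a2 + 1 / 2 * a3 + 1 / 2 * a4 + 1 / 2 * b0 + 1 / 2 * b1 + 1 / 2 * b2 + 1 / 2 * b3 + 1 / 2 * b4 + c2 + c3 + c4)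
    (n10 : t < a0 + a1 + a3 + a4 + b0 + b1 + b3 + b4 + c0 + c1 + c3 + c4)
    (n11 : t < a3 + a4 + b0 + b1 + b3 + b4 + c0 + c1 + c3 + c4)
    (n13 : t < a0 + a1 + a2 + a4 + b0 + b1 + b2 + b4 + c1 + c3 + c4)
    (n14 : t < b0 + b1 + b2 + b4 + c0 + c1 + c2 + c3 + c4)
    (n15 : t < 1 / 2 * a0 + 1 / 2 * a1 + 1 / 2 * a2 + 1 / 2 * a3 + 1 / 2 * a4 + 1 / 2 * b0 + 1 / 2 * b1 + 1 / 2 * b2 + 1 / 2 * b3 + 1 / 2 * b4 + c1 + c2 + c4)
    (n16 : t < a0 + a1 + a2 + a4 + b1 + b3 + b4 + c0 + c1 + c2 + c4) : False := by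
  obtain ⟨B0, B1, B2, B3, B4, B5, B6, B7, B8, B9, B10, pa0, pa1, pa2, pa3, pa4, pb0, pb1, pb2, pb3, pb4, pc0, pc1, pc2, pc3, pc4, pya, pyb, pyc⟩ := id HB
  rcases H.f17 with n17 | n17
  · rcases H.f18 with n18 | n18 | n18 | n18
    · rcases H.f19 with n19 | n19
      · rcases H.f20 with n20 | n20 | n20 | n20
        · rcases H.f21 with n21 | n21 | n21 | n21
          · rcases H.f22 with n22 | n22 | n22 | n22
            · linarith only [n6, n14, n20, n22, B0, B2, B7, B9, B10, pb3, hd, ht]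
            · linarith only [n6, n17, n20, n21, n22, B0, B3, B7, B9, pyb, hd, ht]
            · linarith only [n14, n20, n21, n22, B0, B3, B7, B9, pb3, hx, hd, ht]
            · linarith only [n14, n20, n21, n22, B0, B3, B7, B9, pyb, hx, hd, ht]
          · linarith only [n6, n17, n20, n21, B0, B3, B7, B9, pyb, hx, hd, ht]
          · linarith only [n6, n14, n20, n21, B0, B3, B7, pb0, pb3, hx, hd, ht]
          · linarith only [n6, n20, n21, B0, B3, B7, pb0, pyb, hx, hd, ht]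
        · linarith only [n6, n17, n20, B0, B3, B7, B9, pb0, pyb, hx, hd, ht]
        · rcases H.f23 with n21 | n21
          · linarith only [n6, n9, n11, n14, n15, n17, n20, n21, B0, B1, B3, B4, B6, B7, B8, pa2, pb0, pc2, pya, hd, ht]
          · linarith only [n4, n6, n11, n16, n17, n21, B0, B1, B3, B6, B7, pa2, pb0, pc2, pc3, pya, pyb, hd, ht]
        · linarith only [n6, n9, n11, n14, n16, n17, n18, n19, n20, B0, B1, B3, B4, B6, B7, B8, pa2, pc2, pc3, pya, hd, ht]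
      · rcases H.f20 with n20 | n20 | n20 | n20
        · linarith only [n4, n6, n11, n13, n14, n17, n19, n20, B0, B1, B2, B6, B7, B9, B10, pa2, pc0, hd, ht]
        · linarith only [n6, n17, n20, B0, B3, B7, B9, pb0, pyb, hx, hd, ht]
        · linarith only [n4, n6, n11, n17, n19, n20, B0, B1, B3, B6, B7, pa2, pya, pyb, hx, hd, ht]
        · linarith only [n4, n6, n11, n16, n17, n19, n20, B0, B1, B3, B6, B7, pa2, pb1, pc3, pyb, hx, hd, ht]
    · linarith only [n0, n14, n18, B0, B5, B9, pb3, hx, hd, ht]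
    · linarith only [n0, n6, n9, n15, n17, n18, B0, B2, B5, B7, B8, B10, pb1, pyb, pyc, hd, ht]
    · linarith only [n0, n9, n18, B0, B5, B8, pc0, pyc, hx, hd, ht]
  · rcases H.f20 with n18 | n18 | n18 | n18
    · rcases H.f21 with n19 | n19 | n19 | n19
      · rcases H.f22 with n20 | n20 | n20 | n20
        · linarith only [n6, n14, n18, n20, B0, B2, B7, B9, B10, pb3, hd, ht]
        · linarith only [n6, n18, n19, n20, B0, B7, B9, B10, pyb, hd, ht]
        · linarith only [n14, n18, n19, n20, B0, B3, B7, B9, pb3, hx, hd, ht]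
        · linarith only [n14, n18, n19, n20, B0, B3, B7, B9, pyb, hx, hd, ht]
      · linarith only [n6, n18, n19, B0, B2, B7, B9, B10, pb0, pyb, hd, ht]
      · linarith only [n6, n14, n18, n19, B0, B3, B7, pb0, pb3, hx, hd, ht]
      · linarith only [n6, n18, n19, B0, B3, B7, pb0, pyb, hx, hd, ht]
    · linarith only [n4, n6, n9, n10, n11, n13, n15, n16, n17, n18, B0, B1, B3, B4, B6, B7, B8, pa2, pb0, pyb, hd, ht]
    · linarith only [n14, n17, n18, B0, B3, pb0, pb3, hx, hd, ht]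
    · rcases H.f24 with n19 | n19
      · linarith only [n4, n9, n11, n13, n15, n16, n17, n18, n19, B0, B1, B3, B4, B6, B8, pa2, pb0, pb3, hx, hd, ht]
      · linarith only [n4, n6, n9, n10, n11, n16, n18, n19, B0, B1, B3, B6, B7, B8, pa2, pb1, pyb, pyc, hx, hd, ht]

theorem sub1 (a0 a1 a2 a3 a4 b0 b1 b2 b3 b4 c0 c1 c2 c3 c4 ya yb yc t x d : ℝ)
    (H : Facts a0 a1 a2 a3 a4 b0 b1 b2 b3 b4 c0 c1 c2 c3 c4 ya yb yc t)
    (HB : BaseC a0 a1 a2 a3 a4 b0 b1 b2 b3 b4 c0 c1 c2 c3 c4 ya yb yc x d)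
    (hx : 0 ≤ x) (hd : 0 ≤ d) (ht : t = 4 / 7 - 4 / 7 * x + 1000 * d)
    (n5 : t < a0 + a2 + a3 + a4 + b0 + b2 + b4 + c2 + c3 + c4)
    (n6 : t < 1 / 2 * a0 + 1 / 2 * a1 + 1 / 2 * a2 + 1 / 2 * a3 + 1 / 2 * a4 + b2 + b3 + b4 + 1 / 2 * c0 + 1 / 2 * c1 + 1 / 2 * c2 + 1 / 2 * c3 + 1 / 2 * c4)
    (n9 : t < 1 / 2 * a0 + 1 / 2 * a1 + 1 / 2 * a2 + 1 / 2 * a3 + 1 / 2 * a4 + 1 / 2 * b0 + 1 / 2 * b1 + 1 / 2 * b2 + 1 / 2 * b3 + 1 / 2 * b4 + c2 + c3 + c4)
    (n11 : t < a3 + a4 + b0 + b1 + b3 + b4 + c0 + c1 + c3 + c4)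
    (n13 : t < a0 + a1 + a2 + a4 + b0 + b1 + b2 + b4 + c1 + c3 + c4)
    (n15 : t < a1 + a2 + a4 + b0 + b1 + b2 + b4 + c0 + c1 + c2 + c3 + c4)
    (n16 : t < a1 + a2 + a3 + a4 + b1 + b3 + b4 + c1 + c4)
    (n18 : t < a0 + a1 + a2 + a4 + b1 + b3 + b4 + c0 + c1 + c2 + c3 + c4)
    (n19 : t < a0 + a2 + a4 + b1 + b3 + b4 + c0 + c1 + c2 + c3 + c4)
    (n20 : t < a2 + a4 + b0 + b1 + b2 + b4 + c0 + c1 + c2 + c3 + c4)
    (n21 : t < 1 / 2 * a0 + 1 / 2 * a1 + 1 / 2 * a2 + 1 / 2 * a3 + 1 / 2 * a4 + 1 / 2 * b0 + 1 / 2 * b1 + 1 / 2 * b2 + 1 / 2 * b3 + 1 / 2 * b4 + c1 + c2 + c4)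
    (n22 : t < 1 / 2 * a0 + 1 / 2 * a1 + 1 / 2 * a2 + 1 / 2 * a3 + 1 / 2 * a4 + 1 / 2 * b0 + 1 / 2 * b1 + 1 / 2 * b2 + 1 / 2 * b3 + 1 / 2 * b4 + c0 + c2 + c4)
    (n23 : t < 1 / 2 * a0 + 1 / 2 * a1 + 1 / 2 * a2 + 1 / 2 * a3 + 1 / 2 * a4 + 1 / 2 * b0 + 1 / 2 * b1 + 1 / 2 * b2 + 1 / 2 * b3 + 1 / 2 * b4 + c3 + c4)
    (n24 : t < a1 + a3 + a4 + b0 + b1 + b2 + b4 + c0 + c1 + c2 + c3 + c4)
    (n25 : t < a1 + a2 + a3 + b0 + b1 + b2 + b4 + c0 + c1 + c2 + c3 + c4) : False := by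
  obtain ⟨B0, B1, B2, B3, B4, B5, B6, B7, B8, B9, B10, pa0, pa1, pa2, pa3, pa4, pb0, pb1, pb2, pb3, pb4, pc0, pc1, pc2, pc3, pc4, pya, pyb, pyc⟩ := id HB
  rcases H.f36 with n26 | n26
  · rcases H.f37 with n27 | n27 | n27 | n27
    · rcases H.f38 with n28 | n28 | n28 | n28
      · rcases H.f39 with n29 | n29 | n29 | n29
        · rcases H.f40 with n30 | n30
          · rcases H.f20 with n31 | n31 | n31 | n31
            · linarith only [n6, n9, n21, n22, n23, n28, n29, n30, n31, B0, B1, B2, B4, B6, B7, B8, B10, hd, ht]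
            · linarith only [n9, n16, n19, n21, n22, n23, n26, n31, B0, B1, B3, B4, B6, B7, B8, B10, pb0, pb3, pyb, hd, ht]
            · linarith only [n19, n28, n29, n31, B0, B1, B3, B6, B7, B10, pb0, pb3, pyb, hd, ht]
            · rcases H.f17 with n32 | n32
              · linarith only [n6, n19, n28, n29, n31, n32, B0, B1, B3, B6, B7, B10, pb0, pyb, hd, ht]
              · linarith only [n9, n16, n21, n22, n23, n26, n28, n29, n31, n32, B0, B1, B3, B4, B6, B8, pb0, pya, hd, ht]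
          · linarith only [n9, n13, n22, n30, B0, B1, B2, B5, B6, B7, B8, pa1, pa2, pb1, pb2, pya, pyb, hx, hd, ht]
        · linarith only [n5, n6, n11, n21, n22, n23, n24, n26, n29, B0, B2, B4, B6, B7, B8, B10, pb0, pya, pyb, hd, ht]
        · linarith only [n5, n6, n9, n21, n22, n23, n24, n26, n29, B0, B2, B4, B6, B7, B8, B10, pb0, pya, hd, ht]
        · linarith only [n6, n9, n21, n22, n23, n24, n26, n29, B0, B2, B4, B6, B7, B8, B10, pa1, pb0, pya, pyb, hd, ht]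
      · linarith only [n5, n6, n11, n20, n21, n22, n23, n26, n27, n28, B0, B2, B4, B6, B7, B8, B10, pa2, pya, pyb, hd, ht]
      · linarith only [n5, n6, n11, n20, n21, n22, n23, n26, n27, n28, B0, B2, B4, B6, B7, B8, B10, pa2, pya, pyb, hd, ht]
      · linarith only [n5, n6, n11, n20, n21, n22, n23, n26, n27, n28, B0, B2, B4, B6, B7, B8, B10, pa2, pb0, pyb, hd, ht]
    · linarith only [n6, n11, n20, n22, n23, n26, n27, B0, B2, B4, B6, B7, B8, B10, pa2, pb0, pc3, pya, pyb, hd, ht]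
    · linarith only [n6, n9, n20, n21, n22, n23, n26, n27, B0, B2, B4, B6, B7, B8, B10, pa2, pb0, pya, pyb, hd, ht]
    · linarith only [n6, n9, n11, n15, n16, n20, n22, n23, n25, n26, n27, B0, B2, B4, B6, B7, B8, B10, pb0, pyb, hd, ht]
  · rcases H.f20 with n27 | n27 | n27 | n27
    · rcases H.f41 with n28 | n28
      · rcases H.f42 with n29 | n29 | n29 | n29
        · linarith only [n6, n11, n26, n27, n28, n29, B0, B1, B2, B6, B7, B10, pa3, pb0, pc2, pyb, hd, ht]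
        · linarith only [n5, n6, n11, n21, n23, n26, n27, n29, B0, B2, B4, B6, B7, B8, B10, pa0, pb0, pya, pyb, hd, ht]
        · linarith only [n5, n6, n9, n21, n23, n26, n27, n29, B0, B2, B4, B6, B7, B8, B10, pb0, pya, hd, ht]
        · linarith only [n5, n6, n9, n11, n21, n23, n26, n27, n29, B0, B1, B2, B4, B6, B7, B8, pa0, pb0, pya, hd, ht]
      · linarith only [n5, n6, n9, n11, n21, n23, n26, n27, n28, B0, B1, B2, B4, B6, B7, B8, pa0, pb0, pya, hd, ht]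
    · linarith only [n9, n11, n16, n19, n21, n23, n27, B0, B1, B3, B4, B6, B7, B8, B10, pb0, pb3, pyb, hd, ht]
    · linarith only [n6, n9, n11, n16, n18, n19, n21, n26, n27, B0, B1, B3, B4, B6, B7, B8, pb0, pc2, pyb, hd, ht]
    · rcases H.f17 with n28 | n28
      · linarith only [n6, n11, n16, n19, n22, n26, n27, n28, B0, B1, B3, B4, B6, B7, B8, pc2, pc3, pya, pyb, hx, hd, ht]
      · linarith only [n9, n11, n21, n23, n26, n27, n28, B0, B1, B3, B4, B6, B8, pya, hx, hd, ht]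

theorem sub2 (a0 a1 a2 a3 a4 b0 b1 b2 b3 b4 c0 c1 c2 c3 c4 ya yb yc t x d : ℝ)
    (H : Facts a0 a1 a2 a3 a4 b0 b1 b2 b3 b4 c0 c1 c2 c3 c4 ya yb yc t)
    (HB : BaseC a0 a1 a2 a3 a4 b0 b1 b2 b3 b4 c0 c1 c2 c3 c4 ya yb yc x d)
    (hx : 0 ≤ x) (hd : 0 ≤ d) (ht : t = 4 / 7 - 4 / 7 * x + 1000 * d)
    (n0 : t < 1 / 2 * a0 + 1 / 2 * a1 + 1 / 2 * a2 + 1 / 2 * a3 + 1 / 2 * a4 + 1 / 2 * b0 + 1 / 2 * b1 + 1 / 2 * b2 + 1 / 2 * b3 + 1 / 2 * b4 + c0 + c1 + c2 + c4)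
    (n4 : t < a1 + a2 + a3 + a4 + b0 + b1 + b3 + b4 + c0 + c1 + c3 + c4)
    (n5 : t < a0 + a2 + a3 + a4 + b0 + b2 + b4 + c2 + c3 + c4)
    (n6 : t < 1 / 2 * a0 + 1 / 2 * a1 + 1 / 2 * a2 + 1 / 2 * a3 + 1 / 2 * a4 + b2 + b3 + b4 + 1 / 2 * c0 + 1 / 2 * c1 + 1 / 2 * c2 + 1 / 2 * c3 + 1 / 2 * c4)
    (n9 : t < 1 / 2 * a0 + 1 / 2 * a1 + 1 / 2 * a2 + 1 / 2 * a3 + 1 / 2 * a4 + 1 / 2 * b0 + 1 / 2 * b1 + 1 / 2 * b2 + 1 / 2 * b3 + 1 / 2 * b4 + c2 + c3 + c4)
    (n11 : t < a3 + a4 + b0 + b1 + b3 + b4 + c0 + c1 + c3 + c4)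
    (n13 : t < a0 + a1 + a2 + a4 + b0 + b1 + b2 + b4 + c1 + c3 + c4)
    (n15 : t < a1 + a2 + a4 + b0 + b1 + b2 + b4 + c0 + c1 + c2 + c3 + c4)
    (n16 : t < a1 + a2 + a3 + a4 + b1 + b3 + b4 + c1 + c4)
    (n17 : t < 1 / 2 * a0 + 1 / 2 * a1 + 1 / 2 * a2 + 1 / 2 * a3 + 1 / 2 * a4 + 1 / 2 * b0 + 1 / 2 * b1 + 1 / 2 * b2 + 1 / 2 * b3 + 1 / 2 * b4 + c1 + c3 + c4)
    (n18 : t < a0 + a1 + a2 + a4 + b1 + b3 + b4 + c0 + c1 + c2 + c3 + c4) : False := by
  obtain ⟨B0, B1, B2, B3, B4, B5, B6, B7, B8, B9, B10, pa0, pa1, pa2, pa3, pa4, pb0, pb1, pb2, pb3, pb4, pc0, pc1, pc2, pc3, pc4, pya, pyb, pyc⟩ := id HB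
  rcases H.f31 with n19 | n19
  · rcases H.f32 with n20 | n20
    · rcases H.f15 with n21 | n21 | n21 | n21
      · rcases H.f18 with n22 | n22 | n22 | n22
        · rcases H.f33 with n23 | n23 | n23 | n23
          · rcases H.f34 with n24 | n24
            · rcases H.f35 with n25 | n25
              · exact sub1 a0 a1 a2 a3 a4 b0 b1 b2 b3 b4 c0 c1 c2 c3 c4 ya yb yc t x d H HB hx hd ht n5 n6 n9 n11 n13 n15 n16 n18 n19 n20 n21 n22 n23 n24 n25
              · rcases H.f37 with n26 | n26 | n26 | n26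
                · rcases H.f38 with n27 | n27 | n27 | n27
                  · rcases H.f43 with n28 | n28
                    · linarith only [n6, n9, n21, n23, n25, n26, n27, n28, B0, B1, B2, B4, B6, B7, B8, B10, pa3, pb1, pyb, hd, ht]
                    · rcases H.f44 with n29 | n29
                      · linarith only [n6, n16, n21, n23, n25, n26, n27, n29, B0, B1, B2, B4, B6, B7, B8, B10, pa3, pyb, hd, ht]
                      · linarith only [n6, n9, n16, n22, n23, n25, n26, n28, n29, B0, B1, B3, B4, B6, B7, B8, pa1, pa3, pc3, pyb, hd, ht]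
                  · linarith only [n6, n9, n16, n19, n23, n25, n27, B0, B2, B4, B6, B7, B8, B10, pa2, pa3, pc0, pc3, pyb, hd, ht]
                  · linarith only [n6, n9, n16, n21, n23, n25, n27, B0, B2, B4, B6, B7, B8, pa0, pa1, pa2, pa3, pyb, hd, ht]
                  · linarith only [n6, n9, n16, n18, n23, n25, n27, B0, B2, B4, B7, B8, B10, pa0, pa2, pa3, pyb, hd, ht]
                · linarith only [n6, n9, n16, n19, n23, n25, n26, B0, B2, B4, B6, B7, B8, B10, pa2, pa3, pc0, pc3, pyb, hd, ht]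
                · linarith only [n6, n9, n16, n21, n23, n25, n26, B0, B2, B4, B6, B7, B8, pa0, pa1, pa2, pa3, pyb, hd, ht]
                · linarith only [n6, n9, n16, n18, n23, n25, n26, B0, B2, B4, B7, B8, B10, pa0, pa1, pa2, pa3, pyb, hd, ht]
            · rcases H.f41 with n25 | n25
              · linarith only [n6, n11, n24, n25, B0, B1, B2, B6, B7, B10, pa1, pa3, pb1, pc2, pya, pyb, hd, ht]
              · linarith only [n9, n21, n23, n24, n25, B0, B4, B8, B9, pa0, pa1, pa3, pa4, hd, ht]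
          · linarith only [n4, n11, n17, n20, n23, B0, B1, B5, B6, B9, pb2, pb3, pc0, hx, hd, ht]
          · linarith only [n6, n16, n17, n22, n23, B0, B2, B5, B7, B8, B10, pa0, pc0, pc3, pyb, hd, ht]
          · linarith only [n17, n22, n23, B0, B5, B8, pc0, pc3, hx, hd, ht]
        · linarith only [n0, n6, n11, n16, n20, n22, B0, B1, B2, B5, B6, B7, B9, pb2, pc0, pc2, hx, hd, ht]
        · linarith only [n0, n6, n9, n16, n21, n22, B0, B2, B5, B7, B8, B10, pa0, pyb, pyc, hd, ht]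
        · linarith only [n0, n9, n17, n22, B0, B5, B8, pc0, hx, hd, ht]
      · linarith only [n0, n6, n11, n16, n20, n21, B0, B1, B2, B5, B6, B7, B9, pb2, pc0, pc2, hx, hd, ht]
      · linarith only [n0, n6, n9, n16, n21, B0, B2, B5, B7, B8, B10, pa0, pc0, pyb, pyc, hd, ht]
      · linarith only [n0, n9, n17, n21, B0, B5, B8, pyc, hx, hd, ht]
    · rcases H.f38 with n21 | n21 | n21 | n21
      · rcases H.f45 with n22 | n22
        · linarith only [n6, n18, n19, n20, n21, n22, B0, B1, B2, B6, B7, B10, pya, pyb, hd, ht]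
        · linarith only [n0, n9, n17, n20, n21, n22, B0, B4, B8, B9, pa0, pc0, hd, ht]
      · linarith only [n6, n9, n16, n17, n18, n19, n20, n21, B0, B2, B4, B6, B7, B8, pa0, pa2, pc0, pya, pyb, hd, ht]
      · linarith only [n9, n17, n20, n21, B0, B4, B6, B8, pa0, pa2, pya, pyc, hx, hd, ht]
      · linarith only [n5, n6, n17, n19, n20, n21, B0, B2, B4, B6, B7, B8, B9, pa0, pa2, pya, pyc, hx, hd, ht]
  · rcases H.f17 with n20 | n20
    · rcases H.f46 with n21 | n21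
      · linarith only [n6, n11, n18, n19, n20, n21, B0, B1, B3, B6, B7, pa2, pc1, pc2, pya, pyb, hx, hd, ht]
      · linarith only [n6, n9, n11, n15, n20, n21, B0, B1, B2, B5, B6, B7, pa2, pb0, pc0, pc2, pyb, hx, hd, ht]
    · linarith only [n0, n6, n9, n16, n17, n18, n19, n20, B0, B1, B3, B4, B6, B7, B8, pa2, pb0, pc0, pya, pyb, hd, ht]

theorem sub3 (a0 a1 a2 a3 a4 b0 b1 b2 b3 b4 c0 c1 c2 c3 c4 ya yb yc t x d : ℝ)
    (H : Facts a0 a1 a2 a3 a4 b0 b1 b2 b3 b4 c0 c1 c2 c3 c4 ya yb yc t)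
    (HB : BaseC a0 a1 a2 a3 a4 b0 b1 b2 b3 b4 c0 c1 c2 c3 c4 ya yb yc x d)
    (hx : 0 ≤ x) (hd : 0 ≤ d) (ht : t = 4 / 7 - 4 / 7 * x + 1000 * d)
    (n0 : t < 1 / 2 * a0 + 1 / 2 * a1 + 1 / 2 * a2 + 1 / 2 * a3 + 1 / 2 * a4 + 1 / 2 * b0 + 1 / 2 * b1 + 1 / 2 * b2 + 1 / 2 * b3 + 1 / 2 * b4 + c0 + c1 + c2 + c4)
    (n4 : t < a1 + a2 + a3 + a4 + b0 + b1 + b3 + b4 + c0 + c1 + c3 + c4)
    (n6 : t < 1 / 2 * a0 + 1 / 2 * a1 + 1 / 2 * a2 + 1 / 2 * a3 + 1 / 2 * a4 + b2 + b3 + b4 + 1 / 2 * c0 + 1 / 2 * c1 + 1 / 2 * c2 + 1 / 2 * c3 + 1 / 2 * c4)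
    (n9 : t < 1 / 2 * a0 + 1 / 2 * a1 + 1 / 2 * a2 + 1 / 2 * a3 + 1 / 2 * a4 + 1 / 2 * b0 + 1 / 2 * b1 + 1 / 2 * b2 + 1 / 2 * b3 + 1 / 2 * b4 + c2 + c3 + c4)
    (n10 : t < a0 + a1 + a3 + a4 + b0 + b1 + b3 + b4 + c0 + c1 + c3 + c4)
    (n11 : t < a3 + a4 + b0 + b1 + b3 + b4 + c0 + c1 + c3 + c4)
    (n13 : t < a0 + a1 + a2 + a4 + b0 + b1 + b2 + b4 + c1 + c3 + c4)
    (n14 : t < a0 + a1 + a2 + a3 + a4 + 1 / 2 * b0 + 1 / 2 * b1 + 1 / 2 * b2 + 1 / 2 * b4 + 1 / 2 * c0 + 1 / 2 * c1 + 1 / 2 * c2 + 1 / 2 * c3 + 1 / 2 * c4)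
    (n15 : t < a1 + a2 + a4 + b0 + b1 + b2 + b4 + c0 + c1 + c2 + c3 + c4)
    (n16 : t < a0 + a1 + a2 + a3 + a4 + b0 + b1 + 3 * b2 + b3 + b4 + c0 + c1 + 3 * c2 + 4 * c3 + c4 - 1)
    (n17 : t < 1 / 2 * a0 + 1 / 2 * a1 + 1 / 2 * a2 + 1 / 2 * a3 + 1 / 2 * a4 + 1 / 2 * b0 + 1 / 2 * b1 + 1 / 2 * b2 + 1 / 2 * b3 + 1 / 2 * b4 + c1 + c2 + c4) : False := by
  obtain ⟨B0, B1, B2, B3, B4, B5, B6, B7, B8, B9, B10, pa0, pa1, pa2, pa3, pa4, pb0, pb1, pb2, pb3, pb4, pc0, pc1, pc2, pc3, pc4, pya, pyb, pyc⟩ := id HB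
  rcases H.f18 with n18 | n18 | n18 | n18
  · rcases H.f16 with n19 | n19
    · rcases H.f48 with n20 | n20
      · rcases H.f43 with n21 | n21
        · linarith only [n9, n16, n17, n18, n20, n21, B0, B4, B8, B9, hx, hd, ht]
        · rcases H.f33 with n22 | n22 | n22 | n22
          · rcases H.f49 with n23 | n23
            · linarith only [n11, n16, n17, n18, n20, n21, n22, n23, B0, B1, B4, B6, B8, B10, pa2, hd, ht]
            · linarith only [n0, n6, n11, n15, n16, n17, n19, n22, n23, B0, B1, B2, B4, B6, B7, B8, pa2, pb0, pc1, pya, hd, ht]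
          · linarith only [n6, n11, n15, n20, n22, B0, B1, B2, B5, B6, B7, B9, pa2, pb1, pb2, pc0, hx, hd, ht]
          · linarith only [n9, n18, n20, n22, B0, B5, B8, B9, pc0, hx, hd, ht]
          · linarith only [n4, n9, n11, n16, n18, n20, n22, B0, B1, B5, B6, B9, pa2, pc0, pya, hx, hd, ht]
      · rcases H.f49 with n21 | n21
        · rcases H.f43 with n22 | n22
          · rcases H.f20 with n23 | n23 | n23 | n23
            · rcases H.f29 with n24 | n24 | n24 | n24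
              · linarith only [n6, n16, n17, n18, n22, n23, n24, B0, B2, B4, B7, B8, B10, pb0, pyb, hd, ht]
              · linarith only [n11, n20, n21, n24, B0, B1, B5, B6, B9, pa2, pb2, pc0, hx, hd, ht]
              · linarith only [n6, n20, n23, n24, B0, B2, B5, B7, B9, B10, pc0, pyb, hd, ht]
              · linarith only [n6, n11, n15, n20, n23, n24, B0, B1, B2, B5, B6, B7, pa2, pb1, pyb, hx, hd, ht]
            · linarith only [n4, n6, n9, n17, n22, n23, B0, B4, B7, B8, B9, B10, pa0, pyb, hd, ht]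
            · linarith only [n0, n6, n16, n22, n23, B0, B3, B7, pb0, pc0, pc1, pc4, pyb, hx, hd, ht]
            · linarith only [n4, n6, n9, n17, n22, n23, B0, B3, B4, B7, B8, pa0, pb1, pyb, hd, ht]
          · rcases H.f20 with n23 | n23 | n23 | n23
            · rcases H.f29 with n24 | n24 | n24 | n24
              · linarith only [n0, n6, n16, n18, n23, n24, B0, B2, B4, B7, B8, B10, pb0, pc0, pyb, hd, ht]
              · linarith only [n11, n20, n21, n24, B0, B1, B5, B6, B9, pa2, pb2, pc0, hx, hd, ht]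
              · linarith only [n6, n20, n23, n24, B0, B2, B5, B7, B9, B10, pc0, pyb, hd, ht]
              · linarith only [n6, n11, n15, n20, n23, n24, B0, B1, B2, B5, B6, B7, pa2, pb1, pyb, hx, hd, ht]
            · linarith only [n6, n22, n23, B0, B3, B7, B9, pb0, pyb, hx, hd, ht]
            · linarith only [n6, n9, n11, n16, n17, n18, n21, n22, n23, B0, B1, B3, B4, B6, B7, B8, pa2, pb0, pyb, hd, ht]
            · linarith only [n6, n11, n16, n17, n18, n21, n22, n23, B0, B1, B3, B4, B6, B7, B8, pa2, pb1, pyb, hx, hd, ht]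
        · rcases H.f29 with n22 | n22 | n22 | n22
          · linarith only [n4, n6, n11, n16, n17, n18, n19, n21, n22, B0, B1, B2, B4, B6, B7, B8, pa2, pb0, pyb, hx, hd, ht]
          · linarith only [n6, n11, n15, n20, n21, n22, B0, B1, B2, B5, B6, B7, B9, pa2, pb1, pc0, pya, hx, hd, ht]
          · linarith only [n4, n6, n9, n10, n11, n13, n19, n21, n22, B0, B1, B2, B5, B6, B7, B8, B9, pa2, pc0, pc3, hd, ht]
          · linarith only [n4, n6, n9, n11, n13, n19, n21, n22, B0, B1, B2, B5, B6, B7, B8, B9, pa2, pb1, pc0, pc3, hd, ht]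
    · rcases H.f17 with n20 | n20
      · linarith only [n4, n6, n11, n19, n20, B0, B1, B3, B6, B7, pa2, pb1, pb3, pc2, pya, pyb, hd, ht]
      · linarith only [n9, n10, n17, n19, n20, B0, B3, B4, B8, pa2, hx, hd, ht]
  · linarith only [n0, n11, n15, n16, n18, B0, B1, B5, B6, B9, pa2, pb3, hx, hd, ht]
  · rcases H.f25 with n19 | n19
    · linarith only [n0, n6, n9, n14, n17, n18, n19, B0, B2, B5, B7, B8, pb1, pyb, pyc, hd, ht]
    · linarith only [n4, n6, n9, n18, n19, B0, B2, B5, B7, B8, pa0, pb1, pc0, pyb, pyc, hx, hd, ht]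
  · linarith only [n0, n9, n18, B0, B5, B8, pc0, pyc, hx, hd, ht]

theorem sub4 (a0 a1 a2 a3 a4 b0 b1 b2 b3 b4 c0 c1 c2 c3 c4 ya yb yc t x d : ℝ)
    (H : Facts a0 a1 a2 a3 a4 b0 b1 b2 b3 b4 c0 c1 c2 c3 c4 ya yb yc t)
    (HB : BaseC a0 a1 a2 a3 a4 b0 b1 b2 b3 b4 c0 c1 c2 c3 c4 ya yb yc x d)
    (hx : 0 ≤ x) (hd : 0 ≤ d) (ht : t = 4 / 7 - 4 / 7 * x + 1000 * d)
    (n0 : t < 1 / 2 * a0 + 1 / 2 * a1 + 1 / 2 * a2 + 1 / 2 * a3 + 1 / 2 * a4 + 1 / 2 * b0 + 1 / 2 * b1 + 1 / 2 * b2 + 1 / 2 * b3 + 1 / 2 * b4 + c0 + c1 + c2 + c4)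
    (n4 : t < a1 + a2 + a3 + a4 + b0 + b1 + b3 + b4 + c0 + c1 + c3 + c4)
    (n5 : t < a0 + a2 + a3 + a4 + b0 + b2 + b4 + c2 + c3 + c4)
    (n6 : t < 1 / 2 * a0 + 1 / 2 * a1 + 1 / 2 * a2 + 1 / 2 * a3 + 1 / 2 * a4 + b2 + b3 + b4 + 1 / 2 * c0 + 1 / 2 * c1 + 1 / 2 * c2 + 1 / 2 * c3 + 1 / 2 * c4)
    (n9 : t < 1 / 2 * a0 + 1 / 2 * a1 + 1 / 2 * a2 + 1 / 2 * a3 + 1 / 2 * a4 + 1 / 2 * b0 + 1 / 2 * b1 + 1 / 2 * b2 + 1 / 2 * b3 + 1 / 2 * b4 + c2 + c3 + c4)
    (n10 : t < a0 + a1 + a3 + a4 + b0 + b1 + b3 + b4 + c0 + c1 + c3 + c4)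
    (n11 : t < a3 + a4 + b0 + b1 + b3 + b4 + c0 + c1 + c3 + c4)
    (n12 : t < a1 + a2 + a3 + a4 + b0 + b1 + b2 + b4 + c0 + c1 + c2 + c3 + c4)
    (n13 : t < a0 + a1 + a2 + a4 + b0 + b1 + b2 + b4 + c1 + c3 + c4)
    (n14 : t < a0 + a1 + a2 + a3 + a4 + 1 / 2 * b0 + 1 / 2 * b1 + 1 / 2 * b2 + 1 / 2 * b4 + 1 / 2 * c0 + 1 / 2 * c1 + 1 / 2 * c2 + 1 / 2 * c3 + 1 / 2 * c4) : False := by
  obtain ⟨B0, B1, B2, B3, B4, B5, B6, B7, B8, B9, B10, pa0, pa1, pa2, pa3, pa4, pb0, pb1, pb2, pb3, pb4, pc0, pc1, pc2, pc3, pc4, pya, pyb, pyc⟩ := id HB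
  rcases H.f27 with n15 | n15
  · rcases H.f28 with n16 | n16
    · rcases H.f29 with n17 | n17 | n17 | n17
      · rcases H.f30 with n18 | n18
        · exact sub2 a0 a1 a2 a3 a4 b0 b1 b2 b3 b4 c0 c1 c2 c3 c4 ya yb yc t x d H HB hx hd ht n0 n4 n5 n6 n9 n11 n13 n15 n16 n17 n18
        · rcases H.f17 with n19 | n19
          · linarith only [n11, n16, n18, n19, B0, B1, B3, B6, B7, pa0, pa2, pb3, pc0, pc2, pc3, pya, pyb, hx, hd, ht]
          · linarith only [n9, n11, n16, n17, n18, n19, B0, B1, B3, B4, B6, B7, B8, pa0, pa2, pb0, pb3, pc0, pya, pyb, hd, ht]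
      · linarith only [n6, n11, n13, n15, n16, n17, B0, B1, B2, B5, B6, B7, B9, pa2, pb2, pc0, pc3, pya, hx, hd, ht]
      · linarith only [n6, n11, n13, n14, n16, n17, B0, B1, B2, B5, B6, B7, B9, pa0, pa2, pb1, pc0, pc3, pyb, hd, ht]
      · rcases H.f47 with n18 | n18
        · linarith only [n6, n9, n16, n17, n18, B0, B2, B5, B7, B8, B9, pa0, pc0, pc3, pyb, hd, ht]
        · linarith only [n6, n11, n13, n14, n16, n17, n18, B0, B1, B2, B5, B6, B7, B9, pa2, pa3, pb1, pc0, pc3, hd, ht]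
    · rcases H.f15 with n17 | n17 | n17 | n17
      · exact sub3 a0 a1 a2 a3 a4 b0 b1 b2 b3 b4 c0 c1 c2 c3 c4 ya yb yc t x d H HB hx hd ht n0 n4 n6 n9 n10 n11 n13 n14 n15 n16 n17
      · linarith only [n0, n11, n15, n16, n17, B0, B1, B5, B6, B9, pa2, pb3, pc0, hx, hd, ht]
      · rcases H.f25 with n18 | n18
        · linarith only [n0, n4, n6, n9, n14, n17, n18, B0, B2, B5, B7, B8, pa0, pb1, pyb, pyc, hd, ht]
        · linarith only [n4, n6, n9, n17, n18, B0, B2, B5, B7, B8, pa0, pb1, pc0, pyb, pyc, hx, hd, ht]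
      · linarith only [n0, n9, n17, B0, B5, B8, pc1, pyc, hx, hd, ht]
  · rcases H.f50 with n16 | n16
    · linarith only [n15, n16, B0, B1, B6, B9, pa1, pa2, pya, hx, hd, ht]
    · rcases H.f43 with n17 | n17
      · rcases H.f20 with n18 | n18 | n18 | n18
        · linarith only [n6, n15, n16, n18, B0, B2, B7, B10, pyb, hd, ht]
        · linarith only [n6, n9, n13, n15, n17, n18, B0, B3, B4, B7, B8, B9, pa0, pa1, pa2, pa4, pb0, pyc, hd, ht]
        · linarith only [n6, n12, n15, n17, n18, B0, B1, B3, B6, B7, pa2, pb0, pya, pyb, hx, hd, ht]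
        · linarith only [n6, n9, n13, n15, n17, n18, B0, B3, B4, B7, B8, pa0, pa1, pa2, pa4, pb1, pb3, pyc, hd, ht]
      · rcases H.f30 with n18 | n18
        · rcases H.f16 with n19 | n19
          · rcases H.f51 with n20 | n20
            · rcases H.f37 with n21 | n21 | n21 | n21
              · rcases H.f45 with n22 | n22
                · linarith only [n6, n15, n18, n21, n22, B0, B1, B2, B6, B7, B10, pa2, pya, pyb, hd, ht]
                · rcases H.f20 with n23 | n23 | n23 | n23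
                  · linarith only [n0, n6, n9, n13, n15, n16, n20, n22, n23, B0, B2, B4, B7, B8, pb0, hx, hd, ht]
                  · linarith only [n6, n17, n23, B0, B3, B7, B9, pb0, pyb, hx, hd, ht]
                  · linarith only [n9, n11, n15, n17, n19, n21, n22, n23, B0, B1, B3, B4, B6, B8, pa2, pb0, pc1, hx, hd, ht]
                  · linarith only [n9, n11, n15, n17, n19, n21, n22, n23, B0, B1, B3, B4, B6, B8, pa2, pb0, pc1, hx, hd, ht]
              · linarith only [n6, n9, n13, n15, n17, n18, n19, n20, n21, B0, B2, B4, B6, B7, B8, pa0, pa1, pa2, pya, pyb, hd, ht]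
              · linarith only [n6, n9, n13, n15, n17, n18, n19, n20, n21, B0, B2, B4, B6, B7, B8, B9, pa0, pa1, pa2, pya, hd, ht]
              · linarith only [n6, n9, n13, n15, n17, n18, n19, n20, n21, B0, B2, B4, B6, B7, B8, B9, pa1, pa2, pya, hx, hd, ht]
            · linarith only [n4, n6, n9, n11, n13, n15, n18, n20, B0, B1, B2, B5, B6, B7, B9, pa2, pb1, pc0, hx, hd, ht]
          · linarith only [n15, n18, n19, B0, B3, pb0, hx, hd, ht]
        · linarith only [n4, n11, n17, n18, B0, B1, B3, B6, pa2, pc2, pya, hx, hd, ht]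

theorem sub5 (a0 a1 a2 a3 a4 b0 b1 b2 b3 b4 c0 c1 c2 c3 c4 ya yb yc t x d : ℝ)
    (H : Facts a0 a1 a2 a3 a4 b0 b1 b2 b3 b4 c0 c1 c2 c3 c4 ya yb yc t)
    (HB : BaseC a0 a1 a2 a3 a4 b0 b1 b2 b3 b4 c0 c1 c2 c3 c4 ya yb yc x d)
    (hx : 0 ≤ x) (hd : 0 ≤ d) (ht : t = 4 / 7 - 4 / 7 * x + 1000 * d)
    (n0 : t < 1 / 2 * a0 + 1 / 2 * a1 + 1 / 2 * a2 + 1 / 2 * a3 + 1 / 2 * a4 + 1 / 2 * b0 + 1 / 2 * b1 + 1 / 2 * b2 + 1 / 2 * b3 + 1 / 2 * b4 + c0 + c1 + c2 + c4)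
    (n1 : t < a0 + a1 + a2 + a3 + a4 + b1 + b2 + b3 + b4 + c0 + c1 + c3 + c4)
    (n2 : t < a0 + a1 + a2 + a3 + a4 + b0 + b2 + b3 + b4 + c1 + c2 + c3 + c4)
    (n3 : t < a0 + a1 + a2 + a3 + a4 + b1 + b2 + b3 + b4 + c2 + c3 + c4)
    (n4 : t < a1 + a2 + a3 + a4 + b0 + b1 + b3 + b4 + c0 + c1 + c3 + c4)
    (n5 : t < a0 + a2 + a3 + a4 + b0 + b2 + b4 + c2 + c3 + c4) : False := by
  obtain ⟨B0, B1, B2, B3, B4, B5, B6, B7, B8, B9, B10, pa0, pa1, pa2, pa3, pa4, pb0, pb1, pb2, pb3, pb4, pc0, pc1, pc2, pc3, pc4, pya, pyb, pyc⟩ := id HB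
  rcases H.f6 with n6 | n6 | n6 | n6
  · rcases H.f7 with n7 | n7
    · rcases H.f8 with n8 | n8
      · rcases H.f9 with n9 | n9 | n9 | n9
        · rcases H.f10 with n10 | n10
          · rcases H.f11 with n11 | n11
            · rcases H.f12 with n12 | n12
              · rcases H.f13 with n13 | n13
                · rcases H.f14 with n14 | n14
                  · rcases H.f15 with n15 | n15 | n15 | n15
                    · rcases H.f16 with n16 | n16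
                      · exact sub0 a0 a1 a2 a3 a4 b0 b1 b2 b3 b4 c0 c1 c2 c3 c4 ya yb yc t x d H HB hx hd ht n0 n4 n6 n9 n10 n11 n13 n14 n15 n16
                      · rcases H.f17 with n17 | n17
                        · linarith only [n4, n11, n16, n17, B0, B1, B3, B6, B7, pa2, pb1, pb3, pc2, pya, pyb, hx, hd, ht]
                        · linarith only [n9, n10, n15, n16, n17, B0, B3, B4, B8, pa2, hx, hd, ht]
                    · linarith only [n0, n14, n15, B0, B5, B9, pb3, pc0, hx, hd, ht]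
                    · rcases H.f25 with n16 | n16
                      · rcases H.f26 with n17 | n17
                        · linarith only [n0, n6, n9, n15, n16, n17, B0, B2, B5, B7, B8, B10, pb1, pyb, pyc, hd, ht]
                        · linarith only [n1, n4, n6, n11, n13, n15, n16, n17, B0, B1, B2, B5, B6, B7, B8, pa2, pb1, pc0, pyb, pyc, hd, ht]
                      · linarith only [n6, n9, n10, n15, n16, B0, B2, B5, B7, B8, pa2, pb1, pc0, pyb, pyc, hx, hd, ht]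
                    · linarith only [n0, n9, n15, B0, B5, B8, pc1, pyc, hx, hd, ht]
                  · exact sub4 a0 a1 a2 a3 a4 b0 b1 b2 b3 b4 c0 c1 c2 c3 c4 ya yb yc t x d H HB hx hd ht n0 n4 n5 n6 n9 n10 n11 n12 n13 n14
                · rcases H.f47 with n14 | n14
                  · linarith only [n1, n4, n6, n13, n14, B0, B2, B5, B7, B9, pa0, pb1, pyb, hd, ht]
                  · linarith only [n4, n11, n13, n14, B0, B1, B5, B6, pa2, pb2, pya, hx, hd, ht]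
              · linarith only [n12, B0, B2, pb0, pb1, pb2, pyb, hx, hd, ht]
            · rcases H.f52 with n12 | n12
              · linarith only [n11, n12, B0, B1, B6, B9, pa0, pa3, pya, hx, hd, ht]
              · rcases H.f53 with n13 | n13 | n13 | n13
                · rcases H.f54 with n14 | n14
                  · linarith only [n6, n11, n12, n13, n14, B0, B1, B2, B6, B7, pa3, pya, pyb, hx, hd, ht]
                  · linarith only [n7, n11, n13, n14, B0, B1, B3, B6, pa3, pya, hx, hd, ht]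
                · linarith only [n6, n11, n13, B0, B2, B6, B7, pa3, pb1, pb3, pya, pyb, hx, hd, ht]
                · linarith only [n11, n13, B0, B6, B9, pa0, pa1, pa3, pya, hx, hd, ht]
                · linarith only [n11, n13, B0, B1, pa0, pa3, pa4, pya, hx, hd, ht]
          · rcases H.f48 with n11 | n11
            · linarith only [n10, n11, B0, B5, B9, pc0, pc1, pc3, pc4, hx, hd, ht]
            · linarith only [n4, n6, n10, n11, B0, B2, B5, B7, pa0, pb1, pyb, hx, hd, ht]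
        · rcases H.f55 with n10 | n10
          · linarith only [n9, n10, B0, B1, B5, B6, B9, pa1, pa3, pb3, pc0, pya, hx, hd, ht]
          · linarith only [n10, B0, B1, pa0, pa2, pa3, pya, hx, hd, ht]
        · linarith only [n4, n6, n8, n9, B0, B2, B5, B7, B8, B10, pa0, pb1, pc0, pc3, pyb, pyc, hd, ht]
        · linarith only [n3, n5, n6, n8, n9, B0, B2, B5, B7, B9, pa1, pc0, pc2, pc3, pc4, hx, hd, ht]
      · linarith only [n3, n5, n8, B0, B2, B5, B7, B9, pa1, pb3, pc0, pc2, pc3, pc4, pyb, hx, hd, ht]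
    · linarith only [n7, B0, B5, hx, hd, ht]
  · linarith only [n2, n5, n6, B0, B3, B4, B7, B8, B9, pa0, pa1, pa2, pa3, pa4, pb3, pc3, pyb, pyc, hx, hd, ht]
  · rcases H.f56 with n7 | n7
    · linarith only [n0, n6, n7, B0, B1, B3, B6, pa1, pa2, pb0, pc3, pya, hx, hd, ht]
    · linarith only [n0, n6, n7, B0, B1, B3, B6, pa3, pb0, pc3, pya, hx, hd, ht]
  · linarith only [n2, n6, B0, B3, pb0, pb2, pb3, pb4, pc0, hx, hd, ht]

theorem sub6 (a0 a1 a2 a3 a4 b0 b1 b2 b3 b4 c0 c1 c2 c3 c4 ya yb yc t x d : ℝ)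
    (H : Facts a0 a1 a2 a3 a4 b0 b1 b2 b3 b4 c0 c1 c2 c3 c4 ya yb yc t)
    (HB : BaseC a0 a1 a2 a3 a4 b0 b1 b2 b3 b4 c0 c1 c2 c3 c4 ya yb yc x d)
    (hx : 0 ≤ x) (hd : 0 ≤ d) (ht : t = 4 / 7 - 4 / 7 * x + 1000 * d)
    (n0 : t < 5 / 4 * a0 + 5 / 4 * a1 + 5 / 4 * a2 + 5 / 4 * a3 + 5 / 4 * a4 + 1 / 2 * b0 + 1 / 2 * b1 + 1 / 2 * b2 + 1 / 2 * b3 + 1 / 2 * b4 + 1 / 2 * c0 - 1 / 2 * c2 + c4 - 1 / 2 * yc)
    (n2 : t < a0 + a2 + a3 + a4 + b0 + b1 + b2 + b3 + b4 + c0 + c1 + c2 + c4)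
    (n3 : t < a0 + a1 + a2 + a3 + a4 + 1 / 2 * b0 + 1 / 2 * b1 + 1 / 2 * b2 + 1 / 2 * b3 + 1 / 2 * b4 + 1 / 2 * c0 + 1 / 2 * c1 + 1 / 2 * c2 + 1 / 2 * c4)
    (n4 : t < a2 + a3 + a4 + b0 + b1 + b2 + b4 + c0 + c1 + c2 + c4)
    (n6 : t < a0 + a1 + a3 + a4 + b0 + b1 + b3 + b4 + c0 + c1 + c3 + c4)
    (n7 : t < 1 / 2 * a0 + 1 / 2 * a1 + 1 / 2 * a2 + 1 / 2 * a3 + 1 / 2 * a4 + b1 + b2 + b3 + b4 + 1 / 2 * c0 + 1 / 2 * c1 + 1 / 2 * c2 + 1 / 2 * c3 + 1 / 2 * c4)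
    (n8 : t < a1 + a2 + a3 + a4 + b0 + b2 + b4 + c0 + c1 + c2 + c4)
    (n9 : t < a2 + a3 + a4 + b0 + b2 + b3 + b4 + c0 + c2 + c4)
    (n10 : t < 1 / 2 * a0 + 1 / 2 * a1 + 1 / 2 * a2 + 1 / 2 * a3 + 1 / 2 * a4 + 1 / 2 * b0 + 1 / 2 * b1 + 1 / 2 * b2 + 1 / 2 * b3 + 1 / 2 * b4 + c1 + c2 + c3 + c4)
    (n11 : t < a1 + a2 + a3 + a4 + b0 + b1 + b3 + b4 + c0 + c1 + c3 + c4)
    (n12 : t < 1 / 2 * a0 + 1 / 2 * a1 + 1 / 2 * a2 + 1 / 2 * a3 + 1 / 2 * a4 + b0 + b1 + b2 + b3 + b4 + 1 / 2 * c0 + 1 / 2 * c1 + 1 / 2 * c2 + 1 / 2 * c4)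
    (n13 : t < 1 / 2 * a0 + 1 / 2 * a1 + 1 / 2 * a2 + 1 / 2 * a3 + 1 / 2 * a4 + b2 + b3 + b4 + 1 / 2 * c0 + 1 / 2 * c1 + 1 / 2 * c2 + 1 / 2 * c3 + 1 / 2 * c4)
    (n14 : t < a2 + a3 + a4 + b0 + b1 + b3 + b4 + c0 + c1 + c2 + c3 + c4)
    (n15 : t < 1 / 2 * a0 + 1 / 2 * a1 + 1 / 2 * a2 + 1 / 2 * a3 + 1 / 2 * a4 + 1 / 2 * b0 + 1 / 2 * b1 + 1 / 2 * b2 + 1 / 2 * b3 + 1 / 2 * b4 + c2 + c3 + c4)
    (n16 : t < a0 + a1 + a2 + a3 + a4 + 1 / 2 * b0 + 1 / 2 * b1 + 1 / 2 * b3 + 1 / 2 * b4 + 1 / 2 * c0 + 1 / 2 * c1 + 1 / 2 * c2 + 1 / 2 * c3 + 1 / 2 * c4) : False := by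
  obtain ⟨B0, B1, B2, B3, B4, B5, B6, B7, B8, B9, B10, pa0, pa1, pa2, pa3, pa4, pb0, pb1, pb2, pb3, pb4, pc0, pc1, pc2, pc3, pc4, pya, pyb, pyc⟩ := id HB
  rcases H.f16 with n17 | n17
  · rcases H.f73 with n18 | n18
    · rcases H.f74 with n19 | n19
      · rcases H.f75 with n20 | n20
        · rcases H.f38 with n21 | n21 | n21 | n21
          · rcases H.f76 with n22 | n22
            · rcases H.f22 with n23 | n23 | n23 | n23
              · linarith only [n0, n4, n7, n12, n13, n19, n21, n23, B0, B1, B2, B5, B6, B7, B9, pya, hd, ht]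
              · linarith only [n0, n15, n16, n22, n23, B0, B3, B8, B9, pa2, pb0, pyc, hx, hd, ht]
              · linarith only [n0, n9, n13, n18, n19, n20, n21, n22, n23, B0, B1, B3, B5, B6, B7, B8, pa1, pb0, pya, hx, hd, ht]
              · linarith only [n0, n8, n9, n13, n15, n17, n19, n20, n21, n22, n23, B0, B1, B3, B5, B6, B7, B8, pa1, pyc, hd, ht]
            · linarith only [n3, n12, n13, n17, n18, n19, n21, n22, B0, B1, B2, B5, B6, B7, B9, hd, ht]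
          · linarith only [n0, n3, n4, n7, n9, n10, n13, n15, n17, n20, n21, B0, B2, B5, B6, B7, B8, pa3, pya, hd, ht]
          · linarith only [n0, n3, n4, n7, n9, n10, n13, n15, n20, n21, B0, B2, B5, B6, B7, B8, B9, pa3, pya, hd, ht]
          · rcases H.f77 with n22 | n22
            · linarith only [n0, n3, n7, n9, n10, n13, n15, n20, n21, n22, B0, B2, B5, B6, B7, B8, B9, pa3, pb3, hd, ht]
            · linarith only [n21, n22, B0, B1, pa0, pa3, pa4, pya, hx, hd, ht]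
        · rcases H.f38 with n21 | n21 | n21 | n21
          · linarith only [n0, n4, n8, n13, n17, n20, n21, B0, B1, B2, B5, B6, B7, B9, pa0, pb0, pya, hd, ht]
          · linarith only [n0, n4, n9, n13, n17, n20, n21, B0, B2, B5, B6, B7, pa0, pa2, pc1, pya, pyb, hx, hd, ht]
          · linarith only [n0, n13, n17, n20, n21, B0, B2, B5, B6, B7, B9, pa0, pa2, pya, pyb, hx, hd, ht]
          · linarith only [n0, n2, n20, n21, B0, B5, B9, pa0, pa2, pa4, pya, hx, hd, ht]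
      · rcases H.f52 with n20 | n20
        · linarith only [n19, n20, B0, B1, B6, B9, pa1, pa3, pya, hx, hd, ht]
        · linarith only [n0, n4, n7, n13, n18, n19, n20, B0, B1, B2, B5, B6, B7, pa1, pya, pyb, hx, hd, ht]
    · rcases H.f78 with n19 | n19
      · rcases H.f79 with n20 | n20
        · rcases H.f80 with n21 | n21
          · rcases H.f81 with n22 | n22
            · rcases H.f74 with n23 | n23
              · rcases H.f82 with n24 | n24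
                · rcases H.f77 with n25 | n25
                  · rcases H.f83 with n26 | n26
                    · linarith only [n12, n13, n17, n18, n26, B0, B2, B5, B7, pa3, hx, hd, ht]
                    · rcases H.f84 with n27 | n27
                      · linarith only [n3, n10, n17, n18, n20, n25, n26, n27, B0, B1, B3, B5, B6, B7, B8, pa3, pc1, pyc, hx, hd, ht]
                      · linarith only [n8, n9, n16, n17, n18, n22, n25, n26, n27, B0, B1, B3, B5, B6, pb0, pc1, pc2, hx, hd, ht]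
                  · linarith only [n7, n12, n18, n22, n24, n25, B0, B2, B5, B7, pc2, hx, hd, ht]
                · linarith only [n3, n4, n10, n13, n17, n18, n20, n23, n24, B0, B1, B3, B5, B6, B7, B8, pa0, pc1, pyc, hx, hd, ht]
              · linarith only [n12, n13, n18, n19, n22, n23, B0, B2, B5, B7, pc2, hx, hd, ht]
            · linarith only [n6, n8, n9, n11, n16, n17, n18, n21, n22, B0, B1, B3, B5, B6, B7, pa1, pb0, pc1, hx, hd, ht]
          · linarith only [n18, n21, B0, B5, pc0, pc1, pc2, pc4, hx, hd, ht]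
        · linarith only [n4, n20, B0, pa0, hx, hd, ht]
      · linarith only [n7, n12, n13, n18, n19, B0, B2, B5, B7, pb4, hd, ht]
  · linarith only [n6, n11, n14, n16, n17, B0, B1, B3, B6, pc2, pya, hx, hd, ht]

theorem sub7 (a0 a1 a2 a3 a4 b0 b1 b2 b3 b4 c0 c1 c2 c3 c4 ya yb yc t x d : ℝ)
    (H : Facts a0 a1 a2 a3 a4 b0 b1 b2 b3 b4 c0 c1 c2 c3 c4 ya yb yc t)
    (HB : BaseC a0 a1 a2 a3 a4 b0 b1 b2 b3 b4 c0 c1 c2 c3 c4 ya yb yc x d)
    (hx : 0 ≤ x) (hd : 0 ≤ d) (ht : t = 4 / 7 - 4 / 7 * x + 1000 * d)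
    (n0 : t < 5 / 4 * a0 + 5 / 4 * a1 + 5 / 4 * a2 + 5 / 4 * a3 + 5 / 4 * a4 + 1 / 2 * b0 + 1 / 2 * b1 + 1 / 2 * b2 + 1 / 2 * b3 + 1 / 2 * b4 + 1 / 2 * c0 - 1 / 2 * c2 + c4 - 1 / 2 * yc)
    (n1 : t < a1 + a2 + a3 + a4 + b0 + b1 + b2 + b3 + b4 + c0 + c1 + c2 + c4)
    (n2 : t < a0 + a2 + a3 + a4 + b0 + b1 + b2 + b3 + b4 + c0 + c1 + c2 + c4)
    (n3 : t < a0 + a1 + a2 + a3 + a4 + 1 / 2 * b0 + 1 / 2 * b1 + 1 / 2 * b2 + 1 / 2 * b3 + 1 / 2 * b4 + 1 / 2 * c0 + 1 / 2 * c1 + 1 / 2 * c2 + 1 / 2 * c4)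
    (n4 : t < a2 + a3 + a4 + b0 + b1 + b2 + b4 + c0 + c1 + c2 + c4)
    (n5 : t < 1 / 2 * a0 + 1 / 2 * a1 + 1 / 2 * a2 + 1 / 2 * a3 + 1 / 2 * a4 + 1 / 2 * b0 + 1 / 2 * b1 + 1 / 2 * b2 + 1 / 2 * b3 + 1 / 2 * b4 + c0 + c1 + c2 + c3 + c4) : False := by
  obtain ⟨B0, B1, B2, B3, B4, B5, B6, B7, B8, B9, B10, pa0, pa1, pa2, pa3, pa4, pb0, pb1, pb2, pb3, pb4, pc0, pc1, pc2, pc3, pc4, pya, pyb, pyc⟩ := id HB
  rcases H.f10 with n6 | n6
  · rcases H.f62 with n7 | n7 | n7 | n7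
    · rcases H.f63 with n8 | n8
      · rcases H.f64 with n9 | n9
        · rcases H.f65 with n10 | n10 | n10 | n10
          · rcases H.f4 with n11 | n11
            · rcases H.f66 with n12 | n12
              · rcases H.f67 with n13 | n13 | n13 | n13
                · linarith only [n0, n12, n13, B0, B1, B5, B6, B9, pa1, pa2, pya, hx, hd, ht]
                · linarith only [n0, n12, n13, B0, B5, B6, B9, pa3, pya, hx, hd, ht]
                · linarith only [n0, n12, n13, B0, B5, B6, B9, pa3, pya, hx, hd, ht]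
                · rcases H.f68 with n14 | n14
                  · linarith only [n0, n12, n13, n14, B0, B5, B6, B9, pya, hx, hd, ht]
                  · rcases H.f41 with n15 | n15
                    · rcases H.f69 with n16 | n16
                      · linarith only [n0, n12, n14, n15, n16, B0, B1, B5, B6, pa3, pya, hx, hd, ht]
                      · linarith only [n0, n12, n14, n15, n16, B0, B1, B5, B6, pa3, pya, hx, hd, ht]
                    · linarith only [n14, n15, B0, B1, B9, pa0, pa3, pa4, pya, hx, hd, ht]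
              · rcases H.f6 with n13 | n13 | n13 | n13
                · rcases H.f70 with n14 | n14
                  · rcases H.f9 with n15 | n15 | n15 | n15
                    · rcases H.f43 with n16 | n16
                      · rcases H.f71 with n17 | n17 | n17 | n17
                        · rcases H.f72 with n18 | n18
                          · linarith only [n0, n3, n12, n13, n16, n17, n18, B0, B2, B5, B7, hd, ht]
                          · linarith only [n4, n7, n8, n17, n18, B0, B1, B3, B6, B7, pa0, pa1, pa3, pb4, pya, hd, ht]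
                        · linarith only [n0, n16, n17, B0, B5, pb2, hx, hd, ht]
                        · linarith only [n0, n4, n7, n8, n13, n16, n17, B0, B1, B2, B5, B6, B7, pa3, pb2, pya, hx, hd, ht]
                        · linarith only [n0, n16, n17, B0, B5, B9, pb2, hx, hd, ht]
                      · exact sub6 a0 a1 a2 a3 a4 b0 b1 b2 b3 b4 c0 c1 c2 c3 c4 ya yb yc t x d H HB hx hd ht n0 n2 n3 n4 n6 n7 n8 n9 n10 n11 n12 n13 n14 n15 n16
                    · linarith only [n0, n1, n14, n15, B0, B1, B5, B6, B9, pa3, pb2, pc0, pya, hx, hd, ht]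
                    · linarith only [n0, n3, n7, n13, n15, B0, B2, B5, B7, pb3, pc0, pyb, hx, hd, ht]
                    · linarith only [n0, n15, B0, B5, B9, pc0, pc2, pc3, pc4, hx, hd, ht]
                  · linarith only [n14, B0, B1, pa0, pa2, pa3, pya, hx, hd, ht]
                · linarith only [n0, n3, n13, B0, B3, B5, B9, pb0, hx, hd, ht]
                · linarith only [n0, n1, n4, n9, n11, n13, B0, B1, B3, B5, B6, B7, pa3, pb0, pb1, pc1, pc2, pya, hx, hd, ht]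
                · linarith only [n0, n9, n13, B0, B1, B3, B5, B6, pa0, pa1, pa3, pb0, pb2, pb3, pb4, pc1, pya, hx, hd, ht]
            · linarith only [n11, B0, hx, hd, ht]
          · linarith only [n0, n1, n9, n10, B0, B1, B5, B6, B9, pa3, pb1, pc0, pc1, pya, hx, hd, ht]
          · linarith only [n0, n3, n10, B0, B5, pc0, pc1, pc2, pc4, hx, hd, ht]
          · linarith only [n10, B0, B5, pc0, pc1, pc2, pc3, pc4, hx, hd, ht]
        · linarith only [n2, n9, B0, hx, hd, ht]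
      · linarith only [n4, n8, B0, B1, B2, B4, B6, B7, B8, pa1, pa3, pb1, pb2, pc1, pc2, pya, pyb, pyc, hx, hd, ht]
    · linarith only [n0, n3, n7, B0, B3, B5, B9, pb0, hx, hd, ht]
    · linarith only [n0, n1, n4, n5, n7, B0, B1, B3, B5, B6, pa3, pb0, pb3, pya, hx, hd, ht]
    · linarith only [n1, n4, n7, B0, B1, B3, B6, B9, pa3, pb3, pc3, pya, hx, hd, ht]
  · linarith only [n0, n6, B0, B5, B9, pc0, pc1, pc4, hx, hd, ht]

end Pool.Agent.H705R2.ABC3
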