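import Mathlib
import Pool.Agent.H705R2.ABC3.Bd
import Pool.Agent.H705R2.ABC3.Tree0

/-!
# abc, exponent 4 lam/7 for 9/10 ≤ lam ≤ 1: the certificate (generated), part 1
-/

set_option linter.unusedVariables false

namespace Pool.Agent.H705R2.ABC3

theorem sub8 (a0 a1 a2 a3 a4 b0 b1 b2 b3 b4 c0 c1 c2 c3 c4 ya yb yc t x d : ℝ)
    (H : Facts a0 a1 a2 a3 a4 b0 b1 b2 b3 b4 c0 c1 c2 c3 c4 ya yb yc t)
    (HB : BaseC a0 a1 a2 a3 a4 b0 b1 b2 b3 b4 c0 c1 c2 c3 c4 ya yb yc x d)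
    (hx : 0 ≤ x) (hd : 0 ≤ d) (ht : t = 4 / 7 - 4 / 7 * x + 1000 * d)
    (n0 : t < 1 / 2 * a0 + 1 / 2 * a1 + 1 / 2 * a2 + 1 / 2 * a3 + 1 / 2 * a4 + 5 / 4 * b0 + 5 / 4 * b1 + 5 / 4 * b2 + 5 / 4 * b3 + 5 / 4 * b4 + 1 / 2 * c0 - 1 / 2 * c2 + c4 - 1 / 2 * yc)
    (n1 : t < 1 / 2 * a0 + 1 / 2 * a1 + 1 / 2 * a2 + 1 / 2 * a3 + 1 / 2 * a4 + b1 + b2 + b3 + b4 + 1 / 2 * c0 + 1 / 2 * c1 + 1 / 2 * c2 + 1 / 2 * c3 + 1 / 2 * c4)
    (n2 : t < a1 + a2 + a3 + a4 + b0 + b2 + b3 + b4 + c0 + c1 + c2 + c4)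
    (n3 : t < 1 / 2 * a0 + 1 / 2 * a1 + 1 / 2 * a2 + 1 / 2 * a3 + 1 / 2 * a4 + b0 + b1 + b2 + b3 + b4 + 1 / 2 * c0 + 1 / 2 * c1 + 1 / 2 * c2 + 1 / 2 * c4)
    (n4 : t < 1 / 2 * a0 + 1 / 2 * a1 + 1 / 2 * a2 + 1 / 2 * a3 + 1 / 2 * a4 + b2 + b3 + b4 + 1 / 2 * c0 + 1 / 2 * c1 + 1 / 2 * c2 + 1 / 2 * c3 + 1 / 2 * c4)
    (n5 : t < a0 + a1 + a2 + a3 + a4 + b0 + b1 + b3 + b4 + c1 + c3 + c4)
    (n6 : t < a0 + a1 + a2 + a3 + a4 + b0 + b1 + b3 + b4 + c2 + c3 + c4) : False := by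
  obtain ⟨B0, B1, B2, B3, B4, B5, B6, B7, B8, B9, B10, pa0, pa1, pa2, pa3, pa4, pb0, pb1, pb2, pb3, pb4, pc0, pc1, pc2, pc3, pc4, pya, pyb, pyc⟩ := id HB
  rcases H.f87 with n7 | n7
  · rcases H.f88 with n8 | n8
    · rcases H.f89 with n9 | n9
      · rcases H.f65 with n10 | n10 | n10 | n10
        · rcases H.f17 with n11 | n11
          · rcases H.f90 with n12 | n12
            · rcases H.f91 with n13 | n13
              · rcases H.f92 with n14 | n14
                · rcases H.f71 with n15 | n15 | n15 | n15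
                  · rcases H.f93 with n16 | n16
                    · rcases H.f20 with n17 | n17 | n17 | n17
                      · linarith only [n0, n3, n4, n15, n16, n17, B0, B2, B5, B7, B10, pa0, pa1, hd, ht]
                      · linarith only [n4, n11, n17, B0, B3, B7, B9, pb0, pyb, hx, hd, ht]
                      · rcases H.f94 with n18 | n18
                        · linarith only [n0, n4, n11, n12, n15, n16, n17, n18, B0, B1, B3, B5, B6, B7, pb3, pya, hd, ht]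
                        · linarith only [n0, n2, n3, n13, n16, n17, n18, B0, B1, B3, B5, B6, B7, pb0, pb3, pc2, pya, hx, hd, ht]
                      · linarith only [n0, n2, n4, n11, n12, n13, n16, n17, B0, B1, B3, B5, B6, B7, pb3, pc2, pya, hx, hd, ht]
                    · linarith only [n14, n16, B0, hx, hd, ht]
                  · linarith only [n0, n4, n12, n15, B0, B2, B5, B7, pc0, pc1, pc2, pc4, pyb, hx, hd, ht]
                  · linarith only [n0, n1, n4, n11, n12, n15, B0, B2, B5, B7, B10, pyb, hd, ht]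
                  · linarith only [n0, n1, n4, n11, n12, n15, B0, B2, B5, B7, pyb, hx, hd, ht]
                · linarith only [n14, B0, B1, pa0, pa2, pa3, pya, hx, hd, ht]
              · linarith only [n0, n7, n9, n11, n12, n13, B0, B1, B3, B5, B6, B7, pa1, pb3, pc1, pc2, pc4, pya, pyb, hx, hd, ht]
            · linarith only [n1, n7, n9, n11, n12, B0, B1, B3, B6, B7, pa1, pb3, pc1, pc2, pc4, pya, pyb, hx, hd, ht]
          · rcases H.f33 with n12 | n12 | n12 | n12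
            · rcases H.f20 with n13 | n13 | n13 | n13
              · rcases H.f59 with n14 | n14
                · linarith only [n0, n4, n10, n12, n13, n14, B0, B2, B4, B7, B8, B10, pc2, pyb, hd, ht]
                · rcases H.f63 with n15 | n15
                  · rcases H.f95 with n16 | n16
                    · rcases H.f96 with n17 | n17
                      · rcases H.f97 with n18 | n18
                        · linarith only [n0, n3, n4, n10, n12, n13, n14, n15, n16, n18, B0, B1, B2, B5, B6, B7, B8, pb0, pc2, pya, hd, ht]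
                        · linarith only [n0, n3, n4, n12, n13, n17, n18, B0, B2, B5, B7, B8, pa0, pa3, pa4, pc0, pc2, pyb, hd, ht]
                      · linarith only [n3, n4, n13, n15, n17, B0, B2, B5, B7, pa0, pyb, hd, ht]
                    · linarith only [n0, n1, n4, n10, n13, n16, B0, B2, B5, B7, B8, pc1, pc2, pyb, hx, hd, ht]
                  · linarith only [n15, B0, B2, B4, pb0, pb1, pb2, pc0, pc1, pc2, pyb, pyc, hx, hd, ht]
              · linarith only [n4, n10, n11, n12, n13, B0, B3, B4, B7, B8, B10, pb0, pc2, pyb, pyc, hd, ht]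
              · linarith only [n0, n3, n4, n11, n13, B0, B3, B5, B7, pb0, pyb, hx, hd, ht]
              · linarith only [n3, n10, n11, n12, n13, B0, B3, B4, B8, pc2, pyc, hx, hd, ht]
            · linarith only [n0, n12, B0, B5, B9, pc0, pc1, pc4, pyc, hx, hd, ht]
            · linarith only [n0, n1, n4, n5, n9, n11, n12, B0, B2, B5, B7, B8, B10, pa2, pyb, pyc, hd, ht]
            · linarith only [n0, n1, n4, n5, n9, n11, n12, B0, B2, B5, B7, B8, pa2, pyb, pyc, hx, hd, ht]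
        · linarith only [n0, n3, n10, B0, B5, pc0, pc1, pc2, pc4, hx, hd, ht]
        · linarith only [n1, n4, n8, n9, n10, B0, B2, B5, B7, B8, pa2, pa3, pb3, pc0, pyb, pyc, hx, hd, ht]
        · linarith only [n10, B0, B5, pc0, pc1, pc2, pc3, pc4, hx, hd, ht]
      · linarith only [n0, n1, n4, n5, n6, n7, n9, B0, B2, B5, B7, B8, pa0, pa1, pb3, pyb, hx, hd, ht]
    · linarith only [n1, n4, n8, B0, B1, B3, B4, B6, B7, B8, pa1, pa2, pb3, pc1, pc2, pya, pyb, pyc, hx, hd, ht]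
  · linarith only [n7, B0, B1, pa0, pa2, pa3, pya, hx, hd, ht]

theorem sub9 (a0 a1 a2 a3 a4 b0 b1 b2 b3 b4 c0 c1 c2 c3 c4 ya yb yc t x d : ℝ)
    (H : Facts a0 a1 a2 a3 a4 b0 b1 b2 b3 b4 c0 c1 c2 c3 c4 ya yb yc t)
    (HB : BaseC a0 a1 a2 a3 a4 b0 b1 b2 b3 b4 c0 c1 c2 c3 c4 ya yb yc x d)
    (hx : 0 ≤ x) (hd : 0 ≤ d) (ht : t = 4 / 7 - 4 / 7 * x + 1000 * d)
    (n0 : t < 5 / 4 * a0 + 5 / 4 * a1 + 5 / 4 * a2 + 5 / 4 * a3 + 5 / 4 * a4 + 5 / 4 * b0 + 5 / 4 * b1 + 5 / 4 * b2 + 5 / 4 * b3 + 5 / 4 * b4 - c1 - 2 * c2 + c4 - yc)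
    (n3 : t < 1 / 2 * a0 + 1 / 2 * a1 + 1 / 2 * a2 + 1 / 2 * a3 + 1 / 2 * a4 + b2 + b3 + b4 + 1 / 2 * c0 + 1 / 2 * c1 + 1 / 2 * c2 + 1 / 2 * c3 + 1 / 2 * c4)
    (n5 : t < a1 + a2 + a3 + a4 + b0 + b1 + b2 + b3 + b4 + c0 + c1 + c2 + c4)
    (n6 : t < a0 + a1 + a3 + a4 + b0 + b1 + b3 + b4 + c0 + c2 + c3 + c4)
    (n7 : t < 1 / 2 * a0 + 1 / 2 * a1 + 1 / 2 * a2 + 1 / 2 * a3 + 1 / 2 * a4 + 1 / 2 * b0 + 1 / 2 * b1 + 1 / 2 * b2 + 1 / 2 * b3 + 1 / 2 * b4 + c2 + c3 + c4)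
    (n9 : t < a2 + a3 + a4 + b0 + b1 + b3 + b4 + c0 + c1 + c2 + c3 + c4)
    (n11 : t < a0 + a1 + a2 + a3 + a4 + 1 / 2 * b0 + 1 / 2 * b1 + 1 / 2 * b2 + 1 / 2 * b3 + 1 / 2 * b4 + 1 / 2 * c0 + 1 / 2 * c1 + 1 / 2 * c2 + 1 / 2 * c4)
    (n12 : t < a3 + a4 + b0 + b1 + b2 + b4 + c0 + c1 + c2 + c4)
    (n13 : t < 1 / 2 * a0 + 1 / 2 * a1 + 1 / 2 * a2 + 1 / 2 * a3 + 1 / 2 * a4 + 1 / 2 * b0 + 1 / 2 * b1 + 1 / 2 * b2 + 1 / 2 * b3 + 1 / 2 * b4 + c1 + c3 + c4) : False := by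
  obtain ⟨B0, B1, B2, B3, B4, B5, B6, B7, B8, B9, B10, pa0, pa1, pa2, pa3, pa4, pb0, pb1, pb2, pb3, pb4, pc0, pc1, pc2, pc3, pc4, pya, pyb, pyc⟩ := id HB
  rcases H.f66 with n14 | n14
  · rcases H.f37 with n15 | n15 | n15 | n15
    · rcases H.f38 with n16 | n16 | n16 | n16
      · linarith only [n0, n12, n14, n15, n16, B0, B1, B5, B6, B9, pb3, pya, hx, hd, ht]
      · linarith only [n0, n12, n14, n16, B0, B5, B6, B9, pa2, pb3, pya, hx, hd, ht]
      · linarith only [n0, n12, n14, n16, B0, B5, B6, B9, pa2, pb3, pya, hx, hd, ht]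
      · linarith only [n0, n12, n14, n16, B0, B5, B6, B9, pa2, pb3, pya, hx, hd, ht]
    · linarith only [n0, n12, n14, n15, B0, B5, B6, B9, pa2, pb3, pya, hx, hd, ht]
    · linarith only [n0, n12, n14, n15, B0, B5, B6, B9, pa2, pb3, pya, hx, hd, ht]
    · linarith only [n0, n5, n12, n14, n15, B0, B5, B6, B9, pa2, pb3, pya, hx, hd, ht]
  · rcases H.f43 with n15 | n15
    · rcases H.f71 with n16 | n16 | n16 | n16
      · rcases H.f108 with n17 | n17
        · linarith only [n3, n11, n12, n14, n15, n16, n17, B0, B1, B2, B6, B7, B10, pa1, pa2, pa3, hd, ht]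
        · linarith only [n3, n11, n14, n15, n16, n17, B0, B2, B7, B10, pb1, hd, ht]
      · linarith only [n0, n3, n12, n15, n16, B0, B1, B2, B5, B6, B7, B9, pa1, pa2, pb1, pb2, pya, hd, ht]
      · linarith only [n0, n3, n12, n15, n16, B0, B1, B2, B5, B6, B7, B10, pa1, pa2, pb1, pya, pyb, hd, ht]
      · linarith only [n0, n3, n12, n15, n16, B0, B1, B2, B5, B6, B7, pa1, pa2, pb1, pya, pyb, hx, hd, ht]
    · rcases H.f16 with n16 | n16
      · rcases H.f17 with n17 | n17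
        · rcases H.f109 with n18 | n18
          · rcases H.f20 with n19 | n19 | n19 | n19
            · rcases H.f71 with n20 | n20 | n20 | n20
              · linarith only [n3, n5, n12, n14, n16, n19, n20, B0, B1, B2, B6, B7, B10, pa1, pa2, pb0, hd, ht]
              · linarith only [n0, n3, n12, n14, n16, n19, n20, B0, B1, B2, B5, B6, B7, pa1, pa2, pb0, pya, hd, ht]
              · linarith only [n0, n3, n12, n16, n19, n20, B0, B1, B2, B5, B6, B7, B10, pa1, pa2, pb0, pyb, hd, ht]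
              · linarith only [n0, n3, n5, n12, n19, n20, B0, B1, B2, B5, B6, B7, pa2, pb0, pb3, pya, hx, hd, ht]
            · linarith only [n3, n17, n19, B0, B3, B7, B9, pb0, pyb, hx, hd, ht]
            · rcases H.f49 with n20 | n20
              · linarith only [n0, n3, n9, n12, n17, n19, n20, B0, B1, B3, B5, B6, B7, pb0, pb3, pc2, hx, hd, ht]
              · linarith only [n0, n3, n12, n16, n19, n20, B0, B1, B3, B5, B6, B7, pa1, pa2, pb0, pya, hx, hd, ht]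
            · linarith only [n0, n3, n9, n12, n16, n17, n18, n19, B0, B1, B3, B5, B6, B7, pa1, pb3, hx, hd, ht]
          · linarith only [n0, n9, n12, n16, n17, n18, B0, B1, B2, B5, B6, B7, pa1, pa3, pb3, pyb, hx, hd, ht]
        · rcases H.f20 with n18 | n18 | n18 | n18
          · rcases H.f71 with n19 | n19 | n19 | n19
            · linarith only [n3, n5, n12, n14, n16, n18, n19, B0, B1, B2, B6, B7, B10, pa1, pa2, pb0, hd, ht]
            · linarith only [n0, n3, n12, n14, n16, n18, n19, B0, B1, B2, B5, B6, B7, pa1, pa2, pb0, pya, hd, ht]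
            · linarith only [n0, n3, n12, n16, n17, n18, n19, B0, B1, B2, B5, B6, B7, B10, pa1, pa2, pyb, hd, ht]
            · linarith only [n0, n3, n5, n12, n18, n19, B0, B1, B2, B5, B6, B7, pa2, pb0, pb3, pya, hx, hd, ht]
          · linarith only [n7, n13, n15, n18, B0, B3, B4, B8, pb0, pyc, hx, hd, ht]
          · linarith only [n0, n3, n5, n12, n17, n18, B0, B1, B3, B5, B6, B7, pa2, pb0, pb3, pya, hx, hd, ht]
          · linarith only [n7, n13, n17, n18, B0, B3, B4, B8, B9, pyc, hx, hd, ht]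
      · linarith only [n6, n9, n15, n16, B0, B1, B3, B6, pa1, pc1, pya, hx, hd, ht]

theorem sub10 (a0 a1 a2 a3 a4 b0 b1 b2 b3 b4 c0 c1 c2 c3 c4 ya yb yc t x d : ℝ)
    (H : Facts a0 a1 a2 a3 a4 b0 b1 b2 b3 b4 c0 c1 c2 c3 c4 ya yb yc t)
    (HB : BaseC a0 a1 a2 a3 a4 b0 b1 b2 b3 b4 c0 c1 c2 c3 c4 ya yb yc x d)
    (hx : 0 ≤ x) (hd : 0 ≤ d) (ht : t = 4 / 7 - 4 / 7 * x + 1000 * d)
    (n0 : t < 5 / 4 * a0 + 5 / 4 * a1 + 5 / 4 * a2 + 5 / 4 * a3 + 5 / 4 * a4 + 5 / 4 * b0 + 5 / 4 * b1 + 5 / 4 * b2 + 5 / 4 * b3 + 5 / 4 * b4 - c1 - 2 * c2 + c4 - yc)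
    (n3 : t < 1 / 2 * a0 + 1 / 2 * a1 + 1 / 2 * a2 + 1 / 2 * a3 + 1 / 2 * a4 + b2 + b3 + b4 + 1 / 2 * c0 + 1 / 2 * c1 + 1 / 2 * c2 + 1 / 2 * c3 + 1 / 2 * c4)
    (n4 : t < a0 + a2 + a3 + a4 + b0 + b1 + b2 + b3 + b4 + c0 + c2 + c4)
    (n5 : t < a1 + a2 + a3 + a4 + b0 + b1 + b2 + b3 + b4 + c0 + c1 + c2 + c4)
    (n6 : t < a0 + a1 + a3 + a4 + b0 + b1 + b3 + b4 + c0 + c2 + c3 + c4) : False := by
  obtain ⟨B0, B1, B2, B3, B4, B5, B6, B7, B8, B9, B10, pa0, pa1, pa2, pa3, pa4, pb0, pb1, pb2, pb3, pb4, pc0, pc1, pc2, pc3, pc4, pya, pyb, pyc⟩ := id HB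
  rcases H.f9 with n7 | n7 | n7 | n7
  · rcases H.f92 with n8 | n8
    · rcases H.f70 with n9 | n9
      · rcases H.f105 with n10 | n10 | n10 | n10
        · rcases H.f59 with n11 | n11
          · rcases H.f106 with n12 | n12
            · rcases H.f107 with n13 | n13 | n13 | n13
              · rcases H.f29 with n14 | n14 | n14 | n14
                · rcases H.f17 with n15 | n15
                  · linarith only [n0, n3, n7, n11, n13, n14, n15, B0, B2, B5, B7, B8, B10, pb1, pyb, hd, ht]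
                  · rcases H.f20 with n16 | n16 | n16 | n16
                    · linarith only [n0, n3, n7, n11, n13, n14, n16, B0, B2, B4, B7, B8, B10, pyb, hd, ht]
                    · linarith only [n3, n7, n14, n15, n16, B0, B3, B4, B7, B8, B10, pb0, pyb, pyc, hd, ht]
                    · linarith only [n0, n3, n11, n15, n16, B0, B3, B5, B7, pb0, pyb, hx, hd, ht]
                    · linarith only [n7, n11, n13, n14, n15, n16, B0, B3, B4, B8, pyc, hx, hd, ht]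
                · linarith only [n0, n10, n11, n13, n14, B0, B5, B8, B9, hx, hd, ht]
                · linarith only [n3, n10, n12, n13, n14, B0, B2, B5, B7, B8, B10, pa2, pb1, pb3, pyb, pyc, hd, ht]
                · linarith only [n0, n10, n14, B0, B5, B8, pc1, pyc, hx, hd, ht]
              · linarith only [n0, n10, n11, n13, B0, B5, B9, hx, hd, ht]
              · linarith only [n0, n3, n10, n12, n13, B0, B2, B5, B7, B8, pa2, pb1, pb3, pyb, pyc, hx, hd, ht]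
              · linarith only [n0, n10, n13, B0, B5, pc0, pc4, pyc, hx, hd, ht]
            · linarith only [n0, n3, n11, n12, B0, B2, B5, B7, pb1, pb3, pc1, pyb, hx, hd, ht]
          · rcases H.f77 with n12 | n12
            · rcases H.f29 with n13 | n13 | n13 | n13
              · exact sub9 a0 a1 a2 a3 a4 b0 b1 b2 b3 b4 c0 c1 c2 c3 c4 ya yb yc t x d H HB hx hd ht n0 n3 n5 n6 n7 n9 n11 n12 n13
              · linarith only [n0, n5, n10, n12, n13, B0, B1, B5, B6, B9, pa2, pb3, pc0, pya, hx, hd, ht]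
              · linarith only [n0, n3, n10, n11, n13, B0, B2, B5, B7, B8, pb1, pb3, pc0, pyb, pyc, hd, ht]
              · linarith only [n0, n10, n13, B0, B5, B8, pc1, pyc, hx, hd, ht]
            · rcases H.f41 with n13 | n13
              · rcases H.f38 with n14 | n14 | n14 | n14
                · linarith only [n3, n6, n12, n13, n14, B0, B1, B2, B6, B7, B10, pa0, pb1, pc1, pya, pyb, hd, ht]
                · linarith only [n3, n6, n9, n12, n14, B0, B2, B6, B7, pa0, pa3, pb1, pc1, pya, pyb, hx, hd, ht]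
                · linarith only [n12, n13, n14, B0, B6, B9, pa0, pa3, pya, hx, hd, ht]
                · linarith only [n0, n3, n4, n8, n9, n12, n14, B0, B2, B5, B7, pa0, pa3, pa4, pb1, pc1, pya, hx, hd, ht]
              · linarith only [n12, n13, B0, B1, B9, pa0, pa3, pa4, pya, hx, hd, ht]
        · rcases H.f60 with n11 | n11
          · linarith only [n0, n5, n10, n11, B0, B1, B5, B6, B9, pa3, pb3, pc0, pc1, pc4, pya, hx, hd, ht]
          · linarith only [n0, n8, n9, n10, n11, B0, B1, B5, B6, pa3, pb2, pb3, pc0, pc1, pc4, pya, hx, hd, ht]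
        · linarith only [n0, n3, n7, n10, B0, B2, B5, B7, B8, pb1, pb3, pc1, pyb, pyc, hx, hd, ht]
        · linarith only [n0, n10, B0, B5, pc0, pc1, pc4, pyc, hx, hd, ht]
      · linarith only [n0, n8, n9, B0, B5, pb3, pc0, pc1, pc2, pc4, hx, hd, ht]
    · linarith only [n0, n4, n8, B0, B5, pc0, pc1, pc2, pc4, hx, hd, ht]
  · linarith only [n0, n4, n5, n7, B0, B1, B5, B6, B9, pa3, pc0, pc1, pya, hx, hd, ht]
  · linarith only [n0, n3, n6, n7, B0, B2, B5, B7, B8, B10, pa2, pb1, pb3, pc0, pyb, pyc, hd, ht]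
  · linarith only [n0, n7, B0, B5, pc0, pc2, pc4, pyc, hx, hd, ht]

theorem sub11 (a0 a1 a2 a3 a4 b0 b1 b2 b3 b4 c0 c1 c2 c3 c4 ya yb yc t x d : ℝ)
    (H : Facts a0 a1 a2 a3 a4 b0 b1 b2 b3 b4 c0 c1 c2 c3 c4 ya yb yc t)
    (HB : BaseC a0 a1 a2 a3 a4 b0 b1 b2 b3 b4 c0 c1 c2 c3 c4 ya yb yc x d)
    (hx : 0 ≤ x) (hd : 0 ≤ d) (ht : t = 4 / 7 - 4 / 7 * x + 1000 * d)
    (n0 : t < 5 / 4 * a0 + 5 / 4 * a1 + 5 / 4 * a2 + 5 / 4 * a3 + 5 / 4 * a4 + 5 / 4 * b0 + 5 / 4 * b1 + 5 / 4 * b2 + 5 / 4 * b3 + 5 / 4 * b4 - c1 - 2 * c2 + c4 - yc) : False := by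
  obtain ⟨B0, B1, B2, B3, B4, B5, B6, B7, B8, B9, B10, pa0, pa1, pa2, pa3, pa4, pb0, pb1, pb2, pb3, pb4, pc0, pc1, pc2, pc3, pc4, pya, pyb, pyc⟩ := id HB
  rcases H.f61 with n1 | n1 | n1 | n1
  · rcases H.f102 with n2 | n2
    · rcases H.f6 with n3 | n3 | n3 | n3
      · rcases H.f103 with n4 | n4
        · rcases H.f57 with n5 | n5
          · rcases H.f104 with n6 | n6
            · exact sub10 a0 a1 a2 a3 a4 b0 b1 b2 b3 b4 c0 c1 c2 c3 c4 ya yb yc t x d H HB hx hd ht n0 n3 n4 n5 n6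
            · linarith only [n0, n6, B0, B5, pc0, pc2, pc4, pyc, hx, hd, ht]
          · linarith only [n5, B0, B4, pc0, pc1, pc2, pyc, hx, hd, ht]
        · linarith only [n4, B0, B3, B4, pc0, pc1, pc2, pyc, hx, hd, ht]
      · linarith only [n0, n2, n3, B0, B3, B4, B7, B8, B9, pa1, pb0, pb3, pc2, pyb, pyc, hx, hd, ht]
      · rcases H.f110 with n4 | n4
        · linarith only [n0, n1, n3, n4, B0, B1, B3, B5, B6, pa1, pa3, pb0, pya, hx, hd, ht]
        · linarith only [n4, B0, B1, pa0, pa2, pa3, pya, hx, hd, ht]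
      · linarith only [n2, n3, B0, B3, pa1, pb0, pb2, pb3, pb4, pc0, hx, hd, ht]
    · linarith only [n2, B0, B2, B5, pb0, pb1, pb2, pyb, hx, hd, ht]
  · rcases H.f37 with n2 | n2 | n2 | n2
    · linarith only [n1, n2, B0, B1, B5, B6, B9, pa2, pa3, pya, hx, hd, ht]
    · linarith only [n1, n2, B0, B5, B6, B9, pa2, pa3, pya, hx, hd, ht]
    · linarith only [n1, n2, B0, B5, B6, B9, pa2, pa3, pya, hx, hd, ht]
    · linarith only [n1, n2, B0, B5, B6, B9, pa1, pa2, pa3, pya, hx, hd, ht]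
  · rcases H.f111 with n2 | n2
    · rcases H.f6 with n3 | n3 | n3 | n3
      · linarith only [n1, n3, B0, B2, B5, B7, B9, B10, pb1, pb3, pyb, hd, ht]
      · linarith only [n0, n1, n2, n3, B0, B5, B7, B8, B9, pb3, pc2, pyb, pyc, hx, hd, ht]
      · linarith only [n1, n3, B0, B3, B5, B7, pb0, pb2, pb3, pyb, hx, hd, ht]
      · linarith only [n0, n1, n2, n3, B0, B5, B7, B8, pb3, pc0, pc2, pyb, pyc, hx, hd, ht]
    · linarith only [n2, B0, B2, pb0, pb2, pb3, pyb, hx, hd, ht]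
  · linarith only [n0, n1, B0, B5, pc0, pc1, pc2, pc4, hx, hd, ht]

theorem sub12 (a0 a1 a2 a3 a4 b0 b1 b2 b3 b4 c0 c1 c2 c3 c4 ya yb yc t x d : ℝ)
    (H : Facts a0 a1 a2 a3 a4 b0 b1 b2 b3 b4 c0 c1 c2 c3 c4 ya yb yc t)
    (HB : BaseC a0 a1 a2 a3 a4 b0 b1 b2 b3 b4 c0 c1 c2 c3 c4 ya yb yc x d)
    (hx : 0 ≤ x) (hd : 0 ≤ d) (ht : t = 4 / 7 - 4 / 7 * x + 1000 * d)
    (n0 : t < 1 / 2 * a0 + 1 / 2 * a1 + 1 / 2 * a2 + 1 / 2 * a3 + 1 / 2 * a4 + 5 / 4 * b0 + 5 / 4 * b1 + 5 / 4 * b2 + 5 / 4 * b3 + 5 / 4 * b4 + 1 / 2 * c0 - 1 / 2 * c2 + c4 - 1 / 2 * yc) : False := by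
  obtain ⟨B0, B1, B2, B3, B4, B5, B6, B7, B8, B9, B10, pa0, pa1, pa2, pa3, pa4, pb0, pb1, pb2, pb3, pb4, pc0, pc1, pc2, pc3, pc4, pya, pyb, pyc⟩ := id HB
  rcases H.f62 with n1 | n1 | n1 | n1
  · rcases H.f85 with n2 | n2
    · rcases H.f66 with n3 | n3
      · linarith only [n0, n3, B0, B5, B9, pc3, hx, hd, ht]
      · rcases H.f6 with n4 | n4 | n4 | n4
        · rcases H.f26 with n5 | n5
          · rcases H.f86 with n6 | n6
            · exact sub8 a0 a1 a2 a3 a4 b0 b1 b2 b3 b4 c0 c1 c2 c3 c4 ya yb yc t x d H HB hx hd ht n0 n1 n2 n3 n4 n5 n6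
            · linarith only [n1, n4, n6, B0, B2, B5, B7, B9, pb3, pc0, pc2, pc3, pc4, pyb, hx, hd, ht]
          · linarith only [n0, n1, n4, n5, B0, B2, B5, B7, B8, pb3, pc1, pc3, pyb, pyc, hx, hd, ht]
        · rcases H.f98 with n5 | n5
          · linarith only [n1, n4, n5, B0, B3, B7, B9, pb3, pyb, hx, hd, ht]
          · rcases H.f99 with n6 | n6
            · rcases H.f100 with n7 | n7
              · linarith only [n4, n6, n7, B0, B3, B4, B7, B8, B9, pa0, pa1, pa2, pa3, pa4, pb3, pc2, pc3, pyb, hx, hd, ht]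
              · linarith only [n7, B0, B4, pc0, pc1, pc2, pyc, hx, hd, ht]
            · linarith only [n0, n4, n5, n6, B0, B3, B5, B7, B8, pb3, pc1, pc3, pyb, pyc, hx, hd, ht]
        · linarith only [n0, n2, n4, B0, B3, B5, B7, pa0, pb0, pb3, pc0, pc1, pc2, pc4, pyb, hx, hd, ht]
        · linarith only [n0, n2, n4, B0, B3, B5, B9, pa0, pc3, hx, hd, ht]
    · linarith only [n2, B0, B4, pc0, pc1, pc2, pyc, hx, hd, ht]
  · rcases H.f98 with n2 | n2
    · linarith only [n1, n2, B0, B3, B7, B9, pa0, pa1, pa2, pa3, pa4, pb3, pyb, hx, hd, ht]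
    · rcases H.f101 with n3 | n3
      · linarith only [n1, n2, n3, B0, B3, B7, B9, pb2, pc0, pyb, hx, hd, ht]
      · linarith only [n1, n3, B0, B2, B7, B9, pb0, pb3, pyb, hx, hd, ht]
  · linarith only [n0, n1, B0, B3, B5, B7, pb0, pb2, pb3, pc0, pc1, pc2, pc4, pyb, hx, hd, ht]
  · linarith only [n0, n1, B0, B3, B5, B9, pc0, pc1, pc2, pc4, hx, hd, ht]

theorem no_fail_coords (a0 a1 a2 a3 a4 b0 b1 b2 b3 b4 c0 c1 c2 c3 c4 ya yb yc t x d : ℝ)
    (H : Facts a0 a1 a2 a3 a4 b0 b1 b2 b3 b4 c0 c1 c2 c3 c4 ya yb yc t)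
    (HB : BaseC a0 a1 a2 a3 a4 b0 b1 b2 b3 b4 c0 c1 c2 c3 c4 ya yb yc x d)
    (hx : 0 ≤ x) (hd : 0 ≤ d) (ht : t = 4 / 7 - 4 / 7 * x + 1000 * d) : False := by
  obtain ⟨B0, B1, B2, B3, B4, B5, B6, B7, B8, B9, B10, pa0, pa1, pa2, pa3, pa4, pb0, pb1, pb2, pb3, pb4, pc0, pc1, pc2, pc3, pc4, pya, pyb, pyc⟩ := id HB
  rcases H.f0 with n0 | n0 | n0 | n0
  · rcases H.f1 with n1 | n1
    · rcases H.f2 with n2 | n2
      · rcases H.f3 with n3 | n3
        · rcases H.f4 with n4 | n4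
          · rcases H.f5 with n5 | n5
            · exact sub5 a0 a1 a2 a3 a4 b0 b1 b2 b3 b4 c0 c1 c2 c3 c4 ya yb yc t x d H HB hx hd ht n0 n1 n2 n3 n4 n5
            · linarith only [n3, n5, B0, B2, B5, B7, B9, pb1, pb2, pc0, pc2, pc3, pc4, pyb, hx, hd, ht]
          · linarith only [n4, B0, hx, hd, ht]
        · linarith only [n3, B0, B4, pc0, pc2, pc3, pyc, hx, hd, ht]
      · linarith only [n2, B0, B5, hx, hd, ht]
    · linarith only [n1, B0, B3, hx, hd, ht]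
  · rcases H.f57 with n1 | n1
    · rcases H.f58 with n2 | n2
      · rcases H.f59 with n3 | n3
        · linarith only [n0, n3, B0, B5, B8, B9, pc1, pc2, pyc, hx, hd, ht]
        · rcases H.f60 with n4 | n4
          · rcases H.f61 with n5 | n5 | n5 | n5
            · exact sub7 a0 a1 a2 a3 a4 b0 b1 b2 b3 b4 c0 c1 c2 c3 c4 ya yb yc t x d H HB hx hd ht n0 n1 n2 n3 n4 n5
            · linarith only [n0, n1, n4, n5, B0, B1, B5, B6, B9, pa3, pb3, pya, hx, hd, ht]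
            · linarith only [n0, n3, n5, B0, B5, pc0, pc1, pc2, pc4, hx, hd, ht]
            · linarith only [n5, B0, B5, pc0, pc1, pc2, pc3, pc4, hx, hd, ht]
          · linarith only [n4, B0, B1, pa0, pa2, pa3, pya, hx, hd, ht]
      · linarith only [n2, B0, B3, B4, pc0, pc1, pc2, pyc, hx, hd, ht]
    · linarith only [n1, B0, B4, pc0, pc1, pc2, pyc, hx, hd, ht]
  · exact sub12 a0 a1 a2 a3 a4 b0 b1 b2 b3 b4 c0 c1 c2 c3 c4 ya yb yc t x d H HB hx hd ht n0
  · exact sub11 a0 a1 a2 a3 a4 b0 b1 b2 b3 b4 c0 c1 c2 c3 c4 ya yb yc t x d H HB hx hd ht n0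

end Pool.Agent.H705R2.ABC3
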