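import Mathlib
import Pool.Agent.H705R2.ABC2.Cert
import Pool.Agent.H705R2.ABC3.Tree1

/-!
# abc, 9/10 ≤ lam ≤ 1: not all bounds fail at the level 4 lam / 7
-/

namespace Pool.Agent.H705R2.ABC3

open Finset Pool.Agent.H785R2.ABC Pool.Agent.H705R2.ABC2

theorem no_fail3 (lam x δ : ℝ) (hx : 0 ≤ x) (hx1 : x ≤ 1 / 10) (hδ : 0 ≤ δ)
    (hlam : lam ≤ 1 - x)
    (v w : Fin 3 → Fin 5 → ℝ) (hP : Poly 4 lam δ v w) (h : Fail v w (4 / 7 - 4 / 7 * x + 1000 * δ)) :
    False := by
  have key : ∀ v w : Fin 3 → Fin 5 → ℝ, Poly 4 lam δ v w → Fail v w (4 / 7 - 4 / 7 * x + 1000 * δ) →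
      cost v 2 univ ≤ cost v 1 univ → False := by
    intro v w hP h hle
    have hw := wt_of hP
    have hl := hP.w_last
    have hv := hP.v_nonneg
    have h0 := hP.w0
    have h1 := hP.w1
    have h1' := hP.w1'
    have h2 := hP.w2
    have h2' := hP.w2'
    have ht := hP.tot
    simp only [cost_univ, hw.w0, hw.w1, hw.w2, hw.w3] at h0 h1 h1' h2 h2' ht hle
    have e : (Fin.last 4 : Fin 5) = 4 := rfl
    rw [e] at hl
    have hl0 := hl 0
    have hl1 := hl 1
    have hl2 := hl 2
    norm_num at hl0 hl1 hl2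
    refine no_fail_coords _ _ _ _ _ _ _ _ _ _ _ _ _ _ _ _ _ _ _ x δ (facts_of h hw)
      ⟨?_, ?_, ?_, ?_, ?_, ?_, hl0, hl1, hl2, ?_, hx1, hv _ _, hv _ _, hv _ _, hv _ _, hv _ _,
        hv _ _, hv _ _, hv _ _, hv _ _, hv _ _, hv _ _, hv _ _, hv _ _, hv _ _, hv _ _,
        ?_, ?_, ?_⟩ hx hδ rfl
    · linarith only [ht, hlam]
    · linarith only [h0]
    · linarith only [h1]
    · linarith only [h1']
    · linarith only [h2]
    · linarith only [h2']
    · linarith only [hle]
    · have := hv 0 4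
      linarith only [this, hl0]
    · have := hv 1 4
      linarith only [this, hl1]
    · have := hv 2 4
      linarith only [this, hl2]
  rcases le_total (cost v 2 univ) (cost v 1 univ) with hc | hc
  · exact key v w hP h hc
  · refine key (fun j => v (sw j)) (fun j => w (sw j)) ?_ (fail_sw h) hc
    exact ⟨fun j i => hP.v_nonneg _ i, fun j i hi => hP.w_eq _ i hi, fun j => hP.w_last _,
      hP.w0, hP.w2, hP.w2', hP.w1, hP.w1', by
        have := hP.tot
        have e : ∀ j, cost (fun j => v (sw j)) j univ = cost v (sw j) univ := fun j => rfl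
        rw [e, e, e]
        change cost v 0 univ + cost v 2 univ + cost v 1 univ ≤ lam
        linarith⟩

end Pool.Agent.H705R2.ABC3
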