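import Mathlib
import Pool.Agent.H705R2.ABC2.Main2
import Pool.Agent.H705R2.ABC3.Cells3
import Pool.Agent.H705R2.ABC3.Cert3

/-!
# abc-triples with `rad (abc) ≤ c ^ lam`, `0 < lam ≤ 1`: exponent `4 lam / 7`
-/

namespace Pool.Agent.H705R2.ABC3

open Finset Pool.Agent.H785R2.ABC Pool.Agent.H705R2.ABC Pool.Agent.H705R2.ABC2

theorem main3 (lam : ℝ) (h0 : 0 < lam) (h1 : lam ≤ 1) : StmtCount lam (4 * lam / 7) := by
  rcases le_total lam (9 / 10) with h | h
  · exact main lam h0 h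
  · refine count_of2 basics lam _ (by linarith)
      (cell_bound3 basics (PO.stmtPoly_of basics) stmtMcell' stmtEst' stmtDc' lam _ ?_)
    intro δ hδ v w hP hf
    refine no_fail3 lam (1 - lam) δ (by linarith) (by linarith) hδ (by linarith) v w hP ?_
    have e : 4 / 7 - 4 / 7 * (1 - lam) + 1000 * δ = 4 * lam / 7 + 1000 * δ := by ring
    rw [e]
    exact hf

/-- For all `B`, `0 < lam ≤ 1` and `ε > 0` at most `C * X ^ (4 lam / 7 + ε)` abc-triples with
`c ≤ X` have `rad (abc) ≤ B * c ^ lam`. -/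
theorem count_B3 (B lam ε : ℝ) (h0 : 0 < lam) (hl : lam ≤ 1) (hε : 0 < ε) :
    ∃ C : ℝ, ∀ X : ℕ, 1 ≤ X →
    ((ExcB B lam X).ncard : ℝ) ≤ C * (X : ℝ) ^ (4 * lam / 7 + ε) := by
  rcases eq_or_lt_of_le hl with h1 | h1
  · obtain ⟨C, hC⟩ := count_B B lam ε hε
    refine ⟨|C|, fun X hX => (hC X hX).trans ?_⟩
    have hX1 : (1 : ℝ) ≤ X := by exact_mod_cast hX
    have e : 6 / 11 + max (lam - 1) 0 + ε ≤ 4 * lam / 7 + ε := by
      rw [h1]
      norm_num
    calc C * (X : ℝ) ^ (6 / 11 + max (lam - 1) 0 + ε)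
        ≤ |C| * (X : ℝ) ^ (6 / 11 + max (lam - 1) 0 + ε) :=
          mul_le_mul_of_nonneg_right (le_abs_self C) (Real.rpow_nonneg (by linarith) _)
      _ ≤ |C| * (X : ℝ) ^ (4 * lam / 7 + ε) :=
          mul_le_mul_of_nonneg_left (Real.rpow_le_rpow_of_exponent_le hX1 e) (abs_nonneg C)
  set η : ℝ := min (ε / 2) (1 - lam) with hη
  have hη0 : 0 < η := lt_min (by positivity) (by linarith)
  have hηε : η ≤ ε / 2 := min_le_left _ _
  have hη1 : lam + η ≤ 1 := by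
    have := min_le_right (ε / 2) (1 - lam)
    linarith
  obtain ⟨C, hC⟩ := main3 (lam + η) (by linarith) hη1 (ε / 2) (by positivity)
  set B' : ℝ := max B 1 with hB'
  have hB1 : 1 ≤ B' := le_max_right _ _
  set c0 : ℕ := ⌈B' ^ (1 / η)⌉₊ with hc0
  have hθ : 4 * (lam + η) / 7 + ε / 2 ≤ 4 * lam / 7 + ε := by linarith
  have hθ0 : 0 ≤ 4 * lam / 7 + ε := by linarith
  refine ⟨|C| + ((ExcB B lam c0).ncard : ℝ), fun X hX => ?_⟩
  have hX1 : (1 : ℝ) ≤ X := by exact_mod_cast hX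
  set A : Set (ℕ × ℕ × ℕ) := {t : ℕ × ℕ × ℕ | IsABCTriple t.1 t.2.1 t.2.2 ∧ t.2.2 ≤ X ∧
      (rad (t.1 * t.2.1 * t.2.2) : ℝ) ≤ (t.2.2 : ℝ) ^ (lam + η)} with hA
  have hAfin : A.Finite := by
    refine Set.Finite.subset (Finset.finite_toSet
      ((range (X + 1)) ×ˢ (range (X + 1)) ×ˢ (range (X + 1)))) ?_
    rintro ⟨a, b, c⟩ ⟨⟨h1, h2, h3, h4, h5⟩, h6, h7⟩
    simp only at h1 h2 h4 h6
    simp only [coe_product, Set.mem_prod, coe_range, Set.mem_Iio]
    omega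
  have hsub : ExcB B lam X ⊆ A ∪ ExcB B lam c0 := by
    rintro ⟨a, b, c⟩ ⟨ha, hb, hab, habc, hc, hr⟩
    simp only at ha hb hab habc hc hr
    by_cases hcc : c ≤ c0
    · right
      exact ⟨ha, hb, hab, habc, hcc, hr⟩
    · left
      push Not at hcc
      subst habc
      have hcpos : 0 < a + b := Nat.add_pos_left ha b
      have hcr : (0 : ℝ) < ((a + b : ℕ) : ℝ) := by exact_mod_cast hcpos
      refine ⟨⟨ha, hb, hcpos, rfl, hab, ?_, ?_⟩, hc, ?_⟩
      · simpa using hab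
      · simpa using hab.symm
      · have h1 : B' ^ (1 / η) ≤ ((a + b : ℕ) : ℝ) :=
          (Nat.le_ceil _).trans (by exact_mod_cast hcc.le)
        have h2 : B' ≤ ((a + b : ℕ) : ℝ) ^ η := by
          have h3 := Real.rpow_le_rpow (by positivity) h1 (z := η) (by positivity)
          rw [← Real.rpow_mul (by linarith), one_div_mul_cancel hη0.ne', Real.rpow_one] at h3
          exact h3
        calc (rad (a * b * (a + b)) : ℝ) ≤ B * ((a + b : ℕ) : ℝ) ^ lam := hr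
          _ ≤ B' * ((a + b : ℕ) : ℝ) ^ lam :=
              mul_le_mul_of_nonneg_right (le_max_left _ _) (Real.rpow_nonneg hcr.le _)
          _ ≤ ((a + b : ℕ) : ℝ) ^ η * ((a + b : ℕ) : ℝ) ^ lam :=
              mul_le_mul_of_nonneg_right h2 (Real.rpow_nonneg hcr.le _)
          _ = ((a + b : ℕ) : ℝ) ^ (lam + η) := by
              rw [← Real.rpow_add hcr]
              congr 1
              ring
  have h1 : ((ExcB B lam X).ncard : ℝ) ≤ (A.ncard : ℝ) + ((ExcB B lam c0).ncard : ℝ) := by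
    have h2 := Set.ncard_le_ncard hsub (hAfin.union (excB_finite B lam c0))
    have h3 := Set.ncard_union_le A (ExcB B lam c0)
    exact_mod_cast h2.trans h3
  have h2 : (A.ncard : ℝ) ≤ |C| * (X : ℝ) ^ (4 * lam / 7 + ε) := by
    calc (A.ncard : ℝ) ≤ C * (X : ℝ) ^ (4 * (lam + η) / 7 + ε / 2) := hC X hX
      _ ≤ |C| * (X : ℝ) ^ (4 * (lam + η) / 7 + ε / 2) :=
          mul_le_mul_of_nonneg_right (le_abs_self C) (Real.rpow_nonneg (by linarith) _)
      _ ≤ |C| * (X : ℝ) ^ (4 * lam / 7 + ε) :=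
          mul_le_mul_of_nonneg_left (Real.rpow_le_rpow_of_exponent_le hX1 hθ) (abs_nonneg C)
  have h3 : ((ExcB B lam c0).ncard : ℝ) ≤
      ((ExcB B lam c0).ncard : ℝ) * (X : ℝ) ^ (4 * lam / 7 + ε) :=
    le_mul_of_one_le_right (Nat.cast_nonneg _) (Real.one_le_rpow hX1 hθ0)
  calc ((ExcB B lam X).ncard : ℝ) ≤ (A.ncard : ℝ) + ((ExcB B lam c0).ncard : ℝ) := h1
    _ ≤ _ := by
        rw [add_mul]
        exact add_le_add h2 h3

end Pool.Agent.H705R2.ABC3
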